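import Pool.Agent.NRC.Targets
import Pool.Agent.RNB.P_AUT

/-!
# NRC, AUB: few automorphisms (helper39)
-/

set_option autoImplicit false

open Finset Classical

namespace Pool.Agent.NRC

open Pool.Agent.Lib.Recon Pool.Agent.RNB

namespace AUB_

variable {V : Type} [Fintype V]

/-- restriction to `T` -/
noncomputable def rs (T : Finset V) (f : V → V) : V → V := fun v => if v ∈ T then f v else v

theorem rs_of_mem {T : Finset V} {f : V → V} {v : V} (h : v ∈ T) : rs T f v = f v := by
  unfold rs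
  rw [if_pos h]

theorem rs_of_notMem {T : Finset V} {f : V → V} {v : V} (h : v ∉ T) : rs T f v = v := by
  unfold rs
  rw [if_neg h]

/-- the restrictions of the automorphisms -/
noncomputable def FF (G : SimpleGraph V) (B T' T : Finset V) : Finset (V → V) :=
  (Aut0 G B T').image (fun σ : Equiv.Perm V => rs T (fun v => σ v))

theorem step (G : SimpleGraph V) (K : ℕ) (B T' T C : Finset V) (y : V) (hy : y ∉ T)
    (hT' : insert y T ⊆ T') (hC : C ⊆ T) (hK : (cl G C y).card ≤ K) :
    (FF G B T' (insert y T)).card ≤ K * (FF G B T' T).card := by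
  have hsub : (FF G B T' (insert y T)).image (rs T) ⊆ FF G B T' T := by
    intro f hf
    obtain ⟨f1, hf1, rfl⟩ := mem_image.1 hf
    obtain ⟨σ, hσ, rfl⟩ := mem_image.1 hf1
    refine mem_image.2 ⟨σ, hσ, ?_⟩
    funext v
    by_cases hv : v ∈ T
    · rw [rs_of_mem hv, rs_of_mem hv, rs_of_mem (mem_insert_of_mem hv)]
    · rw [rs_of_notMem hv, rs_of_notMem hv]
  refine (card_le_mul_card_image (f := rs T) _ K ?_).trans
    (Nat.mul_le_mul_left _ (card_le_card hsub))
  intro f0 hf0
  obtain ⟨σ0, hσ0, rfl⟩ := mem_image.1 (hsub hf0)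
  have ha0 := AUT_.mem_aut.1 hσ0
  have him0 : T'.image σ0 = T' := AUT_.image_eq ha0.1
  refine (card_le_card_of_injOn (fun f => f y) (t := (cl G C y).image σ0) ?_ ?_).trans
    (card_image_le.trans hK)
  · intro f hf
    rw [mem_coe, mem_filter] at hf
    obtain ⟨hf1, hf2⟩ := hf
    obtain ⟨σ, hσ, rfl⟩ := mem_image.1 hf1
    have ha := AUT_.mem_aut.1 hσ
    have him : T'.image σ = T' := AUT_.image_eq ha.1
    have hagree : ∀ v ∈ T, σ v = σ0 v := by
      intro v hv
      have := congrFun hf2 v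
      rw [rs_of_mem hv, rs_of_mem (mem_insert_of_mem hv), rs_of_mem hv] at this
      exact this
    have hyT' : y ∈ T' := hT' (mem_insert_self _ _)
    have hTT' : T ⊆ T' := fun v hv => hT' (mem_insert_of_mem hv)
    have hσy : σ y ∈ T' := by
      rw [← him]
      exact mem_image_of_mem _ hyT'
    have hσy2 := hσy
    rw [← him0] at hσy2
    obtain ⟨x, hx, hxy⟩ := mem_image.1 hσy2
    rw [mem_coe]
    show rs (insert y T) (fun v => σ v) y ∈ _
    rw [rs_of_mem (mem_insert_self _ _)]
    refine mem_image.2 ⟨x, ?_, hxy⟩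
    unfold cl
    rw [mem_filter]
    refine ⟨mem_univ _, ?_, ?_⟩
    · intro hxC
      have h1 : σ x = σ y := by rw [hagree x (hC hxC), hxy]
      have h2 := σ.injective h1
      rw [h2] at hxC
      exact hy (hC hxC)
    · intro c hc
      have hcT' : c ∈ T' := hTT' (hC hc)
      rw [ha.2.2 c hcT' y hyT', hagree c (hC hc), ← hxy, ← ha0.2.2 c hcT' x hx]
  · intro f hf f' hf' he
    rw [mem_coe, mem_filter] at hf hf'
    obtain ⟨hf1, hf2⟩ := hf
    obtain ⟨hf1', hf2'⟩ := hf'
    obtain ⟨σ, hσ, rfl⟩ := mem_image.1 hf1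
    obtain ⟨σ', hσ', rfl⟩ := mem_image.1 hf1'
    funext v
    by_cases hv : v ∈ insert y T
    · rcases mem_insert.1 hv with rfl | hvT
      · exact he
      · have h1 := congrFun (hf2.trans hf2'.symm) v
        rw [rs_of_mem hvT, rs_of_mem hvT] at h1
        exact h1
    · rw [rs_of_notMem hv, rs_of_notMem hv]

theorem main (G : SimpleGraph V) (K : ℕ) (B T' T : Finset V) (hK : 1 ≤ K)
    (h : Bld G K B T) : T ⊆ T' → (FF G B T' T).card ≤ K ^ T.card := by
  induction h with
  | base =>
    intro _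
    have h1 : (FF G B T' B).card ≤ 1 := by
      rw [card_le_one]
      intro f hf f' hf'
      obtain ⟨σ, hσ, rfl⟩ := mem_image.1 hf
      obtain ⟨σ', hσ', rfl⟩ := mem_image.1 hf'
      have ha := AUT_.mem_aut.1 hσ
      have ha' := AUT_.mem_aut.1 hσ'
      funext v
      by_cases hv : v ∈ B
      · rw [rs_of_mem hv, rs_of_mem hv, ha.2.1 v hv, ha'.2.1 v hv]
      · rw [rs_of_notMem hv, rs_of_notMem hv]
    exact h1.trans (Nat.one_le_pow _ _ hK)
  | @step T C y _ hC hcl ih =>
    intro hT'
    by_cases hy : y ∈ T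
    · rw [insert_eq_of_mem hy] at hT' ⊢
      exact ih hT'
    · have h1 := ih (fun v hv => hT' (mem_insert_of_mem hv))
      rw [card_insert_of_notMem hy, pow_succ, mul_comm]
      exact (step G K B T' T C y hy hT' hC hcl).trans (Nat.mul_le_mul_left _ h1)

end AUB_

theorem p_AUB : T_AUB := by
  intro V _ G K B T hK hT
  have h1 := AUB_.main G K B T T hK hT (Subset.refl _)
  refine le_trans ?_ h1
  unfold AUB_.FF
  rw [card_image_of_injOn]
  intro σ hσ σ' hσ' he
  rw [mem_coe] at hσ hσ'
  have ha := AUT_.mem_aut.1 hσ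
  have ha' := AUT_.mem_aut.1 hσ'
  apply Equiv.ext
  intro v
  by_cases hv : v ∈ T
  · have h2 := congrFun he v
    simp only [AUB_.rs_of_mem hv] at h2
    exact h2
  · rw [ha.1 v hv, ha'.1 v hv]

end Pool.Agent.NRC
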