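import Pool.Agent.NRC.Targets

set_option autoImplicit false

/-!
# NRC: averaging over the nets
-/

open Finset Classical

namespace Pool.Agent.NRC

open Pool.Agent.Lib.Recon Pool.Agent.RNB

namespace AVG_

/-- Pigeonhole. -/
theorem pigeon {V Ω : Type} [Fintype V] [Nonempty V] [Fintype Ω] (P : Ω → V → Prop)
    (s : Finset Ω) (hs : ∀ p ∈ s, ∃ v, P p v) :
    ∃ v, s.card ≤ Fintype.card V * (univ.filter (fun p => P p v)).card := by
  obtain ⟨v, -, hv⟩ := Finset.exists_max_image (univ : Finset V)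
    (fun v => (univ.filter (fun p => P p v)).card) univ_nonempty
  refine ⟨v, ?_⟩
  calc s.card ≤ ((univ : Finset V).biUnion fun v => univ.filter (fun p => P p v)).card := by
        refine Finset.card_le_card fun p hp => ?_
        obtain ⟨u, hu⟩ := hs p hp
        exact Finset.mem_biUnion.mpr ⟨u, mem_univ u, Finset.mem_filter.mpr ⟨mem_univ p, hu⟩⟩
    _ ≤ (univ : Finset V).card * (univ.filter (fun p => P p v)).card :=
        Finset.card_biUnion_le_card_mul _ _ _ fun u _ => hv u (mem_univ u)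
    _ = Fintype.card V * (univ.filter (fun p => P p v)).card := by rw [Finset.card_univ]

theorem image_Bi {V : Type} [Fintype V] {k : ℕ} (σ : V ≃ V) (x : Fin k → V) (i : ℕ) :
    (Bi ∅ x i).image σ = Bi ∅ (fun j => σ (x j)) i := by
  unfold Bi
  rw [Finset.empty_union, Finset.empty_union, Finset.image_image]
  rfl

end AVG_

theorem p_AVG (h_DCB : T_DCB) (h_EQV : T_EQV) : T_AVG := by
  intro V ι _ _ G H N g M hN hn hyp hne hcount
  have hV : Nonempty V := Fintype.card_pos_iff.mp hn
  -- the most frequent vertex for each graph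
  have h1 : ∀ i, ∃ v, Fintype.card (Fin N × (Fin N → V)) ≤
      2 * (Fintype.card V * (univ.filter (fun p : Fin N × (Fin N → V) =>
        Gd (H i) g M (Bi ∅ p.2 p.1) v)).card) := by
    intro i
    obtain ⟨v, hv⟩ := AVG_.pigeon
      (fun (p : Fin N × (Fin N → V)) v => Gd (H i) g M (Bi ∅ p.2 p.1) v) _
      (fun p hp => (Finset.mem_filter.mp hp).2)
    exact ⟨v, (hcount i).trans (Nat.mul_le_mul_left 2 hv)⟩
  choose v hv using h1
  have h2 : ∀ i, ∃ σ : V ≃ V, σ (v i) = v i ∧
      ∀ x y, x ≠ v i → y ≠ v i → ((H i).Adj x y ↔ G.Adj (σ x) (σ y)) :=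
    fun i => (hyp i (v i)).symm
  choose σ hσv hσ using h2
  -- the graphs `K i`
  obtain ⟨K, hK⟩ : ∃ K : ι → SimpleGraph V, ∀ i x y,
      ((H i).Adj x y ↔ (K i).Adj (σ i x) (σ i y)) := by
    refine ⟨fun i => (H i).comap (σ i).symm, fun i x y => ?_⟩
    rw [SimpleGraph.comap_adj, Equiv.symm_apply_apply, Equiv.symm_apply_apply]
  have hKG : ∀ i x y, x ≠ v i → y ≠ v i → ((K i).Adj x y ↔ G.Adj x y) := by
    intro i x y hx hy
    have hx' : (σ i).symm x ≠ v i := fun h => hx (by
      rw [← hσv i, ← h, Equiv.apply_symm_apply])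
    have hy' : (σ i).symm y ≠ v i := fun h => hy (by
      rw [← hσv i, ← h, Equiv.apply_symm_apply])
    have h3 := hσ i _ _ hx' hy'
    have h4 := hK i ((σ i).symm x) ((σ i).symm y)
    rw [Equiv.apply_symm_apply, Equiv.apply_symm_apply] at h3 h4
    exact h4.symm.trans h3
  have hinj : Function.Injective K := by
    intro i j hij
    by_contra hij'
    refine hne i j hij' ⟨(σ i).trans (σ j).symm, fun x y => ?_⟩
    rw [hK i, hij, hK j, Equiv.trans_apply, Equiv.trans_apply, Equiv.apply_symm_apply,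
      Equiv.apply_symm_apply]
  -- transport of the nets
  have h3 : ∀ i, (univ.filter (fun p : Fin N × (Fin N → V) =>
      Gd (H i) g M (Bi ∅ p.2 p.1) (v i))).card ≤
      (univ.filter (fun p : Fin N × (Fin N → V) =>
        Gd (K i) g M (Bi ∅ p.2 p.1) (v i))).card := by
    intro i
    refine Finset.card_le_card_of_injOn
      (fun p : Fin N × (Fin N → V) => (p.1, fun j => σ i (p.2 j))) ?_ ?_
    · intro p hp
      have hp' := (Finset.mem_filter.mp (Finset.mem_coe.mp hp)).2
      have h4 := h_EQV V (H i) (K i) (σ i) g M _ (v i) (hK i) hp'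
      rw [hσv i, AVG_.image_Bi] at h4
      exact Finset.mem_coe.mpr (Finset.mem_filter.mpr ⟨mem_univ _, h4⟩)
    · intro p _ p' _ h
      have h' : ((p.1, fun j => σ i (p.2 j)) : Fin N × (Fin N → V)) =
        (p'.1, fun j => σ i (p'.2 j)) := h
      obtain ⟨ha, hb⟩ := Prod.mk.inj h'
      refine Prod.ext ha (funext fun j => (σ i).injective ?_)
      exact congrFun hb j
  -- the number of graphs for a fixed net
  have h5 : ∀ p : Fin N × (Fin N → V), (univ.filter (fun i =>
      Gd (K i) g M (Bi ∅ p.2 p.1) (v i))).card ≤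
      (2 * Fintype.card V ^ 2 * 2 ^ M) * Fintype.card V := by
    intro p
    have h6 := Finset.card_le_mul_card_image_of_maps_to (f := v)
      (s := univ.filter (fun i => Gd (K i) g M (Bi ∅ p.2 p.1) (v i)))
      (t := (univ : Finset V)) (fun i _ => mem_univ _) (2 * Fintype.card V ^ 2 * 2 ^ M) ?_
    · rwa [Finset.card_univ] at h6
    · intro u _
      refine le_trans ?_ (h_DCB V G g M (Bi ∅ p.2 p.1) u)
      refine Finset.card_le_card_of_injOn K ?_ (fun i _ j _ h => hinj h)
      intro i hi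
      obtain ⟨hi1, hi2⟩ := Finset.mem_filter.mp (Finset.mem_coe.mp hi)
      have hi3 := (Finset.mem_filter.mp hi1).2
      rw [hi2] at hi3
      refine Finset.mem_coe.mpr (Finset.mem_filter.mpr ⟨mem_univ _, ?_, hi3⟩)
      intro x y hx hy
      exact hKG i x y (by rw [hi2]; exact hx) (by rw [hi2]; exact hy)
  -- double counting
  have h7 : ∑ i, (univ.filter (fun p : Fin N × (Fin N → V) =>
      Gd (K i) g M (Bi ∅ p.2 p.1) (v i))).card =
      ∑ p : Fin N × (Fin N → V), (univ.filter (fun i =>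
        Gd (K i) g M (Bi ∅ p.2 p.1) (v i))).card := by
    simp only [Finset.card_filter]
    exact Finset.sum_comm
  have hΩ : 0 < Fintype.card (Fin N × (Fin N → V)) :=
    Fintype.card_pos_iff.mpr ⟨(⟨0, hN⟩, fun _ => Classical.arbitrary V)⟩
  refine Nat.le_of_mul_le_mul_right ?_ hΩ
  calc Fintype.card ι * Fintype.card (Fin N × (Fin N → V))
      = ∑ _i : ι, Fintype.card (Fin N × (Fin N → V)) := by
        rw [Finset.sum_const, Finset.card_univ, smul_eq_mul]
    _ ≤ ∑ i : ι, 2 * (Fintype.card V * (univ.filter (fun p : Fin N × (Fin N → V) =>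
          Gd (K i) g M (Bi ∅ p.2 p.1) (v i))).card) :=
        Finset.sum_le_sum fun i _ => (hv i).trans
          (Nat.mul_le_mul_left 2 (Nat.mul_le_mul_left _ (h3 i)))
    _ = 2 * (Fintype.card V * ∑ i : ι, (univ.filter (fun p : Fin N × (Fin N → V) =>
          Gd (K i) g M (Bi ∅ p.2 p.1) (v i))).card) := by
        rw [← Finset.mul_sum, ← Finset.mul_sum]
    _ ≤ 2 * (Fintype.card V * ∑ _p : Fin N × (Fin N → V),
          (2 * Fintype.card V ^ 2 * 2 ^ M) * Fintype.card V) := by
        rw [h7]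
        exact Nat.mul_le_mul_left 2 (Nat.mul_le_mul_left _
          (Finset.sum_le_sum fun p _ => h5 p))
    _ = 4 * Fintype.card V ^ 4 * 2 ^ M * Fintype.card (Fin N × (Fin N → V)) := by
        rw [Finset.sum_const, Finset.card_univ, smul_eq_mul]
        ring

end Pool.Agent.NRC
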