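import Pool.Agent.NRC.Targets

/-!
# NRC, block BIG: large `n`
-/

set_option autoImplicit false

open Finset Classical

namespace Pool.Agent.NRC

open Pool.Agent.Lib.Recon Pool.Agent.RNB Pool.Agent.RNum

theorem p_BIG (h_HLF : T_HLF) (h_AVG : T_AVG) (h_NPA : T_NPA) : T_BIG := by
  obtain ⟨n1, h1⟩ := h_HLF
  obtain ⟨n2, h2⟩ := h_NPA
  refine ⟨max (max n1 n2) 4, ?_⟩
  intro V ι _ _ G H hn hyp hne
  have hn1 : n1 ≤ Fintype.card V := le_trans (le_trans (le_max_left _ _) (le_max_left _ _)) hn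
  have hn2 : n2 ≤ Fintype.card V := le_trans (le_trans (le_max_right _ _) (le_max_left _ _)) hn
  have hn4 : 4 ≤ Fintype.card V := le_trans (le_max_right _ _) hn
  have hpN : 1 ≤ pN (Fintype.card V) := (h2 _ hn2).1
  by_cases hcard : Fintype.card ι ≤ 1
  · have h3 : 0 < Fintype.card V ^ (pd (Fintype.card V) + 2) := pow_pos (by omega) _
    have h4 : 0 ≤ 4 * Fintype.card V ^ 4 * 2 ^ (pM (Fintype.card V)) := Nat.zero_le _
    omega
  have hnt : Nontrivial ι := Fintype.one_lt_card_iff_nontrivial.1 (by omega)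
  have hsplit : Fintype.card ι =
      Fintype.card {i : ι // ∃ u v, u ≠ v ∧ (dset (H i) u v).card ≤ pd (Fintype.card V)} +
      Fintype.card {i : ι // ¬ ∃ u v, u ≠ v ∧ (dset (H i) u v).card ≤ pd (Fintype.card V)} := by
    rw [← Fintype.card_sum]
    exact Fintype.card_congr (Equiv.sumCompl _).symm
  have hA : Fintype.card {i : ι // ∃ u v, u ≠ v ∧ (dset (H i) u v).card ≤ pd (Fintype.card V)} ≤
      2 * Fintype.card V ^ (pd (Fintype.card V) + 2) := by
    refine card_le_codes G (fun i => H i.1) (fun i j hij => hne i.1 j.1 fun h =>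
      hij (Subtype.ext h)) ?_
    rintro ⟨i, u, v, huv, h⟩
    exact ⟨u, exists_cd huv (hyp i u) h⟩
  have hB : Fintype.card {i : ι // ¬ ∃ u v, u ≠ v ∧
      (dset (H i) u v).card ≤ pd (Fintype.card V)} ≤
      4 * Fintype.card V ^ 4 * 2 ^ (pM (Fintype.card V)) := by
    refine h_AVG V _ G (fun i => H i.1) (pN (Fintype.card V)) (pg (Fintype.card V))
      (pM (Fintype.card V)) hpN (by omega) (fun i v => hyp i.1 v)
      (fun i j hij => hne i.1 j.1 fun h => hij (Subtype.ext h)) ?_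
    rintro ⟨i, hi⟩
    obtain ⟨j, hj⟩ := exists_ne i
    refine h1 V (H i) (H j) hn1 (fun v => CardIso_trans (hyp i v).symm (hyp j v))
      (hne i j hj.symm) ?_
    intro u v huv
    by_contra hc
    exact hi ⟨u, v, huv, (not_le.1 hc).le⟩
  rw [hsplit]
  exact add_le_add hA hB

end Pool.Agent.NRC
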