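import Pool.Agent.NRC.Targets

set_option autoImplicit false

/-! BTB: translation of ordered sets. -/

open Finset Classical

namespace Pool.Agent.NRC

open Pool.Agent.Lib.Recon Pool.Agent.RNB

theorem p_BTB : T_BTB := by
  intro V _ G g q A B T hq hAB h
  have key : B ⊆ T ∧ Bld G q B T := by
    induction h with
    | base => exact ⟨Finset.Subset.refl _, Bld.base⟩
    | free hT hf ih =>
      exact ⟨ih.1.trans (Finset.subset_insert _ _), Bld.step ih.2 (hAB.trans ih.1) hf.2⟩
    | @arrow T y z hT hz ha ih =>
      refine ⟨ih.1.trans (Finset.subset_insert _ _), Bld.step (C := insert z A) ih.2 ?_ ?_⟩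
      · intro x hx
        rcases Finset.mem_insert.1 hx with rfl | hx
        · exact hz
        · exact ih.1 (hAB (Finset.mem_union_left _ hx))
      · have h1 : z ∈ IN G (2 * g) A y := ha
        unfold IN at h1
        exact ((Finset.mem_filter.1 h1).2.2.2).trans hq
  exact key.2

end Pool.Agent.NRC
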