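import Pool.Agent.NRC.Targets

/-!
# NRC: a small closed component gives a code (MP_552896_co)
-/

set_option autoImplicit false

open Finset Classical

namespace Pool.Agent.NRC

open Pool.Agent.Lib.Recon Pool.Agent.RNB

namespace CMP_

variable {V : Type} [Fintype V]

lemma mem_CO (G : SimpleGraph V) (g : ℕ) (A P : Finset V) (y z : V) :
    z ∈ CO G g A P y ↔ Relation.ReflTransGen (St G g A P) y z := by
  simp [CO]

lemma self_mem (G : SimpleGraph V) (g : ℕ) (A P : Finset V) (y : V) : y ∈ CO G g A P y :=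
  (mem_CO G g A P y y).mpr Relation.ReflTransGen.refl

lemma CO_subset (G : SimpleGraph V) (g : ℕ) (A P : Finset V) (y : V) (hy : y ∈ P) :
    CO G g A P y ⊆ P := by
  intro z hz
  have h := (mem_CO G g A P y z).mp hz
  rcases Relation.ReflTransGen.cases_tail h with h | ⟨b, _, hb⟩
  · rw [h]; exact hy
  · exact hb.1

lemma reach (G : SimpleGraph V) (g : ℕ) (A P : Finset V) (y z : V)
    (hz : z ∈ CO G g A P y) :
    Relation.ReflTransGen (fun a b => b ∈ CO G g A P y ∧ b ∈ IN G (2 * g) A a) y z := by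
  have h := (mem_CO G g A P y z).mp hz
  clear hz
  induction h with
  | refl => exact Relation.ReflTransGen.refl
  | tail hab hbc ih =>
    exact ih.tail ⟨(mem_CO G g A P y _).mpr (hab.tail hbc), hbc.2⟩

end CMP_

theorem p_CMP (h_GDW : T_GDW) (h_NCV : T_NCV) : T_CMP := by
  intro V _ G g q h d M A hg hq hd y hy hM hcl
  have hsub : CO G g A (LL G g q h d A) y ⊆ LL G g q h d A :=
    CMP_.CO_subset G g A _ y hy
  have hLA : LL G g q h d A ⊆ LA G g q A := filter_subset _ _
  have hyW := CMP_.self_mem G g A (LL G g q h d A) y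
  have hy2 : d ≤ 2 * (IN G (2 * g) A y).card := by
    have := (mem_filter.mp hy).2.2
    exact this
  have hpos : 0 < (IN G (2 * g) A y).card := by omega
  obtain ⟨z, hz⟩ := card_pos.mp hpos
  have hzy : z ≠ y := (mem_filter.mp hz).2.2.1
  have hzW := hcl y hyW hz
  have h2 : 2 ≤ (CO G g A (LL G g q h d A) y).card := by
    have hp : ({z, y} : Finset V) ⊆ CO G g A (LL G g q h d A) y := by
      intro t ht
      rcases mem_insert.mp ht with rfl | ht
      · exact hzW
      · rw [mem_singleton.mp ht]; exact hyW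
    calc 2 = ({z, y} : Finset V).card := (card_pair hzy).symm
      _ ≤ _ := card_le_card hp
  obtain ⟨v, hv, w, hw, hwv, hr⟩ := h_NCV V (fun a b => b ∈ IN G (2 * g) A a)
    (CO G g A (LL G g q h d A) y) y hyW h2
    (fun t ht => CMP_.reach G g A (LL G g q h d A) y t ht)
  exact ⟨v, h_GDW V G g q M A (CO G g A (LL G g q h d A) y) hg hq (hsub.trans hLA) hcl hM
    v hv w hw hwv hr⟩

end Pool.Agent.NRC
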