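import Pool.Agent.NRC.Targets

set_option autoImplicit false
set_option linter.unusedSectionVars false

/-!
# NRC, target CON: connecting, abstract
-/

open Finset Classical

namespace Pool.Agent.NRC

namespace CON_

variable {V : Type} [Fintype V] {ar : V → V → Prop} {fr : V → Prop} {B R P : Finset V}

/-- `y` is in `T` or has an arrow from `T` -/
def Nr (ar : V → V → Prop) (T : Finset V) (y : V) : Prop := y ∈ T ∨ ∃ t ∈ T, ar t y

theorem path {T : Finset V} {r y0 : V} (hr : r ∈ P) (hn : ¬ Nr ar T r)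
    (h : Relation.ReflTransGen (fun a b => b ∈ P ∧ ar b a) r y0) :
    y0 ∈ P ∧ (Nr ar T y0 → ∃ a b, a ∈ P ∧ b ∈ P ∧ ar b a ∧ ¬ Nr ar T a ∧ Nr ar T b) := by
  induction h with
  | refl => exact ⟨hr, fun h => absurd h hn⟩
  | @tail b c _ hbc ih =>
    refine ⟨hbc.1, fun hc => ?_⟩
    by_cases hb : Nr ar T b
    · exact ih.2 hb
    · exact ⟨b, c, ih.1, hbc.1, hbc.2, hb, hc⟩

/-- a vertex of `R` with an arrow to `a` may be added -/
theorem add (h1 : ∀ y, y ∈ B ∨ fr y ∨ y ∈ P) (h3 : ∀ y ∈ P, ∀ z ∈ P, ar z y → ar y z)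
    {T : Finset V} (hT : Bd ar fr B T) {a r : V} (ha : a ∈ T) (haP : a ∈ P) (hra : ar r a)
    (hrB : r ∉ B) : Bd ar fr B (insert r T) := by
  rcases h1 r with h | h | h
  · exact absurd h hrB
  · exact Bd.free hT h
  · exact Bd.arrow hT ha (h3 a haP r h hra)

theorem step (h1 : ∀ y, y ∈ B ∨ fr y ∨ y ∈ P) (h2 : ∀ y ∈ P, y ∉ B → ∃ r ∈ R, ar r y)
    (h3 : ∀ y ∈ P, ∀ z ∈ P, ar z y → ar y z)
    (h4 : ∀ y ∈ P, ∃ y0, Relation.ReflTransGen (fun a b => b ∈ P ∧ ar b a) y y0 ∧
      (y0 ∈ B ∨ ∃ s, s ∉ P ∧ ar s y0))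
    {T : Finset V} (hT : Bd ar fr B T) (hBT : B ⊆ T) {r : V} (hr : r ∈ R) (hrT : r ∉ T) :
    ∃ T2, Bd ar fr B T2 ∧ T ⊆ T2 ∧ T2.card ≤ T.card + 3 ∧ ∃ r' ∈ R, r' ∉ T ∧ r' ∈ T2 := by
  have one : Bd ar fr B (insert r T) → ∃ T2, Bd ar fr B T2 ∧ T ⊆ T2 ∧ T2.card ≤ T.card + 3 ∧
      ∃ r' ∈ R, r' ∉ T ∧ r' ∈ T2 := by
    intro h
    refine ⟨insert r T, h, subset_insert _ _, ?_, r, hr, hrT, mem_insert_self _ _⟩
    have := card_insert_le r T
    omega
  rcases h1 r with h | h | hrP
  · exact absurd (hBT h) hrT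
  · exact one (Bd.free hT h)
  · by_cases hn : Nr ar T r
    · rcases hn with hn | ⟨t, ht, hta⟩
      · exact absurd hn hrT
      · exact one (Bd.arrow hT ht hta)
    · obtain ⟨y0, hp, hy0⟩ := h4 r hrP
      obtain ⟨hyP, hab⟩ := path hrP hn hp
      by_cases hy : Nr ar T y0
      · obtain ⟨a, b, haP, hbP, hba, hna, hnb⟩ := hab hy
        have haT : a ∉ T := fun h => hna (Or.inl h)
        obtain ⟨r', hr', hra⟩ := h2 a haP fun h => haT (hBT h)
        have hrT' : r' ∉ T := fun h => hna (Or.inr ⟨r', h, hra⟩)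
        have b1 : Bd ar fr B (insert b T) := by
          rcases hnb with hb | ⟨t, ht, htb⟩
          · rwa [insert_eq_self.2 hb]
          · exact Bd.arrow hT ht htb
        have b2 : Bd ar fr B (insert a (insert b T)) := Bd.arrow b1 (mem_insert_self _ _) hba
        have b3 : Bd ar fr B (insert r' (insert a (insert b T))) :=
          add h1 h3 b2 (mem_insert_self _ _) haP hra fun h => hrT' (hBT h)
        refine ⟨_, b3, ?_, ?_, r', hr', hrT', mem_insert_self _ _⟩
        · exact (subset_insert _ _).trans ((subset_insert _ _).trans (subset_insert _ _))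
        · have e1 := card_insert_le r' (insert a (insert b T))
          have e2 := card_insert_le a (insert b T)
          have e3 := card_insert_le b T
          omega
      · have hyT : y0 ∉ T := fun h => hy (Or.inl h)
        rcases hy0 with h | ⟨s, hsP, hsy⟩
        · exact absurd (hBT h) hyT
        · have hsT : s ∉ T := fun h => hy (Or.inr ⟨s, h, hsy⟩)
          obtain ⟨r', hr', hra⟩ := h2 y0 hyP fun h => hyT (hBT h)
          have hrT' : r' ∉ T := fun h => hy (Or.inr ⟨r', h, hra⟩)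
          have b1 : Bd ar fr B (insert s T) := by
            rcases h1 s with h | h | h
            · exact absurd (hBT h) hsT
            · exact Bd.free hT h
            · exact absurd h hsP
          have b2 : Bd ar fr B (insert y0 (insert s T)) :=
            Bd.arrow b1 (mem_insert_self _ _) hsy
          have b3 : Bd ar fr B (insert r' (insert y0 (insert s T))) :=
            add h1 h3 b2 (mem_insert_self _ _) hyP hra fun h => hrT' (hBT h)
          refine ⟨_, b3, ?_, ?_, r', hr', hrT', mem_insert_self _ _⟩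
          · exact (subset_insert _ _).trans ((subset_insert _ _).trans (subset_insert _ _))
          · have e1 := card_insert_le r' (insert y0 (insert s T))
            have e2 := card_insert_le y0 (insert s T)
            have e3 := card_insert_le s T
            omega

theorem main (h1 : ∀ y, y ∈ B ∨ fr y ∨ y ∈ P) (h2 : ∀ y ∈ P, y ∉ B → ∃ r ∈ R, ar r y)
    (h3 : ∀ y ∈ P, ∀ z ∈ P, ar z y → ar y z)
    (h4 : ∀ y ∈ P, ∃ y0, Relation.ReflTransGen (fun a b => b ∈ P ∧ ar b a) y y0 ∧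
      (y0 ∈ B ∨ ∃ s, s ∉ P ∧ ar s y0)) :
    ∀ (n : ℕ) (T : Finset V), (R \ T).card ≤ n → Bd ar fr B T → B ⊆ T →
      T.card + 3 * (R \ T).card ≤ B.card + 3 * R.card →
      ∃ T, Bd ar fr B T ∧ B ⊆ T ∧ R ⊆ T ∧ T.card ≤ B.card + 3 * R.card := by
  intro n
  induction n with
  | zero =>
    intro T hn hT hBT hc
    have h0 : R \ T = ∅ := card_eq_zero.1 (by omega)
    exact ⟨T, hT, hBT, sdiff_eq_empty_iff_subset.1 h0, by omega⟩
  | succ n ih =>
    intro T hn hT hBT hc
    by_cases h0 : R ⊆ T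
    · exact ⟨T, hT, hBT, h0, by omega⟩
    · obtain ⟨r, hr, hrT⟩ := not_subset.1 h0
      obtain ⟨T2, hT2, hTT, hcd, r', hr', hrT', hrT2⟩ := step h1 h2 h3 h4 hT hBT hr hrT
      have hlt : (R \ T2).card < (R \ T).card := by
        apply card_lt_card
        rw [ssubset_iff_of_subset (sdiff_subset_sdiff subset_rfl hTT)]
        exact ⟨r', mem_sdiff.2 ⟨hr', hrT'⟩, fun h => (mem_sdiff.1 h).2 hrT2⟩
      exact ih T2 (by omega) hT2 (hBT.trans hTT) (by omega)

end CON_

theorem p_CON : T_CON := by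
  intro V _ ar fr B R P h1 h2 h3 h4
  refine CON_.main h1 h2 h3 h4 (R \ B).card B le_rfl Bd.base subset_rfl ?_
  have := card_le_card (sdiff_subset : R \ B ⊆ R)
  omega

end Pool.Agent.NRC
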