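import Pool.Agent.NRC.Targets

/-!
# NRC: target DCB, the number of graphs with a code
-/

set_option autoImplicit false

open Finset Classical

namespace Pool.Agent.NRC

open Pool.Agent.Lib.Recon Pool.Agent.RNB

namespace DCB_

variable {V : Type} [Fintype V]

/-- the graphs agree outside `v` -/
def Off (F K : SimpleGraph V) (v : V) : Prop :=
  ∀ x y, x ≠ v → y ≠ v → (K.Adj x y ↔ F.Adj x y)

theorem sd_eq {F K : SimpleGraph V} {v : V} (h : Off F K v) {A : Finset V} (hv : v ∉ A)
    {z y : V} (hz : z ≠ v) (hy : y ≠ v) : sd K A v z y = sd F A v z y := by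
  ext x
  simp only [sd, cl, mem_erase, mem_filter, mem_univ, true_and]
  constructor
  · rintro ⟨hx, hxi, hb⟩
    refine ⟨hx, hxi, fun b hbi => ?_⟩
    have hbv : b ≠ v := by
      rintro rfl
      rcases mem_insert.1 hbi with h' | h'
      · exact hz h'.symm
      · exact hv h'
    rw [← h b y hbv hy, ← h b x hbv hx]
    exact hb b hbi
  · rintro ⟨hx, hxi, hb⟩
    refine ⟨hx, hxi, fun b hbi => ?_⟩
    have hbv : b ≠ v := by
      rintro rfl
      rcases mem_insert.1 hbi with h' | h'
      · exact hz h'.symm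
      · exact hv h'
    rw [h b y hbv hy, h b x hbv hx]
    exact hb b hbi

theorem Ar_eq {F K : SimpleGraph V} {v : V} (h : Off F K v) {A : Finset V} (hv : v ∉ A)
    (g : ℕ) : Ar K g A v = Ar F g A v := by
  funext y z
  apply propext
  unfold Ar
  constructor
  · rintro ⟨a1, a2, a3, a4, a5, a6⟩
    refine ⟨a1, a2, a3, a4, a5, ?_⟩
    rw [← sd_eq h hv a3 a4]
    exact a6
  · rintro ⟨a1, a2, a3, a4, a5, a6⟩
    refine ⟨a1, a2, a3, a4, a5, ?_⟩
    rw [sd_eq h hv a3 a4]
    exact a6

theorem BR_eq {F K : SimpleGraph V} {v : V} (h : Off F K v) {A : Finset V} (hv : v ∉ A)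
    (g : ℕ) (w : V) : BR K g A v w = BR F g A v w := by
  unfold BR
  rw [Ar_eq h hv g]

theorem inj {F K L : SimpleGraph V} {v : V} (hK : Off F K v) (hL : Off F L v) {A : Finset V}
    (hv : v ∉ A) {g : ℕ} {w u : V} {b : Bool} {S : Finset V} (hu : u ≠ v)
    (cK : Cod K g A v w u b S) (cL : Cod L g A v w u b S) : K = L := by
  have key : ∀ z, z ≠ v → (K.Adj z v ↔ L.Adj z v) := by
    intro z hz
    rw [cK z hz, cL z hz, BR_eq hK hv g w, BR_eq hL hv g w, sd_eq hK hv hz hu,
      sd_eq hL hv hz hu, hK z u hz hu, hL z u hz hu]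
  ext x y
  by_cases hx : x = v
  · by_cases hy : y = v
    · subst hx
      subst hy
      exact ⟨fun h => absurd h (K.loopless.irrefl _), fun h => absurd h (L.loopless.irrefl _)⟩
    · subst hx
      rw [K.adj_comm, L.adj_comm]
      exact key y hy
  · by_cases hy : y = v
    · subst hy
      exact key x hx
    · rw [hK x y hx hy, hL x y hx hy]

/-- the possible codes -/
noncomputable def codes (F : SimpleGraph V) (g M : ℕ) (A : Finset V) (v : V) :
    Finset ((_ : V × V × Bool) × Finset V) :=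
  (univ : Finset (V × V × Bool)).sigma fun p =>
    if (BR F g A v p.1).card ≤ M then (BR F g A v p.1).powerset else ∅

theorem card_codes (F : SimpleGraph V) (g M : ℕ) (A : Finset V) (v : V) :
    (codes F g M A v).card ≤ 2 * Fintype.card V ^ 2 * 2 ^ M := by
  unfold codes
  rw [card_sigma]
  calc ∑ p : V × V × Bool,
        (if (BR F g A v p.1).card ≤ M then (BR F g A v p.1).powerset else ∅).card
      ≤ ∑ _p : V × V × Bool, 2 ^ M := by
        refine sum_le_sum fun p _ => ?_
        by_cases h : (BR F g A v p.1).card ≤ M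
        · rw [if_pos h, card_powerset]
          exact Nat.pow_le_pow_right (by norm_num) h
        · rw [if_neg h, card_empty]
          exact Nat.zero_le _
    _ = 2 * Fintype.card V ^ 2 * 2 ^ M := by
        rw [sum_const, card_univ, Fintype.card_prod, Fintype.card_prod, Fintype.card_bool,
          smul_eq_mul]
        ring

end DCB_

open DCB_ in
theorem p_DCB : T_DCB := by
  intro V _ F g M A v
  have hex : ∀ K ∈ univ.filter (fun K : SimpleGraph V =>
      (∀ x y, x ≠ v → y ≠ v → (K.Adj x y ↔ F.Adj x y)) ∧ Gd K g M A v),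
      ∃ c : (_ : V × V × Bool) × Finset V, c ∈ codes F g M A v ∧ c.1.2.1 ≠ v ∧
        Cod K g A v c.1.1 c.1.2.1 c.1.2.2 c.2 := by
    intro K hK
    obtain ⟨-, hoff, hv, w, u, b, S, hw, hu, hM, hS, hC⟩ := mem_filter.1 hK
    refine ⟨⟨(w, u, b), S⟩, ?_, hu, hC⟩
    have hB : BR K g A v w = BR F g A v w := BR_eq hoff hv g w
    rw [hB] at hM hS
    unfold codes
    rw [mem_sigma]
    refine ⟨mem_univ _, ?_⟩
    rw [if_pos hM]
    exact mem_powerset.2 hS
  haveI : Nonempty ((_ : V × V × Bool) × Finset V) := ⟨⟨(v, v, true), ∅⟩⟩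
  choose! f hf using hex
  refine le_trans (card_le_card_of_injOn f (fun K hK => (hf K hK).1) ?_)
    (card_codes F g M A v)
  intro K hK L hL he
  have hK' := mem_filter.1 (mem_coe.1 hK)
  have hL' := mem_filter.1 (mem_coe.1 hL)
  obtain ⟨-, huK, cK⟩ := hf K hK
  obtain ⟨-, huL, cL⟩ := hf L hL
  rw [← he] at cL
  exact inj hK'.2.1 hL'.2.1 hK'.2.2.1 huK cK cL

end Pool.Agent.NRC
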