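import Pool.Agent.NRC.Targets

/-!
# NRC: the set distinguishes (target DIS)
-/

set_option autoImplicit false

open Finset Classical

namespace Pool.Agent.NRC

open Pool.Agent.Lib.Recon Pool.Agent.RNB

/-- **DIS** -/
theorem p_DIS : T_DIS := by
  intro V _ G g q h d A R X T hAE hLL hX hR h1 h2 u v hu hv huv
  by_contra hcon
  have hc : ∀ a ∈ T, (G.Adj a v ↔ G.Adj a u) := by
    intro a ha
    by_contra h3
    exact hcon ⟨a, ha, fun h4 => h3 h4.symm⟩
  have huE : u ∉ A ∪ EE G g A := fun h3 => hu (hAE h3)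
  have hvE : v ∉ A ∪ EE G g A := fun h3 => hv (hAE h3)
  have hucl : u ∈ cl G (A ∪ EE G g A) v := by
    unfold cl
    rw [mem_filter]
    exact ⟨mem_univ _, huE, fun b hb => hc b (hAE hb)⟩
  have huX : u ∉ X := fun h3 => hu (hX h3)
  have fin : ¬ Pr G g q h d A u v := by
    intro hP
    obtain ⟨r, hr, hrd⟩ := h2 u v huX hP
    rw [mem_dset] at hrd
    exact hrd.2.2 (hc r (hR hr)).symm
  by_cases hq : (cl G (A ∪ EE G g A) v).card ≤ q
  · exact fin ⟨huv, Or.inl ⟨hvE, hq, hucl⟩⟩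
  · have hLA : v ∈ LA G g q A := by
      unfold LA
      rw [mem_filter]
      exact ⟨mem_univ _, hvE, not_le.1 hq⟩
    have hvLL : v ∈ LL G g q h d A := by
      by_contra h3
      exact hv (hLL (mem_sdiff.2 ⟨hLA, h3⟩))
    obtain ⟨r, hr, hrI⟩ := h1 v hvLL fun h3 => hv (hX h3)
    refine fin ⟨huv, Or.inr ⟨hvLL, r, hrI, ?_⟩⟩
    unfold cl
    rw [mem_filter]
    refine ⟨mem_univ _, ?_, ?_⟩
    · rw [mem_insert]
      rintro (rfl | h3)
      · exact hu (hR hr)
      · exact huE (mem_union_left _ h3)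
    · intro b hb
      rw [mem_insert] at hb
      rcases hb with rfl | hb
      · exact hc _ (hR hr)
      · exact hc b (hAE (mem_union_left _ hb))

end Pool.Agent.NRC
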