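import Pool.Agent.NRC.Targets
import Pool.Agent.RNB.P_KEY

/-!
# NRC, block EHI: vertices with many arrows are few
-/

set_option autoImplicit false

open Finset Classical

namespace Pool.Agent.NRC

open Pool.Agent.Lib.Recon Pool.Agent.RNB

namespace EHI_

variable {V : Type} [Fintype V]

/-- An arrow into a vertex of a large class halves its class. -/
lemma arrow_halves {G : SimpleGraph V} {g q : ℕ} {A : Finset V} (hgq : 4 * g ≤ q) {y : V}
    (hy : y ∈ LA G g q A) :
    IN G (2 * g) A y ⊆ (univ.filter (fun z => z ∉ A)).filter (fun z => y ∈ SS G A z) := by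
  intro z hz
  simp only [IN, LA, mem_filter, mem_univ, true_and, mem_union, not_or] at hz hy ⊢
  obtain ⟨hz1, hz2, hz3⟩ := hz
  obtain ⟨⟨hy1, -⟩, hy3⟩ := hy
  refine ⟨hz1, ?_⟩
  rw [KEY_.mem_SS]
  refine ⟨hy1, fun h => hz2 h.symm, ?_⟩
  have h1 : (cl G (A ∪ EE G g A) y).card ≤ (cl G A y).card :=
    card_le_card (KEY_.cl_mono subset_union_left y)
  omega

end EHI_

open EHI_ in
/-- Block EHI. -/
theorem p_EHI : T_EHI := by
  intro V _ G g q h A hgq
  have h1 : h * ((LA G g q A).filter (fun y => h < (IN G (2 * g) A y).card)).card ≤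
      ∑ y ∈ (LA G g q A).filter (fun y => h < (IN G (2 * g) A y).card),
        (IN G (2 * g) A y).card := by
    rw [mul_comm, ← smul_eq_mul]
    refine card_nsmul_le_sum _ _ _ fun y hy => ?_
    exact (mem_filter.1 hy).2.le
  have h2 : ∑ y ∈ (LA G g q A).filter (fun y => h < (IN G (2 * g) A y).card),
      (IN G (2 * g) A y).card ≤
      ∑ y ∈ (LA G g q A).filter (fun y => h < (IN G (2 * g) A y).card),
        ((univ.filter (fun z => z ∉ A)).filter (fun z => y ∈ SS G A z)).card :=
    sum_le_sum fun y hy => card_le_card (arrow_halves hgq (mem_filter.1 hy).1)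
  have h3 : ∑ y ∈ (LA G g q A).filter (fun y => h < (IN G (2 * g) A y).card),
        ((univ.filter (fun z => z ∉ A)).filter (fun z => y ∈ SS G A z)).card ≤
      ∑ y : V, ((univ.filter (fun z => z ∉ A)).filter (fun z => y ∈ SS G A z)).card :=
    sum_le_sum_of_subset (subset_univ _)
  have h4 : ∑ y : V, ((univ.filter (fun z => z ∉ A)).filter (fun z => y ∈ SS G A z)).card =
      sm G A := by
    unfold sm
    have h5 := sum_card_bipartiteAbove_eq_sum_card_bipartiteBelow
      (s := (univ : Finset V)) (t := univ.filter (fun z => z ∉ A))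
      (r := fun y z => y ∈ SS G A z)
    simp only [bipartiteAbove, bipartiteBelow] at h5
    rw [h5]
    refine sum_congr rfl fun z _ => ?_
    congr 1
    ext y
    simp
  omega

end Pool.Agent.NRC
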