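import Pool.Agent.NRC.Targets
import Pool.Agent.RNB.P_KEY

set_option autoImplicit false

open Finset Classical

namespace Pool.Agent.NRC

open Pool.Agent.Lib.Recon Pool.Agent.RNB

namespace ELO_

lemma sub {V : Type} [Fintype V] {G : SimpleGraph V} {g : ℕ} {A : Finset V} {y y' : V}
    (hy : y ∉ A) (h : y' ∈ cl G (A ∪ EE G g A) y) :
    dset G y y' ⊆ IN G (2 * g) A y ∪ IN G (2 * g) A y' := by
  intro z hz
  rw [mem_dset] at hz
  obtain ⟨hzy, hzy', hadj⟩ := hz
  have h1 := KEY_.mem_cl.1 h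
  have hzB : z ∉ A ∪ EE G g A := fun hB => hadj (h1.2 z hB)
  rw [mem_union, not_or] at hzB
  have h2 : y' ∈ cl G A y := KEY_.cl_mono subset_union_left y h
  have h3 : ¬ (g < (cl G (insert z A) y).card ∧ g < (cl G (insert z A) y').card) := by
    rintro ⟨g1, g2⟩
    apply hzB.2
    unfold EE
    rw [mem_filter]
    exact ⟨mem_univ _, hzB.1, y, y', hy, Ne.symm hzy, Ne.symm hzy', h2, hadj, g1, g2⟩
  rw [mem_union]
  unfold IN
  rw [mem_filter, mem_filter]
  by_cases g1 : g < (cl G (insert z A) y).card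
  · right
    have g2 : ¬ g < (cl G (insert z A) y').card := fun g2 => h3 ⟨g1, g2⟩
    exact ⟨mem_univ _, hzB.1, hzy', by omega⟩
  · left
    exact ⟨mem_univ _, hzB.1, hzy, by omega⟩

end ELO_

theorem p_ELO : T_ELO := by
  intro V _ G g q d A hd
  set B := A ∪ EE G g A with hB
  set Y := (LA G g q A).filter (fun y => 2 * (IN G (2 * g) A y).card < d) with hY
  have hYm : ∀ y ∈ Y, y ∉ B ∧ q < (cl G B y).card ∧ 2 * (IN G (2 * g) A y).card < d := by
    intro y hy
    rw [hY, mem_filter] at hy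
    have h1 := hy.1
    unfold LA at h1
    rw [mem_filter] at h1
    exact ⟨h1.2.1, h1.2.2, hy.2⟩
  have hno : ∀ y ∈ Y, ∀ y' ∈ Y, y ≠ y' → y' ∉ cl G B y := by
    intro y hy y' hy' hne h
    have h1 := hYm y hy
    have h2 := hYm y' hy'
    have hyA : y ∉ A := fun hA => h1.1 (mem_union_left _ hA)
    have h3 := card_le_card (ELO_.sub hyA h)
    have h4 := card_union_le (IN G (2 * g) A y) (IN G (2 * g) A y')
    have h5 := hd y y' hne
    omega
  have hdis : ∀ y ∈ Y, ∀ y' ∈ Y, y ≠ y' → Disjoint (cl G B y) (cl G B y') := by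
    intro y hy y' hy' hne
    rw [Finset.disjoint_left]
    intro w hw hw'
    apply hno y hy y' hy' hne
    rw [← KEY_.cl_eq hw, KEY_.cl_eq hw', KEY_.mem_cl]
    exact ⟨(hYm y' hy').1, fun b _ => Iff.rfl⟩
  have hcard : (Y.biUnion fun y => cl G B y).card = ∑ y ∈ Y, (cl G B y).card :=
    Finset.card_biUnion fun y hy y' hy' hne => hdis y hy y' hy' hne
  have h6 : Y.card * q ≤ ∑ y ∈ Y, (cl G B y).card := by
    rw [← smul_eq_mul]
    exact Finset.card_nsmul_le_sum _ _ _ fun y hy => (hYm y hy).2.1.le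
  calc q * Y.card = Y.card * q := mul_comm _ _
    _ ≤ ∑ y ∈ Y, (cl G B y).card := h6
    _ = (Y.biUnion fun y => cl G B y).card := hcard.symm
    _ ≤ Fintype.card V := Finset.card_le_univ _

end Pool.Agent.NRC
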