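import Pool.Agent.NRC.Targets
import Pool.Agent.RNB.P_EMB

/-! # NRC: few embeddings (target EMC) -/

set_option autoImplicit false

open Finset Classical

namespace Pool.Agent.NRC

open Pool.Agent.Lib.Recon Pool.Agent.RNB

namespace EMC_

theorem sub {V : Type} [Fintype V] {G : SimpleGraph V} {K : ℕ} {B T : Finset V}
    (h : Bld G K B T) : B ⊆ T := by
  induction h with
  | base => exact Finset.Subset.refl _
  | step _ _ _ ih => exact ih.trans (Finset.subset_insert _ _)

end EMC_

theorem p_EMC (h_AUB : T_AUB) : T_EMC := by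
  intro V _ G K B T hK hT
  exact (p_EMB V G B T (EMC_.sub hT)).trans (Nat.mul_le_mul_left _ (h_AUB V G K B T hK hT))

end Pool.Agent.NRC
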