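import Pool.Agent.NRC.Targets

set_option autoImplicit false

/-!
# NRC, EQV: invariance of the codes under isomorphisms
-/

open Finset Classical

namespace Pool.Agent.NRC

open Pool.Agent.Lib.Recon Pool.Agent.RNB

namespace EQV_

variable {V : Type} [Fintype V]

omit [Fintype V] in
theorem mem_im (σ : V ≃ V) (A : Finset V) (x : V) : σ x ∈ A.image σ ↔ x ∈ A := by
  rw [Finset.mem_image]
  constructor
  · rintro ⟨y, hy, h⟩
    rwa [σ.injective h] at hy
  · exact fun h => ⟨x, h, rfl⟩

theorem cl_im {H K : SimpleGraph V} {σ : V ≃ V} (h : ∀ x y, H.Adj x y ↔ K.Adj (σ x) (σ y))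
    (A : Finset V) (y : V) : cl K (A.image σ) (σ y) = (cl H A y).image σ := by
  ext x
  obtain ⟨x, rfl⟩ := σ.surjective x
  rw [mem_im]
  simp only [cl, Finset.mem_filter, Finset.mem_univ, true_and, mem_im]
  refine and_congr Iff.rfl ?_
  constructor
  · intro h1 b hb
    have := h1 (σ b) (Finset.mem_image_of_mem σ hb)
    rw [← h, ← h] at this
    exact this
  · intro h1 b hb
    obtain ⟨b', hb', rfl⟩ := Finset.mem_image.1 hb
    rw [← h, ← h]
    exact h1 b' hb'

theorem sd_im {H K : SimpleGraph V} {σ : V ≃ V} (h : ∀ x y, H.Adj x y ↔ K.Adj (σ x) (σ y))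
    (A : Finset V) (v z y : V) :
    sd K (A.image σ) (σ v) (σ z) (σ y) = (sd H A v z y).image σ := by
  unfold sd
  rw [← Finset.image_insert, cl_im h, Finset.image_erase σ.injective]

theorem card_sd {H K : SimpleGraph V} {σ : V ≃ V} (h : ∀ x y, H.Adj x y ↔ K.Adj (σ x) (σ y))
    (A : Finset V) (v z y : V) :
    (sd K (A.image σ) (σ v) (σ z) (σ y)).card = (sd H A v z y).card := by
  rw [sd_im h, Finset.card_image_of_injective _ σ.injective]

theorem Ar_im {H K : SimpleGraph V} {σ : V ≃ V} (h : ∀ x y, H.Adj x y ↔ K.Adj (σ x) (σ y))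
    (g : ℕ) (A : Finset V) (v y z : V) :
    Ar K g (A.image σ) (σ v) (σ y) (σ z) ↔ Ar H g A v y z := by
  unfold Ar
  rw [mem_im, mem_im, card_sd h, σ.injective.ne_iff, σ.injective.ne_iff, σ.injective.ne_iff]

theorem reach_im {H K : SimpleGraph V} {σ : V ≃ V} (h : ∀ x y, H.Adj x y ↔ K.Adj (σ x) (σ y))
    (g : ℕ) (A : Finset V) (v w y : V) :
    Relation.ReflTransGen (Ar K g (A.image σ) (σ v)) (σ w) (σ y) ↔
      Relation.ReflTransGen (Ar H g A v) w y := by
  constructor
  · intro h1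
    have h2 : Relation.ReflTransGen (Ar H g A v) (σ.symm (σ w)) (σ.symm (σ y)) := by
      refine Relation.ReflTransGen.lift σ.symm (fun a b hab => ?_) _ _ h1
      show Ar H g A v (σ.symm a) (σ.symm b)
      rw [← Ar_im h g A v, σ.apply_symm_apply, σ.apply_symm_apply]
      exact hab
    rwa [σ.symm_apply_apply, σ.symm_apply_apply] at h2
  · intro h1
    exact Relation.ReflTransGen.lift σ (fun a b hab => (Ar_im h g A v a b).2 hab) _ _ h1

theorem BR_im {H K : SimpleGraph V} {σ : V ≃ V} (h : ∀ x y, H.Adj x y ↔ K.Adj (σ x) (σ y))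
    (g : ℕ) (A : Finset V) (v w : V) :
    BR K g (A.image σ) (σ v) (σ w) = (BR H g A v w).image σ := by
  ext y
  obtain ⟨y, rfl⟩ := σ.surjective y
  rw [mem_im]
  simp only [BR, Finset.mem_filter, Finset.mem_univ, true_and]
  exact reach_im h g A v w y

end EQV_

open EQV_ in
theorem p_EQV : T_EQV := by
  intro V _ H K σ g M A v h hG
  obtain ⟨hv, w, u, b, S, hw, hu, hM, hS, hC⟩ := hG
  refine ⟨fun hh => hv ((mem_im σ A v).1 hh), σ w, σ u, b, S.image σ, σ.injective.ne hw,
    σ.injective.ne hu, ?_, ?_, ?_⟩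
  · rw [BR_im h, Finset.card_image_of_injective _ σ.injective]
    exact hM
  · rw [BR_im h]
    exact Finset.image_subset_image hS
  · intro z hz
    obtain ⟨z, rfl⟩ := σ.surjective z
    have hz' : z ≠ v := fun e => hz (by rw [e])
    have h1 := hC z hz'
    rw [← h z v, BR_im h, h1]
    simp only [mem_im, ← h, card_sd h, σ.injective.eq_iff]

end Pool.Agent.NRC
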