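import Pool.Agent.NRC.Targets

/-!
# NRC: ESM, the vertices which cut a class evenly are few
-/

set_option autoImplicit false

open Finset Classical

namespace Pool.Agent.NRC

open Pool.Agent.Lib.Recon Pool.Agent.RNB

namespace ESM_

variable {V : Type} [Fintype V]

lemma cl_congr {G : SimpleGraph V} {B : Finset V} {v y : V}
    (h : ∀ b ∈ B, (G.Adj b v ↔ G.Adj b y)) : cl G B v = cl G B y := by
  ext w
  unfold cl
  simp only [mem_filter, mem_univ, true_and]
  constructor
  · rintro ⟨h1, h2⟩
    exact ⟨h1, fun b hb => (h b hb).symm.trans (h2 b hb)⟩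
  · rintro ⟨h1, h2⟩
    exact ⟨h1, fun b hb => (h b hb).trans (h2 b hb)⟩

/-- a small side is contained in `SS` -/
lemma side_sub {G : SimpleGraph V} {A : Finset V} {z w y : V}
    (hw : ∀ b ∈ A, (G.Adj b w ↔ G.Adj b y))
    (h : 2 * (cl G (insert z A) w).card ≤ (cl G A y).card) :
    cl G (insert z A) w ⊆ SS G A z := by
  intro v hv
  have hv' := hv
  unfold cl at hv'
  simp only [mem_filter, mem_univ, true_and] at hv'
  obtain ⟨h1, h2⟩ := hv'
  rw [mem_insert, not_or] at h1
  have e1 : cl G (insert z A) v = cl G (insert z A) w :=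
    cl_congr fun b hb => (h2 b hb).symm
  have e2 : cl G A v = cl G A y :=
    cl_congr fun b hb => (h2 b (mem_insert_of_mem hb)).symm.trans (hw b hb)
  unfold SS
  simp only [mem_filter, mem_univ, true_and]
  refine ⟨h1.2, h1.1, ?_⟩
  rw [e1, e2]
  exact h

lemma side_cl {G : SimpleGraph V} {A : Finset V} {z w y : V}
    (hw : ∀ b ∈ A, (G.Adj b w ↔ G.Adj b y)) : cl G (insert z A) w ⊆ cl G A y := by
  intro v hv
  unfold cl at hv ⊢
  simp only [mem_filter, mem_univ, true_and] at hv ⊢
  obtain ⟨h1, h2⟩ := hv
  rw [mem_insert, not_or] at h1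
  exact ⟨h1.2, fun b hb => (hw b hb).symm.trans (h2 b (mem_insert_of_mem hb))⟩

lemma key {G : SimpleGraph V} {g : ℕ} {A : Finset V} {z : V} (hz : z ∈ EE G g A) :
    g ≤ (SS G A z).card := by
  unfold EE at hz
  simp only [mem_filter, mem_univ, true_and] at hz
  obtain ⟨-, y, y', -, -, -, hy', hadj, hg, hg'⟩ := hz
  have hw : ∀ b ∈ A, (G.Adj b y' ↔ G.Adj b y) := by
    unfold cl at hy'
    simp only [mem_filter, mem_univ, true_and] at hy'
    exact fun b hb => (hy'.2 b hb).symm
  have hw0 : ∀ b ∈ A, (G.Adj b y ↔ G.Adj b y) := fun b _ => Iff.rfl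
  have hdis : Disjoint (cl G (insert z A) y) (cl G (insert z A) y') := by
    rw [Finset.disjoint_left]
    intro v h1 h2
    unfold cl at h1 h2
    simp only [mem_filter, mem_univ, true_and] at h1 h2
    have e1 := h1.2 z (mem_insert_self z A)
    have e2 := h2.2 z (mem_insert_self z A)
    exact hadj (e1.trans e2.symm)
  have hcard : (cl G (insert z A) y).card + (cl G (insert z A) y').card ≤ (cl G A y).card := by
    rw [← card_union_of_disjoint hdis]
    exact card_le_card (union_subset (side_cl hw0) (side_cl hw))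
  rcases Nat.le_total (cl G (insert z A) y).card (cl G (insert z A) y').card with h | h
  · have h1 := card_le_card (side_sub hw0 (by omega) : cl G (insert z A) y ⊆ SS G A z)
    omega
  · have h1 := card_le_card (side_sub hw (by omega) : cl G (insert z A) y' ⊆ SS G A z)
    omega

end ESM_

theorem p_ESM : T_ESM := by
  intro V _ G g A
  unfold sm
  calc g * (EE G g A).card = ∑ _z ∈ EE G g A, g := by
        rw [sum_const, smul_eq_mul, mul_comm]
    _ ≤ ∑ z ∈ EE G g A, (SS G A z).card := sum_le_sum fun z hz => ESM_.key hz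
    _ ≤ ∑ z ∈ univ.filter (fun z => z ∉ A), (SS G A z).card := by
        refine sum_le_sum_of_subset fun z hz => ?_
        unfold EE at hz
        simp only [mem_filter, mem_univ, true_and] at hz ⊢
        exact hz.1

end Pool.Agent.NRC
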