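import Pool.Agent.NRC.Targets

/-!
# GDW: a small closed set gives a code
-/

set_option autoImplicit false

open Finset Classical

namespace Pool.Agent.NRC

open Pool.Agent.Lib.Recon Pool.Agent.RNB

namespace GDW_

variable {V : Type} [Fintype V]

theorem mem_cl' {G : SimpleGraph V} {B : Finset V} {v y : V} :
    y ∈ cl G B v ↔ y ∉ B ∧ ∀ b ∈ B, (G.Adj b v ↔ G.Adj b y) := by
  unfold cl
  rw [mem_filter]
  exact ⟨fun h => h.2, fun h => ⟨mem_univ _, h⟩⟩

theorem cl_congr {G : SimpleGraph V} {B : Finset V} {u v : V}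
    (h : ∀ b ∈ B, (G.Adj b u ↔ G.Adj b v)) : cl G B u = cl G B v := by
  ext y
  rw [mem_cl', mem_cl']
  constructor
  · rintro ⟨h1, h2⟩
    exact ⟨h1, fun b hb => (h b hb).symm.trans (h2 b hb)⟩
  · rintro ⟨h1, h2⟩
    exact ⟨h1, fun b hb => (h b hb).trans (h2 b hb)⟩

theorem mem_IN {G : SimpleGraph V} {k : ℕ} {A : Finset V} {y z : V} :
    z ∈ IN G k A y ↔ z ∉ A ∧ z ≠ y ∧ (cl G (insert z A) y).card ≤ k := by
  unfold IN
  rw [mem_filter]
  exact ⟨fun h => h.2, fun h => ⟨mem_univ _, h⟩⟩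

theorem mem_LA {G : SimpleGraph V} {g q : ℕ} {A : Finset V} {y : V} :
    y ∈ LA G g q A ↔ y ∉ A ∪ EE G g A ∧ q < (cl G (A ∪ EE G g A) y).card := by
  unfold LA
  rw [mem_filter]
  exact ⟨fun h => h.2, fun h => ⟨mem_univ _, h⟩⟩

theorem card_sd {G : SimpleGraph V} {A : Finset V} {v z y : V} :
    (cl G (insert z A) y).card ≤ (sd G A v z y).card + 1 := by
  have h : (cl G (insert z A) y).card - 1 ≤ ((cl G (insert z A) y).erase v).card :=
    pred_card_le_card_erase
  unfold sd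
  omega

theorem sd_card {G : SimpleGraph V} {A : Finset V} {v z y : V} :
    (sd G A v z y).card ≤ (cl G (insert z A) y).card :=
  card_le_card (erase_subset _ _)

/-- the arrows of the graph without `v` inside a closed set -/
theorem key (h_SML : T_SML) {G : SimpleGraph V} {g q : ℕ} {A W : Finset V}
    (hg : 1 ≤ g) (hq : 3 * g + 1 ≤ q) (hWL : W ⊆ LA G g q A)
    (hcl : ∀ y ∈ W, IN G (2 * g) A y ⊆ W) {v a : V} (ha : a ∈ W) (hav : a ≠ v) (z : V) :
    Ar G g A v a z ↔ z ≠ v ∧ z ∈ IN G (2 * g) A a := by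
  have haL := mem_LA.1 (hWL ha)
  have haA : a ∉ A := fun h => haL.1 (mem_union_left _ h)
  constructor
  · rintro ⟨h1, -, h2, -, h3, h4⟩
    refine ⟨h2, mem_IN.2 ⟨h1, h3, ?_⟩⟩
    have h5 := card_sd (G := G) (A := A) (v := v) (z := z) (y := a)
    omega
  · rintro ⟨h1, h2⟩
    obtain ⟨h3, h4, -⟩ := mem_IN.1 h2
    have hzL := mem_LA.1 (hWL (hcl a ha h2))
    have hzE : z ∉ EE G g A := fun h => hzL.1 (mem_union_right _ h)
    exact ⟨h3, haA, h1, hav, h4, sd_card.trans (h_SML V G g q A hq a (hWL ha) z h2 hzE)⟩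

/-- the vertices from which `w` can be reached -/
theorem br_eq (h_SML : T_SML) {G : SimpleGraph V} {g q : ℕ} {A W : Finset V}
    (hg : 1 ≤ g) (hq : 3 * g + 1 ≤ q) (hWL : W ⊆ LA G g q A)
    (hcl : ∀ y ∈ W, IN G (2 * g) A y ⊆ W) {v w : V} (hw : w ∈ W) (hwv : w ≠ v)
    (hreach : ∀ y ∈ W, y ≠ v →
      Relation.ReflTransGen (fun a b => b ∈ W ∧ b ≠ v ∧ b ∈ IN G (2 * g) A a) w y) :
    BR G g A v w = W.erase v := by
  ext y
  unfold BR
  rw [mem_filter, mem_erase]
  constructor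
  · rintro ⟨-, h⟩
    induction h with
    | refl => exact ⟨hwv, hw⟩
    | tail _ hbc ih =>
      have h2 := (key h_SML hg hq hWL hcl ih.2 ih.1 _).1 hbc
      exact ⟨h2.1, hcl _ ih.2 h2.2⟩
  · rintro ⟨h1, h2⟩
    refine ⟨mem_univ _, ?_⟩
    have h3 : ∀ y, Relation.ReflTransGen (fun a b => b ∈ W ∧ b ≠ v ∧ b ∈ IN G (2 * g) A a) w y →
        (y ∈ W ∧ y ≠ v) ∧ Relation.ReflTransGen (Ar G g A v) w y := by
      intro y hy
      induction hy with
      | refl => exact ⟨⟨hw, hwv⟩, Relation.ReflTransGen.refl⟩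
      | tail _ hbc ih =>
        exact ⟨⟨hbc.1, hbc.2.1⟩, ih.2.tail
          ((key h_SML hg hq hWL hcl ih.1.1 ih.1.2 _).2 ⟨hbc.2.1, hbc.2.2⟩)⟩
    exact (h3 y (hreach y h2 h1)).2

end GDW_

open GDW_ in
theorem p_GDW (h_SML : T_SML) : T_GDW := by
  intro V _ G g q M A W hg hq hWL hcl hM v hv w hw hwv hreach
  have hvL := mem_LA.1 (hWL hv)
  have hvA : v ∉ A := fun h => hvL.1 (mem_union_left _ h)
  obtain ⟨u, hu, huv⟩ := exists_mem_ne (s := cl G (A ∪ EE G g A) v) (by omega) v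
  obtain ⟨hu1, hu2⟩ := mem_cl'.1 hu
  have huA : u ∉ A := fun h => hu1 (mem_union_left _ h)
  have hBR := br_eq h_SML hg hq hWL hcl hw hwv hreach
  refine ⟨hvA, w, u, decide (G.Adj u v), (W.erase v).filter (fun z => G.Adj z v), hwv, huv,
    ?_, ?_, ?_⟩
  · rw [hBR]
    exact (card_le_card (erase_subset _ _)).trans hM
  · rw [hBR]
    exact filter_subset _ _
  · intro z hzv
    rw [hBR]
    by_cases h1 : z ∈ W.erase v
    · rw [if_pos h1, mem_filter]
      exact ⟨fun h => ⟨h1, h⟩, fun h => h.2⟩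
    rw [if_neg h1]
    by_cases h2 : z = u
    · rw [if_pos h2, decide_eq_true_iff, h2]
    rw [if_neg h2]
    by_cases h3 : z ∈ A
    · rw [if_pos h3]
      exact hu2 z (mem_union_left _ h3)
    rw [if_neg h3]
    have hzW : z ∉ W := fun h => h1 (mem_erase.2 ⟨hzv, h⟩)
    have h4 : 2 * g < (cl G (insert z A) v).card := by
      by_contra h
      exact hzW (hcl v hv (mem_IN.2 ⟨h3, hzv, not_lt.1 h⟩))
    have huc : u ∈ cl G A v := mem_cl'.2 ⟨huA, fun b hb => hu2 b (mem_union_left _ hb)⟩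
    have hbb : ∀ b ∈ A, (G.Adj b u ↔ G.Adj b v) := fun b hb =>
      (hu2 b (mem_union_left _ hb)).symm
    by_cases h5 : (sd G A v z u).card ≤ g
    · have h6 : ¬ (G.Adj z u ↔ G.Adj z v) := by
        intro h
        have h7 : cl G (insert z A) u = cl G (insert z A) v := by
          refine cl_congr fun b hb => ?_
          rcases mem_insert.1 hb with rfl | hb
          · exact h
          · exact hbb b hb
        have h8 := card_sd (G := G) (A := A) (v := v) (z := z) (y := u)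
        rw [h7] at h8
        omega
      tauto
    · have h6 : G.Adj z v ↔ G.Adj z u := by
        by_contra h
        have hzE : z ∈ EE G g A := by
          unfold EE
          rw [mem_filter]
          refine ⟨mem_univ _, h3, v, u, hvA, fun e => hzv e.symm, fun e => h2 e.symm, huc, h,
            by omega, ?_⟩
          have h8 := sd_card (G := G) (A := A) (v := v) (z := z) (y := u)
          omega
        exact h (hu2 z (mem_union_right _ hzE))
      tauto

end Pool.Agent.NRC
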