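import Pool.Agent.NRC.Targets

set_option autoImplicit false

/-!
# NCV: a vertex which is not a cut vertex
-/

open Finset Classical

namespace Pool.Agent.NRC

namespace NCV_

theorem leave {V : Type} {R : V → V → Prop} {T : Finset V} {x y : V} (hx : x ∈ T) (hy : y ∉ T)
    (h : Relation.ReflTransGen R x y) : ∃ a ∈ T, ∃ b, b ∉ T ∧ R a b := by
  induction h with
  | refl => exact absurd hx hy
  | @tail b c _ hbc ih =>
    by_cases hb : b ∈ T
    · exact ⟨b, hb, c, hy, hbc⟩
    · exact ih hb

theorem mono {V : Type} {R S : V → V → Prop} (h : ∀ a b, R a b → S a b) {x y : V}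
    (hxy : Relation.ReflTransGen R x y) : Relation.ReflTransGen S x y := by
  induction hxy with
  | refl => exact Relation.ReflTransGen.refl
  | tail _ hbc ih => exact ih.tail (h _ _ hbc)

/-- the sets which are considered -/
def Ok {V : Type} (r : V → V → Prop) (W : Finset V) (y0 : V) (T : Finset V) : Prop :=
  T ⊆ W ∧ y0 ∈ T ∧ T ≠ W ∧ ∀ y ∈ T, Relation.ReflTransGen (fun a b => b ∈ T ∧ r a b) y0 y

end NCV_

open NCV_ in
theorem p_NCV : T_NCV := by
  intro V _ r W y0 h0 h2 hW
  have hne : (W.powerset.filter (Ok r W y0)).Nonempty := by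
    refine ⟨{y0}, mem_filter.2 ⟨mem_powerset.2 (singleton_subset_iff.2 h0),
      singleton_subset_iff.2 h0, mem_singleton_self _, ?_, ?_⟩⟩
    · intro h
      rw [← h, card_singleton] at h2
      omega
    · intro y hy
      rw [mem_singleton.1 hy]
  obtain ⟨T, hT, hmax⟩ := exists_max_image _ (fun T : Finset V => T.card) hne
  obtain ⟨hTW, hy0, hTne, hreach⟩ := (mem_filter.1 hT).2
  obtain ⟨y, hyW, hyT⟩ : ∃ y ∈ W, y ∉ T := by
    by_contra h
    push Not at h
    exact hTne (subset_antisymm hTW h)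
  obtain ⟨a, ha, b, hb, hbW, hab⟩ := leave hy0 hyT (hW y hyW)
  have hsub : insert b T ⊆ W := insert_subset hbW hTW
  have hall : ∀ y ∈ insert b T,
      Relation.ReflTransGen (fun a c => c ∈ insert b T ∧ r a c) y0 y := by
    have hmono : ∀ y ∈ T, Relation.ReflTransGen (fun a c => c ∈ insert b T ∧ r a c) y0 y :=
      fun y hy => mono (fun _ c h => ⟨mem_insert_of_mem h.1, h.2⟩) (hreach y hy)
    intro y hy
    rcases mem_insert.1 hy with h | h
    · rw [h]
      exact (hmono a ha).tail ⟨mem_insert_self _ _, hab⟩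
    · exact hmono y h
  have hEq : insert b T = W := by
    by_contra hn
    have h3 := hmax (insert b T) (mem_filter.2 ⟨mem_powerset.2 hsub, hsub,
      mem_insert_of_mem hy0, hn, hall⟩)
    rw [card_insert_of_notMem hb] at h3
    omega
  refine ⟨b, hbW, y0, h0, fun h => hb (h ▸ hy0), fun y hy hyb => ?_⟩
  have hyT' : y ∈ T := by
    rw [← hEq] at hy
    exact (mem_insert.1 hy).resolve_left hyb
  refine mono (fun _ c h => ⟨hTW h.1, ?_, h.2⟩) (hreach y hyT')
  rintro rfl
  exact hb h.1

end Pool.Agent.NRC
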