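import Pool.Agent.NRC.Targets
import Pool.Agent.RNB.P_BIN

/-!
# NRC, target NF: the final inequality (MP_552896_co)
-/

set_option autoImplicit false

open Finset Classical

namespace Pool.Agent.NRC

open Pool.Agent.Lib.Recon Pool.Agent.RNB

namespace NF_

theorem lt_pL (n : ℕ) : n < 2 ^ pL n := by
  unfold pL
  exact Nat.lt_pow_succ_log_self (by norm_num) n

theorem pq_le (n : ℕ) : pq n ≤ 2 ^ (11 * pl n) := by
  have h1 : pL n ≤ 2 ^ pl n := by
    unfold pl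
    exact (Nat.lt_pow_succ_log_self (by norm_num) (pL n)).le
  have h2 : 1 ≤ pl n := by
    unfold pl
    omega
  have h3 : pL n ^ 6 ≤ 2 ^ (6 * pl n) := by
    calc pL n ^ 6 ≤ (2 ^ pl n) ^ 6 := Nat.pow_le_pow_left h1 6
      _ = 2 ^ (6 * pl n) := by rw [← pow_mul]; ring_nf
  calc pq n = 32 * pL n ^ 6 := by unfold pq pg; ring
    _ ≤ 2 ^ 5 * 2 ^ (6 * pl n) := by
        norm_num
        exact h3
    _ = 2 ^ (5 + 6 * pl n) := by rw [pow_add]
    _ ≤ 2 ^ (11 * pl n) := Nat.pow_le_pow_right (by norm_num) (by omega)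

end NF_

open NF_ in
theorem p_NF : T_NF := by
  refine ⟨10, ?_⟩
  intro n hn b t hb ht h32
  have hnR : (10 : ℝ) ≤ n := by exact_mod_cast hn
  have hchoose := p_BIN n t h32
  have hpow : ((n ^ b : ℕ) : ℝ) ≤ (2 : ℝ) ^ ((n : ℝ) / 50) := by
    have h1 : n ^ b ≤ 2 ^ (pL n * b) := by
      rw [pow_mul]
      exact Nat.pow_le_pow_left (lt_pL n).le b
    have h2 : ((n ^ b : ℕ) : ℝ) ≤ ((2 ^ (pL n * b) : ℕ) : ℝ) := by exact_mod_cast h1
    refine h2.trans ?_
    push_cast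
    rw [← Real.rpow_natCast]
    refine Real.rpow_le_rpow_of_exponent_le (by norm_num) ?_
    push_cast
    linarith [mul_comm (b : ℝ) (pL n)]
  have hpq : ((pq n ^ t : ℕ) : ℝ) ≤ (2 : ℝ) ^ (11 * ((n : ℝ) / 90)) := by
    have h1 : pq n ^ t ≤ 2 ^ (11 * pl n * t) := by
      rw [pow_mul]
      exact Nat.pow_le_pow_left (pq_le n) t
    have h2 : ((pq n ^ t : ℕ) : ℝ) ≤ ((2 ^ (11 * pl n * t) : ℕ) : ℝ) := by exact_mod_cast h1
    refine h2.trans ?_
    push_cast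
    rw [← Real.rpow_natCast]
    refine Real.rpow_le_rpow_of_exponent_le (by norm_num) ?_
    push_cast
    nlinarith
  have hprod : ((2 * (n.choose t * n ^ b * pq n ^ t) : ℕ) : ℝ) ≤
      (2 : ℝ) ^ (1 + ((13 / 64 : ℝ) * n + (n : ℝ) / 50 + 11 * ((n : ℝ) / 90))) := by
    rw [Real.rpow_add (by norm_num), Real.rpow_add (by norm_num), Real.rpow_add (by norm_num),
      Real.rpow_one, Nat.cast_mul, Nat.cast_mul, Nat.cast_mul, Nat.cast_ofNat]
    have h0 : (0 : ℝ) ≤ ((n ^ b : ℕ) : ℝ) := Nat.cast_nonneg _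
    have h0' : (0 : ℝ) ≤ ((pq n ^ t : ℕ) : ℝ) := Nat.cast_nonneg _
    refine mul_le_mul_of_nonneg_left ?_ (by norm_num)
    refine mul_le_mul (mul_le_mul hchoose hpow h0 (by positivity)) hpq h0' (by positivity)
  have htn : t ≤ n := by omega
  have htR : (32 : ℝ) * t ≤ n := by exact_mod_cast h32
  have hfin : (((2 * (n.choose t * n ^ b * pq n ^ t)) ^ 2 : ℕ) : ℝ) < ((2 ^ (n - t) : ℕ) : ℝ) := by
    rw [Nat.cast_pow]
    calc ((2 * (n.choose t * n ^ b * pq n ^ t) : ℕ) : ℝ) ^ 2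
        ≤ ((2 : ℝ) ^ (1 + ((13 / 64 : ℝ) * n + (n : ℝ) / 50 + 11 * ((n : ℝ) / 90)))) ^ 2 :=
          pow_le_pow_left₀ (Nat.cast_nonneg _) hprod 2
      _ = (2 : ℝ) ^ ((1 + ((13 / 64 : ℝ) * n + (n : ℝ) / 50 + 11 * ((n : ℝ) / 90))) * 2) := by
          rw [← Real.rpow_natCast, ← Real.rpow_mul (by norm_num)]
          norm_num
      _ < (2 : ℝ) ^ (((n - t : ℕ) : ℝ)) := by
          refine Real.rpow_lt_rpow_of_exponent_lt (by norm_num) ?_
          rw [Nat.cast_sub htn]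
          linarith
      _ = ((2 ^ (n - t) : ℕ) : ℝ) := by
          rw [Real.rpow_natCast]
          push_cast
          rfl
  exact_mod_cast hfin

end Pool.Agent.NRC
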