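import Pool.Agent.NRC.Targets

/-!
# NFI: numbers, the final exponent (MP_552896_co, helper2)
-/

set_option autoImplicit false

open Finset Classical

namespace Pool.Agent.NRC

namespace NFI_

lemma a_ge {n : ℕ} (hn : 3 ≤ n) : 3 / 2 ≤ Real.logb 2 n := by
  have h1 : (3 : ℝ) ≤ n := by exact_mod_cast hn
  have h2 : Real.logb 2 ((2 : ℝ) ^ 3) ≤ Real.logb 2 ((n : ℝ) ^ 2) := by
    refine Real.logb_le_logb_of_le (by norm_num) (by norm_num) ?_
    nlinarith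
  rw [Real.logb_pow, Real.logb_pow, Real.logb_self_eq_one (by norm_num)] at h2
  push_cast at h2
  linarith

lemma x_ge {a : ℝ} (ha : 3 / 2 ≤ a) : 1 / 2 ≤ Real.logb 2 a := by
  have h2 : Real.logb 2 (2 : ℝ) ≤ Real.logb 2 (a ^ 2) := by
    refine Real.logb_le_logb_of_le (by norm_num) (by norm_num) ?_
    nlinarith
  rw [Real.logb_pow, Real.logb_self_eq_one (by norm_num)] at h2
  push_cast at h2
  linarith

lemma pL_le {n : ℕ} (hn : 3 ≤ n) : (pL n : ℝ) ≤ 2 * Real.logb 2 n := by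
  have h1 := Real.natLog_le_logb n 2
  have h2 := a_ge hn
  unfold pL
  push_cast at h1 ⊢
  linarith

lemma pl_le {n : ℕ} (hn : 3 ≤ n) :
    (pl n : ℝ) ≤ 5 * Real.logb 2 (Real.logb 2 n) := by
  have h1 := Real.natLog_le_logb (pL n) 2
  have h2 := a_ge hn
  have h3 := x_ge h2
  have h4 : Real.logb 2 (pL n) ≤ Real.logb 2 (2 * Real.logb 2 n) := by
    refine Real.logb_le_logb_of_le (by norm_num) ?_ (pL_le hn)
    unfold pL
    push_cast
    positivity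
  rw [Real.logb_mul (by norm_num) (by linarith), Real.logb_self_eq_one (by norm_num)] at h4
  unfold pl
  push_cast at h1 ⊢
  linarith

end NFI_

open NFI_ in
theorem p_NFI : T_NFI := by
  refine ⟨501000, by norm_num, fun n hn => ?_⟩
  have hN : (3 : ℝ) ≤ n := by exact_mod_cast hn
  have hN1 : (1 : ℝ) ≤ n := by linarith
  have hN0 : (0 : ℝ) < n := by linarith
  have ha := a_ge hn
  have hx := x_ge ha
  obtain ⟨a, haa⟩ : ∃ a, a = Real.logb 2 (n : ℝ) := ⟨_, rfl⟩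
  obtain ⟨x, hxx⟩ : ∃ x, x = Real.logb 2 (Real.logb 2 (n : ℝ)) := ⟨_, rfl⟩
  have hpl := pl_le hn
  have hpL := pL_le hn
  rw [← hxx] at hpl hx ⊢
  rw [← haa] at hpL ha
  have hx2 : 1 / 4 ≤ x ^ 2 := by nlinarith
  have hpl0 : (0 : ℝ) ≤ pl n := Nat.cast_nonneg _
  have hpd : (pd n : ℝ) ≤ 500000 * x ^ 2 := by
    unfold pd
    push_cast
    nlinarith [pow_le_pow_left₀ hpl0 hpl 2]
  -- the power of two
  have hna : (2 : ℝ) ^ a = n := by
    rw [haa]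
    exact Real.rpow_logb (by norm_num) (by norm_num) hN0
  have hpM : (2 : ℝ) ^ (pM n) ≤ (n : ℝ) ^ 200 := by
    have h1 : (2 : ℝ) ^ (pM n) = (2 : ℝ) ^ ((pM n : ℕ) : ℝ) := (Real.rpow_natCast 2 _).symm
    have h2 : ((pM n : ℕ) : ℝ) ≤ a * (200 : ℕ) := by
      unfold pM
      push_cast
      linarith
    rw [h1]
    refine (Real.rpow_le_rpow_of_exponent_le (by norm_num) h2).trans (le_of_eq ?_)
    rw [Real.rpow_mul (by norm_num), hna, Real.rpow_natCast]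
  have hD : (n : ℝ) ^ (pd n) * (n : ℝ) ^ 210 ≤ (n : ℝ) ^ (501000 * x ^ 2) := by
    rw [← pow_add, ← Real.rpow_natCast]
    refine Real.rpow_le_rpow_of_exponent_le hN1 ?_
    push_cast
    linarith
  refine le_trans ?_ hD
  push_cast
  obtain ⟨d, hd⟩ : ∃ d, d = (n : ℝ) ^ (pd n) := ⟨_, rfl⟩
  have hd1 : 1 ≤ d := by
    rw [hd]
    exact one_le_pow₀ hN1
  have e1 : (n : ℝ) ^ (pd n + 2) = d * (n : ℝ) ^ 2 := by rw [hd, pow_add]
  rw [e1, ← hd]
  have h3 : 2 * (d * (n : ℝ) ^ 2) ≤ d * (n : ℝ) ^ 209 := by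
    have h4 : (2 : ℝ) * (n : ℝ) ^ 2 ≤ (n : ℝ) ^ 209 := by
      have h5 : (n : ℝ) * (n : ℝ) ^ 2 ≤ (n : ℝ) ^ 209 := by
        rw [← pow_succ']
        exact pow_le_pow_right₀ hN1 (by norm_num)
      have h6 := mul_le_mul_of_nonneg_right (show (2 : ℝ) ≤ n by linarith)
        (pow_nonneg hN0.le 2)
      linarith
    have := mul_le_mul_of_nonneg_left h4 (show (0 : ℝ) ≤ d by linarith)
    linarith
  have h4 : 4 * (n : ℝ) ^ 4 * 2 ^ (pM n) ≤ d * (n : ℝ) ^ 209 := by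
    have h5 : 4 * (n : ℝ) ^ 4 * 2 ^ (pM n) ≤ (n : ℝ) ^ 5 * (n : ℝ) ^ 4 * (n : ℝ) ^ 200 := by
      refine mul_le_mul ?_ hpM (by positivity) (by positivity)
      refine mul_le_mul_of_nonneg_right ?_ (by positivity)
      have h6 : (3 : ℝ) ^ 5 ≤ (n : ℝ) ^ 5 := pow_le_pow_left₀ (by norm_num) hN 5
      norm_num at h6
      linarith
    have h6 : (n : ℝ) ^ 5 * (n : ℝ) ^ 4 * (n : ℝ) ^ 200 = 1 * (n : ℝ) ^ 209 := by ring
    rw [h6] at h5
    exact h5.trans (mul_le_mul_of_nonneg_right hd1 (by positivity))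
  have h5 : d * (n : ℝ) ^ 209 + d * (n : ℝ) ^ 209 ≤ d * (n : ℝ) ^ 210 := by
    have e2 : d * (n : ℝ) ^ 210 = n * (d * (n : ℝ) ^ 209) := by ring
    rw [e2]
    have h6 : 0 ≤ d * (n : ℝ) ^ 209 := by positivity
    nlinarith
  linarith

end Pool.Agent.NRC
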