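import Pool.Agent.NRC.Targets

/-!
# NRC, NPA: numbers: the parameters
-/

set_option autoImplicit false

open Finset Classical

namespace Pool.Agent.NRC

namespace NPA_

theorem pow_bound (k : ℕ) (hk : 24 ≤ k) : 20000 * (k + 1) ^ 2 ≤ 2 ^ k := by
  induction k, hk using Nat.le_induction with
  | base => norm_num
  | succ k hk ih =>
    rw [pow_succ 2 k]
    nlinarith

theorem pL_bound {n : ℕ} (hn : 2 ^ 24 ≤ n) : 20000 * pL n ^ 2 ≤ n := by
  have h0 : n ≠ 0 := by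
    rintro rfl
    norm_num at hn
  have h1 : 24 ≤ Nat.log 2 n := Nat.le_log_of_pow_le (by norm_num) hn
  exact (pow_bound _ h1).trans (Nat.pow_log_le_self 2 h0)

theorem pl_le (n : ℕ) : pl n ≤ pL n := by
  unfold pl
  have h : 0 < pL n := Nat.succ_pos _
  have := Nat.log_lt_self 2 h.ne'
  omega

theorem logb_le {n : ℕ} (hn : 0 < n) : Real.logb 2 n ≤ pL n := by
  have h1 : n < 2 ^ pL n := Nat.lt_pow_succ_log_self (by norm_num) n
  rw [Real.logb_le_iff_le_rpow (by norm_num) (by exact_mod_cast hn), Real.rpow_natCast]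
  exact_mod_cast h1.le

theorem pN_bound {n : ℕ} (h : pL n ^ 2 ≤ n) : 1 ≤ pN n ∧ n ≤ 2 * (pN n * pL n ^ 2) := by
  have hpos : 0 < pL n ^ 2 := pow_pos (Nat.succ_pos _) 2
  have h1 : 1 ≤ pN n := by
    unfold pN
    rw [Nat.le_div_iff_mul_le hpos]
    omega
  refine ⟨h1, ?_⟩
  have h2 : n < (pN n + 1) * pL n ^ 2 := by
    unfold pN
    have := Nat.lt_mul_div_succ n hpos
    rw [mul_comm] at this
    exact this
  nlinarith

end NPA_

open NPA_

/-- The parameters. -/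
theorem p_NPA : T_NPA := by
  refine ⟨2 ^ 24, fun n hn => ?_⟩
  have h0 : 0 < n := lt_of_lt_of_le (by norm_num) hn
  have hb := pL_bound hn
  have hL : 1 ≤ pL n := Nat.succ_pos _
  have hL2 : 1 ≤ pL n ^ 2 := Nat.one_le_pow _ _ hL
  have hl : 1 ≤ pl n := Nat.succ_pos _
  obtain ⟨h1, h2⟩ := pN_bound (n := n) (by omega)
  have hg : 1 ≤ pg n := by
    unfold pg
    have := Nat.one_le_pow 6 _ hL
    omega
  refine ⟨h1, ?_, ?_, ?_, hg, ?_⟩
  · have h3 : (n : ℝ) ≤ 2 * (pN n * (pL n : ℝ) ^ 2) := by exact_mod_cast h2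
    have h4 := logb_le h0
    have hn0 : (0 : ℝ) ≤ n := Nat.cast_nonneg n
    have hLr : (0 : ℝ) ≤ pL n := Nat.cast_nonneg _
    have h5 : 2 * ((n : ℝ) ^ 2 * Real.logb 2 n) ≤ 2 * ((n : ℝ) ^ 2 * pL n) := by gcongr
    have h6 : 2 * ((n : ℝ) ^ 2 * pL n) = 2 * (n * pL n) * n := by ring
    have h7 : 2 * ((n : ℝ) * pL n) * n ≤
        2 * ((n : ℝ) * pL n) * (2 * (pN n * (pL n : ℝ) ^ 2)) := by gcongr
    calc 2 * ((n : ℝ) ^ 2 * Real.logb 2 n) ≤ 2 * ((n : ℝ) ^ 2 * pL n) := h5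
      _ = 2 * (n * pL n) * n := h6
      _ ≤ 2 * ((n : ℝ) * pL n) * (2 * (pN n * (pL n : ℝ) ^ 2)) := h7
      _ = pN n * (4 * n * (pL n : ℝ) ^ 3) := by ring
  · unfold pd
    have h3 : pl n ^ 2 ≤ pL n ^ 2 := Nat.pow_le_pow_left (pl_le n) 2
    omega
  · unfold pq
    omega
  · unfold pd
    have := Nat.one_le_pow 2 _ hl
    omega

end Pool.Agent.NRC
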