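import Pool.Agent.NRC.Targets

/-!
# NRC: NX, the number of exceptions
-/

set_option autoImplicit false

open Finset Classical

namespace Pool.Agent.NRC

namespace NX_

theorem two_pow_ge (m : ℕ) (hm : 24 ≤ m) : 20000 * (m + 1) ^ 2 ≤ 2 ^ m := by
  induction m, hm using Nat.le_induction with
  | base => norm_num
  | succ m hm ih =>
    have h : 20000 * (m + 1 + 1) ^ 2 ≤ 2 * (20000 * (m + 1) ^ 2) := by nlinarith
    calc 20000 * (m + 1 + 1) ^ 2 ≤ 2 * (20000 * (m + 1) ^ 2) := h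
      _ ≤ 2 * 2 ^ m := Nat.mul_le_mul_left _ ih
      _ = 2 ^ (m + 1) := by ring

theorem pl_le (n : ℕ) : pl n ≤ pL n := by
  unfold pl
  have h : 1 ≤ pL n := by unfold pL; omega
  exact Nat.log_lt_self 2 (by omega)

theorem pd_le (n : ℕ) (hn : 2 ^ 24 ≤ n) : pd n ≤ n := by
  have h0 : n ≠ 0 := by
    rintro rfl
    norm_num at hn
  have h1 : 24 ≤ Nat.log 2 n := Nat.le_log_of_pow_le (by norm_num) hn
  have h2 := two_pow_ge (Nat.log 2 n) h1
  have h3 : 2 ^ Nat.log 2 n ≤ n := Nat.pow_log_le_self 2 h0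
  have h4 : pl n ≤ Nat.log 2 n + 1 := pl_le n
  unfold pd
  calc 20000 * pl n ^ 2 ≤ 20000 * (Nat.log 2 n + 1) ^ 2 :=
        Nat.mul_le_mul_left _ (Nat.pow_le_pow_left h4 2)
    _ ≤ n := h2.trans h3

theorem one_le_pl (n : ℕ) : 1 ≤ pl n := by unfold pl; omega

theorem one_le_pL (n : ℕ) : 1 ≤ pL n := by unfold pL; omega

theorem pL_lt (n : ℕ) : pL n < 2 ^ pl n := by
  unfold pl
  exact Nat.lt_pow_succ_log_self (by norm_num) _

theorem pk_ge (n : ℕ) (hn : pd n ≤ n) : n ≤ 600 * pl n * pk n := by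
  have hl := one_le_pl n
  have h1 : 300 * pl n ≤ n := by
    refine le_trans ?_ hn
    unfold pd
    nlinarith
  have h2 : 1 ≤ pk n := by
    unfold pk
    exact Nat.div_pos h1 (by omega)
  have h3 : n < 300 * pl n * (pk n + 1) := by
    unfold pk
    exact Nat.lt_mul_div_succ n (by omega)
  nlinarith

theorem exp_ge : (2 : ℝ) ^ 21 ≤ Real.exp 16 := by
  have h1 : (2.7 : ℝ) ≤ Real.exp 1 := by
    have := Real.exp_one_gt_d9
    linarith
  have h2 : Real.exp 16 = Real.exp 1 ^ 16 := by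
    rw [← Real.exp_nat_mul]
    norm_num
  rw [h2]
  calc (2 : ℝ) ^ 21 ≤ 2.7 ^ 16 := by norm_num
    _ ≤ _ := pow_le_pow_left₀ (by norm_num) h1 16

theorem exp_ge' (l : ℕ) : ((2 : ℝ) ^ l) ^ 21 ≤ Real.exp (16 * l) := by
  rw [mul_comm (16 : ℝ), Real.exp_nat_mul, ← pow_mul, mul_comm l, pow_mul]
  exact pow_le_pow_left₀ (by norm_num) exp_ge l

end NX_

open NX_ in
theorem p_NX : T_NX := by
  refine ⟨2 ^ 24, fun n hn => ?_⟩
  have hd := pd_le n hn
  have hk := pk_ge n hd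
  have hl := one_le_pl n
  have hL := one_le_pL n
  have hLl := pL_lt n
  have hn0 : (0 : ℝ) < n := by
    have : 0 < n := by
      have := hl
      unfold pd at hd
      nlinarith
    exact_mod_cast this
  have hdR : (pd n : ℝ) ≤ n := by exact_mod_cast hd
  have hkR : (n : ℝ) ≤ 600 * pl n * pk n := by exact_mod_cast hk
  have hlR : (1 : ℝ) ≤ pl n := by exact_mod_cast hl
  have hLR : (1 : ℝ) ≤ pL n := by exact_mod_cast hL
  have hLlR : (pL n : ℝ) ≤ 2 ^ pl n := by exact_mod_cast hLl.le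
  have hpd : (pd n : ℝ) = 20000 * (pl n : ℝ) ^ 2 := by
    unfold pd
    push_cast
    ring
  have hpg : (pg n : ℝ) = 4 * (pL n : ℝ) ^ 6 := by
    unfold pg
    push_cast
    ring
  have hpq : (pq n : ℝ) = 32 * (pL n : ℝ) ^ 6 := by
    unfold pq
    push_cast
    rw [hpg]
    ring
  -- the first factor
  have h1 : 1 + (pq n : ℝ) + (pg n : ℝ) * (2 * (pg n : ℝ)) ≤ 65 * (pL n : ℝ) ^ 12 := by
    rw [hpg, hpq]
    have k1 : (1 : ℝ) ≤ (pL n : ℝ) ^ 6 := one_le_pow₀ hLR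
    nlinarith
  -- the power
  have h2 : (1 - (pd n : ℝ) / (2 * n)) ^ (pk n) ≤ Real.exp (-(16 * pl n)) := by
    have k1 : (0 : ℝ) ≤ 1 - (pd n : ℝ) / (2 * n) := by
      have : (pd n : ℝ) / (2 * n) ≤ 1 := by
        rw [div_le_one (by positivity)]
        linarith
      linarith
    have k2 := pow_le_pow_left₀ k1 (Real.one_sub_le_exp_neg ((pd n : ℝ) / (2 * n))) (pk n)
    refine k2.trans ?_
    rw [← Real.exp_nat_mul]
    refine Real.exp_le_exp.2 ?_
    have k3 : 16 * (pl n : ℝ) ≤ (pk n : ℝ) * ((pd n : ℝ) / (2 * n)) := by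
      rw [hpd, ← mul_div_assoc, le_div_iff₀ (by positivity)]
      have k4 : (0 : ℝ) ≤ (pl n : ℝ) ^ 2 * pk n := by positivity
      have k5 := mul_le_mul_of_nonneg_left hkR (show (0 : ℝ) ≤ 32 * pl n by positivity)
      nlinarith
    linarith
  -- the powers of `L`
  have h3 : 65 * (pL n : ℝ) ^ 14 ≤ Real.exp (16 * pl n) := by
    refine le_trans ?_ (exp_ge' (pl n))
    have k1 : (65 : ℝ) ≤ ((2 : ℝ) ^ pl n) ^ 7 := by
      have k2 : (2 : ℝ) ^ 1 ≤ 2 ^ pl n := pow_le_pow_right₀ (by norm_num) hl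
      calc (65 : ℝ) ≤ (2 ^ 1) ^ 7 := by norm_num
        _ ≤ _ := pow_le_pow_left₀ (by norm_num) k2 7
    calc 65 * (pL n : ℝ) ^ 14 ≤ ((2 : ℝ) ^ pl n) ^ 7 * ((2 : ℝ) ^ pl n) ^ 14 :=
          mul_le_mul k1 (pow_le_pow_left₀ (by positivity) hLlR 14) (by positivity)
            (by positivity)
      _ = ((2 : ℝ) ^ pl n) ^ 21 := by ring
  have k1 : (0 : ℝ) ≤ 1 - (pd n : ℝ) / (2 * n) := by
    have : (pd n : ℝ) / (2 * n) ≤ 1 := by
      rw [div_le_one (by positivity)]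
      linarith
    linarith
  calc ((n : ℝ) * (1 + (pq n : ℝ) + (pg n : ℝ) * (2 * (pg n : ℝ)))) *
        (1 - (pd n : ℝ) / (2 * n)) ^ (pk n) * (pL n : ℝ) ^ 2
      ≤ ((n : ℝ) * (65 * (pL n : ℝ) ^ 12)) * Real.exp (-(16 * pl n)) * (pL n : ℝ) ^ 2 := by
        refine mul_le_mul_of_nonneg_right ?_ (by positivity)
        exact mul_le_mul (mul_le_mul_of_nonneg_left h1 hn0.le) h2 (pow_nonneg k1 _)
          (by positivity)
    _ = (n : ℝ) * (65 * (pL n : ℝ) ^ 14 * Real.exp (-(16 * pl n))) := by ring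
    _ ≤ (n : ℝ) * (Real.exp (16 * pl n) * Real.exp (-(16 * pl n))) := by
        refine mul_le_mul_of_nonneg_left ?_ hn0.le
        exact mul_le_mul_of_nonneg_right h3 (Real.exp_pos _).le
    _ = n := by
        rw [← Real.exp_add, add_neg_cancel, Real.exp_zero, mul_one]

end Pool.Agent.NRC
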