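import Pool.Agent.NRC.Targets

/-!
# NRC-ONE: one graph, one net (assembly)
-/

set_option autoImplicit false

open Finset Classical

namespace Pool.Agent.NRC

open Pool.Agent.Lib.Recon Pool.Agent.RNB

theorem p_ONE (h_STR : T_STR) (h_EMC : T_EMC) (h_NPA : T_NPA) (h_NX : T_NX) (h_NB : T_NB)
    (h_NF : T_NF) (h_RMS : T_RMS) : T_ONE := by
  obtain ⟨n1, h1⟩ := h_NPA
  obtain ⟨n2, h2⟩ := h_NX
  obtain ⟨n3, h3⟩ := h_NB
  obtain ⟨n4, h4⟩ := h_NF
  refine ⟨n1 + n2 + n3 + n4 + 1, fun V _ G H hn hc hni hd A hA hs => ?_⟩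
  by_contra hno
  have hno' : ∀ v, ¬ Gd G (pg (Fintype.card V)) (pM (Fintype.card V)) A v :=
    fun v hv => hno ⟨v, hv⟩
  apply hni
  obtain ⟨-, -, hN3, hN4, hN5, hN6⟩ := h1 (Fintype.card V) (by omega)
  obtain ⟨B, T, e, e1, e2, x, c, hD, hB, hT, hBc, he, he1, he2, hc', hx⟩ :=
    h_STR V G (pg (Fintype.card V)) (pq (Fintype.card V)) (pg (Fintype.card V))
      (pd (Fintype.card V)) (pM (Fintype.card V)) (pk (Fintype.card V)) A (by omega) hN5 hN4 hN6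
      hN3 hd hno'
  have hxx : (x : ℝ) * (pL (Fintype.card V) : ℝ) ^ 2 ≤ (Fintype.card V : ℝ) :=
    (mul_le_mul_of_nonneg_right hx (by positivity)).trans (h2 (Fintype.card V) (by omega))
  have hec : (pg (Fintype.card V) : ℝ) * e ≤
      4 * (Fintype.card V : ℝ) * (pL (Fintype.card V) : ℝ) ^ 3 := by
    have h5 : ((pg (Fintype.card V) * e : ℕ) : ℝ) ≤ (sm G A : ℝ) := Nat.cast_le.2 he
    rw [Nat.cast_mul] at h5
    exact h5.trans hs
  have hec1 : (pg (Fintype.card V) : ℝ) * e1 ≤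
      4 * (Fintype.card V : ℝ) * (pL (Fintype.card V) : ℝ) ^ 3 := by
    have h5 : ((pg (Fintype.card V) * e1 : ℕ) : ℝ) ≤ (sm G A : ℝ) := Nat.cast_le.2 he1
    rw [Nat.cast_mul] at h5
    exact h5.trans hs
  obtain ⟨hb, ht, ht32⟩ := h3 (Fintype.card V) (by omega) A.card e e1 e2 x c B.card T.card hA hec
    hec1 he2 hc' hxx hBc hT
  have hF := h4 (Fintype.card V) (by omega) B.card T.card hb ht ht32
  have hq : 1 ≤ pq (Fintype.card V) := by omega
  have hE := h_EMC V G (pq (Fintype.card V)) B T hq hB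
  refine h_RMS V G H T hc hD (lt_of_le_of_lt ?_ hF)
  exact Nat.pow_le_pow_left (Nat.mul_le_mul_left 2 hE) 2

end Pool.Agent.NRC
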