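import Pool.Agent.NRC.Targets

/-!
# NRC, POL: polynomially many reconstructions if all differences are large (helper39)
-/

set_option autoImplicit false

open Finset Classical

namespace Pool.Agent.NRC

open Pool.Agent.Lib.Recon Pool.Agent.RNB Pool.Agent.RNum

/-- POL: if any two vertices are distinguished by at least `C (log log n)^2` others then there are
at most `n ^ C` reconstructions. -/
def T_POL : Prop := ∃ C : ℝ, 0 < C ∧ ∀ (V ι : Type) [Fintype V] [Fintype ι]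
  (G : SimpleGraph V) (H : ι → SimpleGraph V), 3 ≤ Fintype.card V →
  (∀ i v, CardIso G (H i) v v) →
  (∀ i j, i ≠ j → ¬ ∃ α : V ≃ V, ∀ x y, (H i).Adj x y ↔ (H j).Adj (α x) (α y)) →
  (∀ u v, u ≠ v → C * Real.logb 2 (Real.logb 2 (Fintype.card V)) ^ 2 ≤
    ((dset G u v).card : ℝ)) →
  (Fintype.card ι : ℝ) ≤ (Fintype.card V : ℝ) ^ C

namespace POL_

theorem logb_ge {n : ℕ} (hn : 3 ≤ n) : (3 / 2 : ℝ) ≤ Real.logb 2 n := by
  have hnR : (3 : ℝ) ≤ n := by exact_mod_cast hn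
  rw [Real.le_logb_iff_rpow_le (by norm_num) (by linarith)]
  have h1 : ((2 : ℝ) ^ (3 / 2 : ℝ)) ^ 2 = 8 := by
    rw [← Real.rpow_natCast, ← Real.rpow_mul (by norm_num)]
    norm_num
  nlinarith [Real.rpow_pos_of_pos (show (0 : ℝ) < 2 by norm_num) (3 / 2)]

theorem ll_ge {n : ℕ} (hn : 3 ≤ n) : (1 / 2 : ℝ) ≤ Real.logb 2 (Real.logb 2 n) := by
  have h := logb_ge hn
  rw [Real.le_logb_iff_rpow_le (by norm_num) (by linarith)]
  have h1 : ((2 : ℝ) ^ (1 / 2 : ℝ)) ^ 2 = 2 := by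
    rw [← Real.rpow_natCast, ← Real.rpow_mul (by norm_num)]
    norm_num
  nlinarith [Real.rpow_pos_of_pos (show (0 : ℝ) < 2 by norm_num) (1 / 2)]

theorem pL_le {n : ℕ} (hn : 3 ≤ n) : (pL n : ℝ) ≤ 2 * Real.logb 2 n := by
  have h := logb_ge hn
  have h1 : (Nat.log 2 n : ℝ) ≤ Real.logb 2 n := Real.natLog_le_logb _ _
  unfold pL
  push_cast
  linarith

theorem pl_le {n : ℕ} (hn : 3 ≤ n) : (pl n : ℝ) ≤ 5 * Real.logb 2 (Real.logb 2 n) := by
  have h := logb_ge hn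
  have h0 := ll_ge hn
  have h1 : (Nat.log 2 (pL n) : ℝ) ≤ Real.logb 2 (pL n) := Real.natLog_le_logb _ _
  have h2 : (0 : ℝ) < pL n := by
    unfold pL
    positivity
  have h3 : Real.logb 2 (pL n) ≤ Real.logb 2 (2 * Real.logb 2 n) :=
    Real.logb_le_logb_of_le (by norm_num) h2 (pL_le hn)
  rw [Real.logb_mul (by norm_num) (by linarith), Real.logb_self_eq_one (by norm_num)] at h3
  unfold pl
  push_cast
  linarith

theorem pd_le {n : ℕ} (hn : 3 ≤ n) :
    (pd n : ℝ) ≤ 500000 * Real.logb 2 (Real.logb 2 n) ^ 2 := by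
  have h := pl_le hn
  have h0 : (0 : ℝ) ≤ pl n := by positivity
  unfold pd
  push_cast
  nlinarith

theorem two_pow_le {n : ℕ} (hn : 3 ≤ n) : 2 ^ pM n ≤ n ^ 200 := by
  have h1 : 2 ^ Nat.log 2 n ≤ n := Nat.pow_log_le_self 2 (by omega)
  have h2 : 2 ^ pL n ≤ n ^ 2 := by
    unfold pL
    rw [pow_succ, sq]
    exact Nat.mul_le_mul h1 (by omega)
  calc 2 ^ pM n = (2 ^ pL n) ^ 100 := by
        unfold pM
        rw [mul_comm, pow_mul]
    _ ≤ (n ^ 2) ^ 100 := Nat.pow_le_pow_left h2 _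
    _ = n ^ 200 := by rw [← pow_mul]

theorem fin_le {n : ℕ} (hn : 3 ≤ n) : 4 * n ^ 4 * 2 ^ (pM n) ≤ n ^ 206 := by
  have h1 := two_pow_le hn
  generalize 2 ^ (pM n) = a at h1 ⊢
  have h2 : 4 ≤ n ^ 2 := by nlinarith
  have h3 : 4 * n ^ 4 ≤ n ^ 2 * n ^ 4 := Nat.mul_le_mul_right _ h2
  have h4 : 4 * n ^ 4 * a ≤ n ^ 2 * n ^ 4 * n ^ 200 := Nat.mul_le_mul h3 h1
  have h5 : n ^ 2 * n ^ 4 * n ^ 200 = n ^ 206 := by rw [← pow_add, ← pow_add]
  rw [← h5]
  exact h4

end POL_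

theorem p_POL (h_HLF : T_HLF) (h_AVG : T_AVG) (h_NPA : T_NPA) : T_POL := by
  obtain ⟨n1, h1⟩ := h_HLF
  obtain ⟨n2, h2⟩ := h_NPA
  refine ⟨500000 + 4 * (n1 + n2 + 1), by positivity, ?_⟩
  intro V ι _ _ G H hn hyp hne hd
  set n := Fintype.card V with hndef
  set C : ℝ := 500000 + 4 * (n1 + n2 + 1) with hC
  have hnR : (3 : ℝ) ≤ n := by exact_mod_cast hn
  have hx := POL_.ll_ge hn
  have hCpos : 500000 ≤ C := by
    rw [hC]
    have h3 : (0 : ℝ) ≤ n1 := by positivity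
    have h4 : (0 : ℝ) ≤ n2 := by positivity
    linarith
  have hx2 : (1 / 4 : ℝ) ≤ Real.logb 2 (Real.logb 2 n) ^ 2 := by nlinarith
  -- `n` is large
  have hlarge : n1 + n2 + 1 ≤ n := by
    obtain ⟨u, v, huv⟩ : ∃ u v : V, u ≠ v := by
      have : 1 < Fintype.card V := by omega
      exact Fintype.one_lt_card_iff.1 this
    have h3 := hd u v huv
    have h4 : ((dset G u v).card : ℝ) ≤ n := by
      exact_mod_cast Finset.card_le_univ _
    have h5 : ((n1 + n2 + 1 : ℕ) : ℝ) ≤ C * Real.logb 2 (Real.logb 2 n) ^ 2 := by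
      have h6 : ((n1 + n2 + 1 : ℕ) : ℝ) ≤ C * (1 / 4) := by
        rw [hC]
        push_cast
        linarith
      exact h6.trans (mul_le_mul_of_nonneg_left hx2 (by linarith))
    exact_mod_cast (h5.trans h3).trans h4
  have hn1 : n1 ≤ n := by omega
  have hn2 : n2 ≤ n := by omega
  obtain ⟨hN, -, -, -, -, hpd⟩ := h2 n hn2
  by_cases hcard : Fintype.card ι ≤ 1
  · have h3 : (Fintype.card ι : ℝ) ≤ 1 := by exact_mod_cast hcard
    exact h3.trans (Real.one_le_rpow (by linarith) (by linarith))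
  have hall : ∀ i, ∀ u v, u ≠ v → pd n ≤ (dset (H i) u v).card := by
    intro i u v huv
    by_contra hlt
    push Not at hlt
    have hpd2 : 2 ≤ pd n := by
      unfold pd pl
      have : 1 ≤ (Nat.log 2 (pL n) + 1) ^ 2 := Nat.one_le_pow _ _ (by omega)
      omega
    obtain ⟨u', v', huv', h3⟩ := near_transfer (H i) G hn (pd n - 1) (by omega)
      (fun w => (hyp i w).symm) u v huv (by omega)
    have h4 := hd u' v' huv'
    have h5 := POL_.pd_le hn
    have h6 : (500000 : ℝ) * Real.logb 2 (Real.logb 2 n) ^ 2 ≤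
        C * Real.logb 2 (Real.logb 2 n) ^ 2 :=
      mul_le_mul_of_nonneg_right hCpos (by positivity)
    have h7 : (pd n : ℝ) ≤ ((dset G u' v').card : ℝ) := (h5.trans h6).trans h4
    have h8 : pd n ≤ (dset G u' v').card := by exact_mod_cast h7
    omega
  have hmain : Fintype.card ι ≤ 4 * n ^ 4 * 2 ^ (pM n) := by
    refine h_AVG V ι G H (pN n) (pg n) (pM n) hN (by omega) hyp hne fun i => ?_
    have hnt : Nontrivial ι := Fintype.one_lt_card_iff_nontrivial.1 (by omega)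
    obtain ⟨j, hj⟩ := exists_ne i
    exact h1 V (H i) (H j) hn1 (fun v => CardIso_trans (hyp i v).symm (hyp j v))
      (hne i j hj.symm) (hall i)
  have h3 : 4 * n ^ 4 * 2 ^ (pM n) ≤ n ^ 206 := POL_.fin_le hn
  have h4 : (Fintype.card ι : ℝ) ≤ (n : ℝ) ^ (206 : ℕ) := by
    exact_mod_cast hmain.trans h3
  refine h4.trans ?_
  rw [← Real.rpow_natCast]
  exact Real.rpow_le_rpow_of_exponent_le (by linarith) (by push_cast; linarith)

end Pool.Agent.NRC
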