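import Pool.Agent.NRC.Targets

/-!
# NRC, block ROO: roots of the large components
-/

set_option autoImplicit false

open Finset Classical

namespace Pool.Agent.NRC

open Pool.Agent.Lib.Recon Pool.Agent.RNB

namespace ROO_

theorem roots {V : Type} [Fintype V] (M : ℕ) (P : Finset V) (C : V → Finset V)
    (h1 : ∀ y ∈ P, y ∈ C y) (h2 : ∀ y ∈ P, C y ⊆ P) (h3 : ∀ y ∈ P, ∀ z ∈ C y, C z = C y) :
    ∃ Q ⊆ P, M * Q.card ≤ Fintype.card V ∧
      ∀ y ∈ P, M < (C y).card → ∃ r ∈ Q, r ∈ C y := by
  by_cases hV : Nonempty V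
  swap
  · refine ⟨∅, empty_subset _, by simp, fun y => (hV ⟨y⟩).elim⟩
  set F : Finset V → V := fun S => if h : S.Nonempty then h.choose else hV.some with hF
  have hFm : ∀ S : Finset V, S.Nonempty → F S ∈ S := by
    intro S hS
    rw [hF]
    simp only [dif_pos hS]
    exact hS.choose_spec
  set s : Finset V := P.filter (fun y => M < (C y).card) with hs
  have hr : ∀ y ∈ s, F (C y) ∈ C y := fun y hy =>
    hFm _ ⟨y, h1 y (mem_filter.1 hy).1⟩
  refine ⟨s.image (fun y => F (C y)), ?_, ?_, ?_⟩
  · intro r hr'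
    obtain ⟨y, hy, rfl⟩ := mem_image.1 hr'
    exact h2 y (mem_filter.1 hy).1 (hr y hy)
  · have hQ : ∀ r ∈ s.image (fun y => F (C y)), F (C r) = r ∧ M < (C r).card ∧ r ∈ P := by
      intro r hr'
      obtain ⟨y, hy, rfl⟩ := mem_image.1 hr'
      have h4 := h3 y (mem_filter.1 hy).1 _ (hr y hy)
      refine ⟨?_, ?_, h2 y (mem_filter.1 hy).1 (hr y hy)⟩
      · rw [h4]
      · rw [h4]
        exact (mem_filter.1 hy).2
    have hdis : ∀ r ∈ s.image (fun y => F (C y)), ∀ r' ∈ s.image (fun y => F (C y)),
        r ≠ r' → Disjoint (C r) (C r') := by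
      intro r hr1 r' hr2 hne
      rw [Finset.disjoint_left]
      intro a ha ha'
      apply hne
      have h5 := h3 r (hQ r hr1).2.2 a ha
      have h6 := h3 r' (hQ r' hr2).2.2 a ha'
      rw [← (hQ r hr1).1, ← (hQ r' hr2).1, ← h5, ← h6]
    calc M * (s.image (fun y => F (C y))).card
        = ∑ _r ∈ s.image (fun y => F (C y)), M := by
          rw [sum_const, smul_eq_mul, mul_comm]
      _ ≤ ∑ r ∈ s.image (fun y => F (C y)), (C r).card :=
          sum_le_sum fun r hr' => (hQ r hr').2.1.le
      _ = ((s.image (fun y => F (C y))).biUnion C).card := by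
          rw [card_biUnion hdis]
      _ ≤ Fintype.card V := card_le_univ _
  · intro y hy hM
    have hys : y ∈ s := mem_filter.2 ⟨hy, hM⟩
    exact ⟨F (C y), mem_image_of_mem _ hys, hr y hys⟩

end ROO_

open ROO_ in
/-- **ROO**: roots of the large components -/
theorem p_ROO : T_ROO := by
  intro V _ G g M A P hsym
  have hP : ∀ y ∈ P, ∀ z, Relation.ReflTransGen (St G g A P) y z → z ∈ P := by
    intro y hy z hz
    induction hz with
    | refl => exact hy
    | tail _ h _ => exact h.1
  have hrev : ∀ y ∈ P, ∀ z, Relation.ReflTransGen (St G g A P) y z →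
      Relation.ReflTransGen (St G g A P) z y := by
    intro y hy z hz
    induction hz with
    | refl => exact Relation.ReflTransGen.refl
    | tail h1 h2 ih =>
      rename_i b c
      have hb : b ∈ P := hP y hy b h1
      exact Relation.ReflTransGen.head ⟨hb, hsym b hb c h2.1 h2.2⟩ ih
  refine roots M P (CO G g A P) ?_ ?_ ?_
  · intro y _
    unfold CO
    exact mem_filter.2 ⟨mem_univ _, Relation.ReflTransGen.refl⟩
  · intro y hy z hz
    unfold CO at hz
    exact hP y hy z (mem_filter.1 hz).2
  · intro y hy z hz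
    unfold CO at hz
    have h1 := (mem_filter.1 hz).2
    have h2 := hrev y hy z h1
    ext a
    unfold CO
    simp only [mem_filter, mem_univ, true_and]
    exact ⟨fun h => h1.trans h, fun h => h2.trans h⟩

end Pool.Agent.NRC
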