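import Pool.Agent.NRC.Targets

/-!
# NRC, target RSQ: random sequences, average number of halvings
-/

set_option autoImplicit false

open Finset Classical

namespace Pool.Agent.NRC

open Pool.Agent.Lib.Recon Pool.Agent.RNB

namespace RSQ_

variable {V : Type} [Fintype V]

theorem bi_zero {N : ℕ} (x : Fin N → V) : Bi ∅ x 0 = ∅ := by
  unfold Bi
  ext v
  simp

theorem bi_succ {N : ℕ} (x : Fin N → V) {i : ℕ} (hi : i < N) :
    Bi ∅ x (i + 1) = insert (x ⟨i, hi⟩) (Bi ∅ x i) := by
  unfold Bi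
  ext v
  simp only [Finset.empty_union, Finset.mem_image, Finset.mem_filter, Finset.mem_univ, true_and,
    Finset.mem_insert]
  constructor
  · rintro ⟨j, hj, rfl⟩
    rcases Nat.lt_succ_iff_lt_or_eq.1 hj with h | h
    · exact Or.inr ⟨j, h, rfl⟩
    · left
      congr 1
      exact Fin.ext h
  · rintro (h | ⟨j, hj, h⟩)
    · exact ⟨⟨i, hi⟩, Nat.lt_succ_self i, h.symm⟩
    · exact ⟨j, Nat.lt_succ_of_lt hj, h⟩

theorem bi_update {N : ℕ} (x : Fin N → V) (i : Fin N) (u : V) :
    Bi ∅ (Function.update x i u) i = Bi ∅ x i := by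
  unfold Bi
  congr 1
  apply Finset.image_congr
  intro j hj
  have h1 : (j : ℕ) < i := by simpa using hj
  have h2 : j ≠ i := fun h => by
    rw [h] at h1
    exact lt_irrefl _ h1
  exact Function.update_of_ne h2 u x

/-- the number of vertices whose class is halved by `v`, if `v` is new -/
noncomputable def hh (G : SimpleGraph V) (A : Finset V) (v : V) : ℝ :=
  if v ∉ A then ((SS G A v).card : ℝ) else 0

theorem sum_hh (G : SimpleGraph V) (A : Finset V) : ∑ v, hh G A v = (sm G A : ℝ) := by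
  unfold hh sm
  rw [← Finset.sum_filter]
  push_cast
  rfl

theorem step_hh (G : SimpleGraph V) (A : Finset V) (z : V) :
    NET_.Phi G (insert z A) + hh G A z ≤ NET_.Phi G A := by
  unfold hh
  by_cases h : z ∉ A
  · rw [if_pos h]
    exact NET_.step G A z h
  · rw [if_neg h, add_zero, Finset.insert_eq_of_mem (not_not.1 h)]

theorem tele (G : SimpleGraph V) {N : ℕ} (x : Fin N → V) :
    ∑ i : Fin N, hh G (Bi ∅ x i) (x i) ≤ NET_.Phi G ∅ := by
  set g : ℕ → ℝ := fun i => if hi : i < N then hh G (Bi ∅ x i) (x ⟨i, hi⟩) else 0 with hg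
  have h1 : ∑ i : Fin N, hh G (Bi ∅ x i) (x i) = ∑ i ∈ range N, g i := by
    rw [Finset.sum_range]
    refine Finset.sum_congr rfl fun i _ => ?_
    rw [hg]
    simp only [i.2, dif_pos]
  have h2 : ∀ k ≤ N, NET_.Phi G (Bi ∅ x k) + ∑ i ∈ range k, g i ≤ NET_.Phi G ∅ := by
    intro k
    induction k with
    | zero =>
      intro _
      rw [bi_zero, Finset.sum_range_zero, add_zero]
    | succ k ih =>
      intro hk
      have h3 := ih (Nat.le_of_succ_le hk)
      have hkN : k < N := hk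
      have h4 := step_hh G (Bi ∅ x k) (x ⟨k, hkN⟩)
      rw [← bi_succ x hkN] at h4
      have h5 : g k = hh G (Bi ∅ x k) (x ⟨k, hkN⟩) := by
        rw [hg]
        simp only [hkN, dif_pos]
      rw [Finset.sum_range_succ, h5]
      linarith
  rw [h1]
  have h6 := h2 N le_rfl
  have h7 := NET_.phi_nonneg G (Bi ∅ x N)
  linarith

end RSQ_

open RSQ_ in
theorem p_RSQ : T_RSQ := by
  intro V _ G N B hB hN
  have hres : ∀ i : Fin N, (Fintype.card V : ℝ) * ∑ x : Fin N → V, hh G (Bi ∅ x i) (x i) =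
      ∑ x : Fin N → V, (sm G (Bi ∅ x i) : ℝ) := by
    intro i
    rw [p_RES V N i (fun x v => hh G (Bi ∅ x i) v) (fun x u v => by
      simp only [bi_update x i u]), Finset.sum_comm]
    exact Finset.sum_congr rfl fun x _ => sum_hh G _
  have htot : ∑ p : Fin N × (Fin N → V), (sm G (Bi ∅ p.2 p.1) : ℝ) ≤
      (Fintype.card V : ℝ) ^ N * (N * B / 2) := by
    rw [Fintype.sum_prod_type]
    have h1 : ∑ i : Fin N, ∑ x : Fin N → V, (sm G (Bi ∅ x i) : ℝ) =
        (Fintype.card V : ℝ) * ∑ x : Fin N → V, ∑ i : Fin N, hh G (Bi ∅ x i) (x i) := by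
      rw [Finset.sum_comm (s := (univ : Finset (Fin N → V))), Finset.mul_sum]
      exact Finset.sum_congr rfl fun i _ => (hres i).symm
    have h2 : ∑ x : Fin N → V, ∑ i : Fin N, hh G (Bi ∅ x i) (x i) ≤
        (Fintype.card V : ℝ) ^ N * NET_.Phi G ∅ := by
      calc ∑ x : Fin N → V, ∑ i : Fin N, hh G (Bi ∅ x i) (x i)
          ≤ ∑ _x : Fin N → V, NET_.Phi G ∅ := Finset.sum_le_sum fun x _ => tele G x
        _ = (Fintype.card V : ℝ) ^ N * NET_.Phi G ∅ := by
            rw [Finset.sum_const, Finset.card_univ, nsmul_eq_mul, Fintype.card_fun,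
              Fintype.card_fin]
            push_cast
            rfl
    rw [NET_.phi_empty] at h2
    have h3 : (0 : ℝ) ≤ (Fintype.card V : ℝ) := Nat.cast_nonneg _
    have h4 : (0 : ℝ) ≤ (Fintype.card V : ℝ) ^ N := pow_nonneg h3 N
    refine (le_of_eq h1).trans ((mul_le_mul_of_nonneg_left h2 h3).trans ?_)
    have h5 : (Fintype.card V : ℝ) ^ 2 * Real.logb 2 (Fintype.card V) ≤ N * B / 2 := by linarith
    have h6 := mul_le_mul_of_nonneg_left h5 h4
    refine le_trans (le_of_eq ?_) h6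
    ring
  set S : Finset (Fin N × (Fin N → V)) :=
    univ.filter (fun p => (sm G (Bi ∅ p.2 p.1) : ℝ) ≤ B) with hS
  set T : Finset (Fin N × (Fin N → V)) :=
    univ.filter (fun p => ¬ (sm G (Bi ∅ p.2 p.1) : ℝ) ≤ B) with hT
  have hcard : (S.card : ℝ) + T.card = N * (Fintype.card V : ℝ) ^ N := by
    have h1 : S.card + T.card = Fintype.card (Fin N × (Fin N → V)) := by
      rw [hS, hT, Finset.card_filter_add_card_filter_not, Finset.card_univ]
    rw [Fintype.card_prod, Fintype.card_fun, Fintype.card_fin] at h1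
    exact_mod_cast h1
  have hmark : (T.card : ℝ) * B ≤ ∑ p : Fin N × (Fin N → V), (sm G (Bi ∅ p.2 p.1) : ℝ) := by
    calc (T.card : ℝ) * B = ∑ _p ∈ T, B := by rw [Finset.sum_const, nsmul_eq_mul]
      _ ≤ ∑ p ∈ T, (sm G (Bi ∅ p.2 p.1) : ℝ) := by
          refine Finset.sum_le_sum fun p hp => ?_
          rw [hT, Finset.mem_filter] at hp
          exact (not_le.1 hp.2).le
      _ ≤ _ := Finset.sum_le_sum_of_subset_of_nonneg (Finset.subset_univ _)
          fun p _ _ => Nat.cast_nonneg _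
  have h1 : (T.card : ℝ) * B ≤ ((Fintype.card V : ℝ) ^ N * N / 2) * B := by
    refine (hmark.trans htot).trans (le_of_eq ?_)
    ring
  have h2 : (T.card : ℝ) ≤ (Fintype.card V : ℝ) ^ N * N / 2 := le_of_mul_le_mul_right h1 hB
  linarith

end Pool.Agent.NRC
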