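import Pool.Agent.NRC.Targets
import Pool.Agent.Lib.Recon.Average

/-!
# NRC: SEL, choice of a random set
-/

set_option autoImplicit false

open Finset Classical

namespace Pool.Agent.NRC

open Pool.Agent.Lib.Recon Pool.Agent.RNB

namespace SEL_

variable {V : Type} [Fintype V]

theorem fib (G : SimpleGraph V) (g q h d : ℕ) (A : Finset V) (v : V) :
    (univ.filter (fun u => Pr G g q h d A u v)).card ≤ q + h * (2 * g) := by
  set P : Finset V := if (cl G (A ∪ EE G g A) v).card ≤ q then cl G (A ∪ EE G g A) v else ∅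
    with hP
  set Q : Finset V := if v ∈ LL G g q h d A then
    (IN G (2 * g) A v).biUnion (fun z => cl G (insert z A) v) else ∅ with hQ
  have h1 : univ.filter (fun u => Pr G g q h d A u v) ⊆ P ∪ Q := by
    intro u hu
    rw [mem_filter] at hu
    obtain ⟨-, -, hu⟩ := hu
    rw [mem_union]
    rcases hu with ⟨-, h2, h3⟩ | ⟨h2, z, hz, h3⟩
    · left
      rw [hP, if_pos h2]
      exact h3
    · right
      rw [hQ, if_pos h2]
      exact mem_biUnion.mpr ⟨z, hz, h3⟩
  have h2 : P.card ≤ q := by
    rw [hP]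
    split_ifs with h
    · exact h
    · simp
  have h3 : Q.card ≤ h * (2 * g) := by
    rw [hQ]
    split_ifs with h4
    · have h5 : (IN G (2 * g) A v).card ≤ h := by
        unfold LL at h4
        rw [mem_filter] at h4
        exact h4.2.1
      refine (card_biUnion_le_card_mul _ _ (2 * g) ?_).trans (Nat.mul_le_mul_right _ h5)
      intro z hz
      unfold IN at hz
      rw [mem_filter] at hz
      exact hz.2.2.2
    · simp
  calc _ ≤ (P ∪ Q).card := card_le_card h1
    _ ≤ P.card + Q.card := card_union_le _ _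
    _ ≤ _ := add_le_add h2 h3

theorem cnt (G : SimpleGraph V) (g q h d : ℕ) (A : Finset V) :
    (univ.filter (fun p : V × V => Pr G g q h d A p.1 p.2)).card ≤
      Fintype.card V * (q + h * (2 * g)) := by
  have h1 : univ.filter (fun p : V × V => Pr G g q h d A p.1 p.2) ⊆
      univ.biUnion (fun v : V => (univ.filter (fun u => Pr G g q h d A u v)).image
        (fun u => (u, v))) := by
    rintro ⟨u, v⟩ hp
    rw [mem_filter] at hp
    rw [mem_biUnion]
    refine ⟨v, mem_univ _, ?_⟩
    rw [mem_image]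
    exact ⟨u, by rw [mem_filter]; exact ⟨mem_univ _, hp.2⟩, rfl⟩
  refine (card_le_card h1).trans ?_
  refine (card_biUnion_le_card_mul _ _ (q + h * (2 * g)) ?_).trans ?_
  · intro v _
    exact card_image_le.trans (fib G g q h d A v)
  · rw [card_univ]

end SEL_

/-- SEL. -/
theorem p_SEL : T_SEL := by
  intro V _ G g q h d k A hn hdn hds
  have hn0 : 0 < Fintype.card V := hn
  have hnR : (0 : ℝ) < Fintype.card V := by exact_mod_cast hn0
  have h1 : ∀ y ∈ LL G g q h d A, ((d : ℝ) / 2) ≤ ((IN G (2 * g) A y).card : ℝ) := by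
    intro y hy
    unfold LL at hy
    rw [mem_filter] at hy
    have h2 : (d : ℝ) ≤ 2 * ((IN G (2 * g) A y).card : ℝ) := by exact_mod_cast hy.2.2
    linarith
  have h2 : ∀ p ∈ univ.filter (fun p : V × V => Pr G g q h d A p.1 p.2),
      ((d : ℝ) / 2) ≤ ((dset G p.1 p.2).card : ℝ) := by
    intro p hp
    rw [mem_filter] at hp
    have h3 : (d : ℝ) ≤ ((dset G p.1 p.2).card : ℝ) := by
      exact_mod_cast hds p.1 p.2 hp.2.1
    have h4 : (0 : ℝ) ≤ d := Nat.cast_nonneg _
    linarith
  obtain ⟨a, ha⟩ := exists_seq k (LL G g q h d A) (fun y => IN G (2 * g) A y) ((d : ℝ) / 2) h1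
    (univ.filter (fun p : V × V => Pr G g q h d A p.1 p.2)) (fun p => dset G p.1 p.2)
    ((d : ℝ) / 2) h2 hn0
  refine ⟨univ.image a, ((LL G g q h d A).filter (fun y => ∀ j, a j ∉ IN G (2 * g) A y)) ∪
    (((univ.filter (fun p : V × V => Pr G g q h d A p.1 p.2)).filter
      (fun p => ∀ j, a j ∉ dset G p.1 p.2)).image Prod.fst), ?_, ?_, ?_, ?_⟩
  · exact card_image_le.trans (by simp)
  · have h3 : (d : ℝ) / 2 / Fintype.card V = (d : ℝ) / (2 * Fintype.card V) := by
      rw [div_div]
    rw [h3] at ha
    have h4 : (0 : ℝ) ≤ 1 - (d : ℝ) / (2 * Fintype.card V) := by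
      have h5 : (d : ℝ) ≤ Fintype.card V := by exact_mod_cast hdn
      have h6 : (d : ℝ) / (2 * Fintype.card V) ≤ 1 := by
        rw [div_le_one (by positivity)]
        linarith
      linarith
    have h5 : (0 : ℝ) ≤ (1 - (d : ℝ) / (2 * Fintype.card V)) ^ k := pow_nonneg h4 k
    have h6 : ((LL G g q h d A).card : ℝ) ≤ Fintype.card V := by
      exact_mod_cast card_le_univ _
    have h7 : ((univ.filter (fun p : V × V => Pr G g q h d A p.1 p.2)).card : ℝ) ≤
        Fintype.card V * (q + h * (2 * g)) := by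
      exact_mod_cast SEL_.cnt G g q h d A
    refine le_trans ?_ (ha.trans ?_)
    · rw [← Nat.cast_add]
      refine Nat.cast_le.mpr ?_
      exact (card_union_le _ _).trans (add_le_add le_rfl card_image_le)
    · rw [← add_mul]
      refine mul_le_mul_of_nonneg_right ?_ h5
      nlinarith
  · intro y hy hyX
    by_contra hc
    push Not at hc
    apply hyX
    rw [mem_union]
    left
    rw [mem_filter]
    exact ⟨hy, fun j => hc (a j) (mem_image_of_mem a (mem_univ j))⟩
  · intro u v huX hp
    by_contra hc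
    push Not at hc
    apply huX
    rw [mem_union]
    right
    rw [mem_image]
    refine ⟨(u, v), ?_, rfl⟩
    rw [mem_filter, mem_filter]
    exact ⟨⟨mem_univ _, hp⟩, fun j => hc (a j) (mem_image_of_mem a (mem_univ j))⟩

end Pool.Agent.NRC
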