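import Pool.Agent.NRC.Targets

set_option autoImplicit false

/-!
# NRC, target SML (helper66): sides are small or very small
-/

open Finset Classical

namespace Pool.Agent.NRC

open Pool.Agent.Lib.Recon Pool.Agent.RNB

namespace SML_

variable {V : Type} [Fintype V]

theorem mem_cl {G : SimpleGraph V} {B : Finset V} {v y : V} :
    y ∈ cl G B v ↔ y ∉ B ∧ ∀ b ∈ B, (G.Adj b v ↔ G.Adj b y) := by
  simp [cl]

theorem mem_side {G : SimpleGraph V} {A : Finset V} {z v y : V} :
    y ∈ cl G (insert z A) v ↔ y ∉ A ∧ y ≠ z ∧ (G.Adj z v ↔ G.Adj z y) ∧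
      ∀ b ∈ A, (G.Adj b v ↔ G.Adj b y) := by
  rw [mem_cl]
  constructor
  · rintro ⟨h1, h2⟩
    refine ⟨fun h => h1 (mem_insert_of_mem h), fun h => h1 (h ▸ mem_insert_self _ _),
      h2 z (mem_insert_self _ _), fun b hb => h2 b (mem_insert_of_mem hb)⟩
  · rintro ⟨h1, h2, h3, h4⟩
    refine ⟨fun h => ?_, fun b hb => ?_⟩
    · rcases mem_insert.1 h with h | h
      · exact h2 h
      · exact h1 h
    · rcases mem_insert.1 hb with rfl | hb
      · exact h3
      · exact h4 b hb

end SML_

open SML_ in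
theorem p_SML : T_SML := by
  intro V _ G g q A hq y hy z hz hzE
  by_contra hcon
  rw [not_le] at hcon
  rw [LA, mem_filter, mem_union, not_or] at hy
  obtain ⟨-, ⟨hyA, -⟩, hbig⟩ := hy
  rw [IN, mem_filter] at hz
  obtain ⟨-, hzA, hzy, hside⟩ := hz
  set O : Finset V := (cl G A y).filter (fun y' => y' ≠ z ∧ ¬ (G.Adj z y ↔ G.Adj z y')) with hO
  have hOg : O.card ≤ g := by
    by_contra hO1
    rw [not_le] at hO1
    obtain ⟨y', hy'⟩ : O.Nonempty := Finset.card_pos.1 (by omega)
    rw [hO, mem_filter] at hy'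
    have hsub : O ⊆ cl G (insert z A) y' := by
      intro w hw
      rw [hO, mem_filter] at hw
      rw [mem_side]
      have h1 := mem_cl.1 hy'.1
      have h2 := mem_cl.1 hw.1
      refine ⟨h2.1, hw.2.1, ?_, fun b hb => (h1.2 b hb).symm.trans (h2.2 b hb)⟩
      have h3 := hy'.2.2
      have h4 := hw.2.2
      tauto
    have hc := Finset.card_le_card hsub
    refine hzE ?_
    rw [EE, mem_filter]
    exact ⟨mem_univ _, hzA, y, y', hyA, fun h => hzy h.symm, hy'.2.1, hy'.1, hy'.2.2, hcon,
      lt_of_lt_of_le hO1 hc⟩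
  have hcov : cl G A y ⊆ (cl G (insert z A) y ∪ {z}) ∪ O := by
    intro w hw
    rw [mem_union, mem_union, mem_singleton]
    by_cases h1 : w = z
    · exact Or.inl (Or.inr h1)
    · by_cases h2 : (G.Adj z y ↔ G.Adj z w)
      · refine Or.inl (Or.inl ?_)
        rw [mem_side]
        have h3 := mem_cl.1 hw
        exact ⟨h3.1, h1, h2, h3.2⟩
      · refine Or.inr ?_
        rw [hO, mem_filter]
        exact ⟨hw, h1, h2⟩
  have h1 : (cl G A y).card ≤ 2 * g + 1 + g := by
    refine (Finset.card_le_card hcov).trans ?_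
    refine (Finset.card_union_le _ _).trans ?_
    refine add_le_add ((Finset.card_union_le _ _).trans ?_) hOg
    rw [card_singleton]
    omega
  have h2 : (cl G (A ∪ EE G g A) y).card ≤ (cl G A y).card := by
    refine Finset.card_le_card ?_
    intro w hw
    rw [mem_cl] at hw ⊢
    exact ⟨fun h => hw.1 (mem_union_left _ h), fun b hb => hw.2 b (mem_union_left _ hb)⟩
  omega

end Pool.Agent.NRC
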