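import Pool.Agent.NRC.Targets

/-!
# NRC-STR: the dichotomy
-/

set_option autoImplicit false

open Finset Classical

namespace Pool.Agent.NRC

open Pool.Agent.Lib.Recon Pool.Agent.RNB

theorem STR_.cover {V : Type} [Fintype V] (G : SimpleGraph V) (g q h d : ℕ) (A : Finset V) :
    LA G g q A \ LL G g q h d A ⊆
      (LA G g q A).filter (fun y => h < (IN G (2 * g) A y).card) ∪
      (LA G g q A).filter (fun y => 2 * (IN G (2 * g) A y).card < d) := by
  intro y hy
  rw [mem_sdiff] at hy
  obtain ⟨h1, h2⟩ := hy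
  rw [mem_union, mem_filter, mem_filter]
  by_contra hc
  apply h2
  unfold LL
  rw [mem_filter]
  refine ⟨h1, ?_, ?_⟩
  · by_contra h3
    exact hc (Or.inl ⟨h1, by omega⟩)
  · by_contra h3
    exact hc (Or.inr ⟨h1, by omega⟩)

theorem p_STR (h_ESM : T_ESM) (h_EHI : T_EHI) (h_ELO : T_ELO) (h_SYM : T_SYM) (h_CMP : T_CMP)
    (h_SEL : T_SEL) (h_DIS : T_DIS) (h_CON : T_CON) (h_ROO : T_ROO) (h_BTB : T_BTB) :
    T_STR := by
  intro V _ G g q h d M k A hV hg hq hd hdV hdst hnG
  obtain ⟨R, X, hRk, hXc, hR, hPr⟩ := h_SEL V G g q h d k A hV hdV hdst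
  have hLL : ∀ y ∈ LL G g q h d A, y ∈ LA G g q A ∧ (IN G (2 * g) A y).card ≤ h := by
    intro y hy
    unfold LL at hy
    rw [mem_filter] at hy
    exact ⟨hy.1, hy.2.1⟩
  have hsym : ∀ y ∈ LL G g q h d A, ∀ z ∈ LL G g q h d A, z ∈ IN G (2 * g) A y →
      y ∈ IN G (2 * g) A z := by
    intro y hy z hz hzy
    exact h_SYM V G g q h A hq y z (hLL y hy).1 (hLL z hz).1 (hLL y hy).2 (hLL z hz).2 hzy
  obtain ⟨Q, hQP, hQc, hQr⟩ := h_ROO V G g M A (LL G g q h d A) hsym
  obtain ⟨B, hB⟩ : ∃ B : Finset V, B = A ∪ EE G g A ∪ (LA G g q A \ LL G g q h d A) ∪ X ∪ Q :=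
    ⟨_, rfl⟩
  have hAB : A ∪ EE G g A ⊆ B := by
    intro y hy
    rw [hB]
    simp only [mem_union] at hy ⊢
    tauto
  have hLB : LA G g q A \ LL G g q h d A ⊆ B := by
    intro y hy
    rw [hB]
    simp only [mem_union]
    tauto
  have hXB : X ⊆ B := by
    intro y hy
    rw [hB]
    simp only [mem_union]
    tauto
  have hQB : Q ⊆ B := by
    intro y hy
    rw [hB]
    simp only [mem_union]
    tauto
  obtain ⟨T, hBd, hBT, hRT, hTc⟩ := h_CON V (fun z y => z ∈ IN G (2 * g) A y)
    (fun y => y ∉ A ∪ EE G g A ∧ (cl G (A ∪ EE G g A) y).card ≤ q) B R (LL G g q h d A)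
    (by
      intro y
      by_cases h1 : y ∈ A ∪ EE G g A
      · exact Or.inl (hAB h1)
      by_cases h2 : (cl G (A ∪ EE G g A) y).card ≤ q
      · exact Or.inr (Or.inl ⟨h1, h2⟩)
      by_cases h3 : y ∈ LL G g q h d A
      · exact Or.inr (Or.inr h3)
      · refine Or.inl (hLB ?_)
        rw [mem_sdiff]
        refine ⟨?_, h3⟩
        unfold LA
        rw [mem_filter]
        exact ⟨mem_univ _, h1, by omega⟩)
    (by
      intro y hy hyB
      exact hR y hy (fun h1 => hyB (hXB h1)))
    hsym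
    (by
      intro y hy
      by_cases hM : M < (CO G g A (LL G g q h d A) y).card
      · obtain ⟨r, hrQ, hr⟩ := hQr y hy hM
        unfold CO at hr
        rw [mem_filter] at hr
        exact ⟨r, hr.2, Or.inl (hQB hrQ)⟩
      · have hnc : ¬ ∀ a ∈ CO G g A (LL G g q h d A) y,
            IN G (2 * g) A a ⊆ CO G g A (LL G g q h d A) y := by
          intro hc
          obtain ⟨v, hv⟩ := h_CMP V G g q h d M A hg (by omega) hd y hy (by omega) hc
          exact hnG v hv
        simp only [not_forall] at hnc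
        obtain ⟨a, ha, hs⟩ := hnc
        rw [not_subset] at hs
        obtain ⟨s, hs1, hs2⟩ := hs
        unfold CO at ha
        rw [mem_filter] at ha
        refine ⟨a, ha.2, Or.inr ⟨s, ?_, hs1⟩⟩
        intro hsP
        apply hs2
        unfold CO
        rw [mem_filter]
        exact ⟨mem_univ _, ha.2.tail ⟨hsP, hs1⟩⟩)
  refine ⟨B, T, (EE G g A).card,
    ((LA G g q A).filter (fun y => h < (IN G (2 * g) A y).card)).card,
    ((LA G g q A).filter (fun y => 2 * (IN G (2 * g) A y).card < d)).card, X.card, Q.card,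
    ?_, ?_, ?_, ?_, ?_, ?_, ?_, ?_, ?_⟩
  · exact h_DIS V G g q h d A R X T (hAB.trans hBT) (hLB.trans hBT) (hXB.trans hBT) hRT hR hPr
  · exact h_BTB V G g q A B T (by omega) hAB hBd
  · omega
  · have h1 : (LA G g q A \ LL G g q h d A).card ≤
        ((LA G g q A).filter (fun y => h < (IN G (2 * g) A y).card)).card +
        ((LA G g q A).filter (fun y => 2 * (IN G (2 * g) A y).card < d)).card :=
      (card_le_card (STR_.cover G g q h d A)).trans (card_union_le _ _)
    have h2 : B.card ≤ A.card + (EE G g A).card + (LA G g q A \ LL G g q h d A).card +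
        X.card + Q.card := by
      rw [hB]
      have e1 := card_union_le (A ∪ EE G g A ∪ (LA G g q A \ LL G g q h d A) ∪ X) Q
      have e2 := card_union_le (A ∪ EE G g A ∪ (LA G g q A \ LL G g q h d A)) X
      have e3 := card_union_le (A ∪ EE G g A) (LA G g q A \ LL G g q h d A)
      have e4 := card_union_le A (EE G g A)
      omega
    omega
  · exact h_ESM V G g A
  · exact h_EHI V G g q h A (by omega)
  · exact h_ELO V G g q d A hdst
  · exact hQc
  · exact hXc

end Pool.Agent.NRC
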