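import Pool.Agent.NRC.Targets

/-!
# NRC-SYM: symmetry of the arrows
-/

set_option autoImplicit false

open Finset Classical

namespace Pool.Agent.NRC

open Pool.Agent.Lib.Recon Pool.Agent.RNB

namespace SYM_

variable {V : Type} [Fintype V]

theorem mem_cl (G : SimpleGraph V) (B : Finset V) (v y : V) :
    y ∈ cl G B v ↔ y ∉ B ∧ ∀ b ∈ B, (G.Adj b v ↔ G.Adj b y) := by
  simp [cl]

theorem mem_IN (G : SimpleGraph V) (k : ℕ) (A : Finset V) (y z : V) :
    z ∈ IN G k A y ↔ z ∉ A ∧ z ≠ y ∧ (cl G (insert z A) y).card ≤ k := by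
  simp [IN]

theorem cl_mono (G : SimpleGraph V) {B C : Finset V} (h : B ⊆ C) (v : V) :
    cl G C v ⊆ cl G B v := by
  intro y hy
  rw [mem_cl] at hy ⊢
  exact ⟨fun h1 => hy.1 (h h1), fun b hb => hy.2 b (h hb)⟩

/-- a vertex outside `EE` has at most `g` vertices on the other side -/
theorem key (G : SimpleGraph V) (g : ℕ) (A : Finset V) (x w : V) (hx : x ∉ A)
    (hxE : x ∉ EE G g A) (hw : w ∉ A) (hwx : w ≠ x)
    (hc : g < (cl G (insert x A) w).card) :
    ((cl G A w).filter (fun w' => w' ≠ x ∧ ¬ (G.Adj x w ↔ G.Adj x w'))).card ≤ g := by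
  by_contra hcon
  rw [not_le] at hcon
  have hne : ((cl G A w).filter (fun w' => w' ≠ x ∧ ¬ (G.Adj x w ↔ G.Adj x w'))).Nonempty := by
    rw [← Finset.card_pos]
    omega
  obtain ⟨w', hw'⟩ := hne
  rw [mem_filter] at hw'
  obtain ⟨h1, h2, h3⟩ := hw'
  apply hxE
  simp only [EE, mem_filter, mem_univ, true_and]
  refine ⟨hx, w, w', hw, hwx, h2, h1, h3, hc, lt_of_lt_of_le hcon (Finset.card_le_card ?_)⟩
  intro u hu
  rw [mem_filter, mem_cl] at hu
  obtain ⟨⟨h4, h5⟩, h6, h7⟩ := hu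
  rw [mem_cl] at h1 ⊢
  refine ⟨?_, ?_⟩
  · rw [mem_insert]
    rintro (h8 | h8)
    · exact h6 h8
    · exact h4 h8
  · intro b hb
    rw [mem_insert] at hb
    rcases hb with rfl | hb
    · tauto
    · exact (h1.2 b hb).symm.trans (h5 b hb)

end SYM_

open SYM_ in
theorem p_SYM : T_SYM := by
  intro V _ G g q h A hq y z hy hz hyh hzh hzy
  rw [LA, mem_filter] at hy hz
  obtain ⟨-, hyB, hyq⟩ := hy
  obtain ⟨-, hzB, hzq⟩ := hz
  rw [mem_union, not_or] at hyB hzB
  obtain ⟨hyA, hyE⟩ := hyB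
  obtain ⟨hzA, hzE⟩ := hzB
  have hzy' := hzy
  rw [mem_IN] at hzy'
  obtain ⟨-, hzney, hside⟩ := hzy'
  by_contra hcon
  have hbig : 2 * g < (cl G (insert y A) z).card := by
    by_contra h1
    exact hcon ((mem_IN G _ A z y).2 ⟨hyA, hzney.symm, not_lt.1 h1⟩)
  have hsub : A ⊆ A ∪ EE G g A := Finset.subset_union_left
  set T : Finset V := (cl G (A ∪ EE G g A) y).filter
    (fun y' => y' ≠ z ∧ ¬ (G.Adj z y ↔ G.Adj z y') ∧ y' ∉ IN G (2 * g) A z) with hT
  set Q : Finset V := (cl G (A ∪ EE G g A) z).filter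
    (fun z' => z' ≠ y ∧ (G.Adj y z ↔ G.Adj y z') ∧ z' ∉ IN G (2 * g) A y) with hQ
  -- (1)
  have hTc : 2 * g + 2 ≤ T.card := by
    have h1 : cl G (A ∪ EE G g A) y ⊆
        (({z} ∪ cl G (insert z A) y) ∪ IN G (2 * g) A z) ∪ T := by
      intro u hu
      by_cases h2 : u = z
      · simp [h2]
      by_cases h3 : G.Adj z y ↔ G.Adj z u
      · have h4 : u ∈ cl G (insert z A) y := by
          rw [mem_cl] at hu ⊢
          refine ⟨?_, ?_⟩
          · rw [mem_insert]
            rintro (h8 | h8)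
            · exact h2 h8
            · exact hu.1 (hsub h8)
          · intro b hb
            rw [mem_insert] at hb
            rcases hb with rfl | hb
            · exact h3
            · exact hu.2 b (hsub hb)
        simp [h4]
      · by_cases h5 : u ∈ IN G (2 * g) A z
        · simp [h5]
        · have h6 : u ∈ T := by
            rw [hT, mem_filter]
            exact ⟨hu, h2, h3, h5⟩
          simp [h6]
    have h2 := Finset.card_le_card h1
    have h3 := Finset.card_union_le (({z} ∪ cl G (insert z A) y) ∪ IN G (2 * g) A z) T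
    have h4 := Finset.card_union_le ({z} ∪ cl G (insert z A) y) (IN G (2 * g) A z)
    have h5 := Finset.card_union_le {z} (cl G (insert z A) y)
    rw [Finset.card_singleton] at h5
    omega
  -- (3)
  have hQc : 2 * g + 2 ≤ Q.card := by
    have h0 := key G g A y z hyA hyE hzA hzney (by omega)
    have h1 : cl G (A ∪ EE G g A) z ⊆
        (({y} ∪ (cl G A z).filter (fun w' => w' ≠ y ∧ ¬ (G.Adj y z ↔ G.Adj y w'))) ∪
          IN G (2 * g) A y) ∪ Q := by
      intro u hu
      by_cases h2 : u = y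
      · simp [h2]
      by_cases h3 : G.Adj y z ↔ G.Adj y u
      · by_cases h5 : u ∈ IN G (2 * g) A y
        · simp [h5]
        · have h6 : u ∈ Q := by
            rw [hQ, mem_filter]
            exact ⟨hu, h2, h3, h5⟩
          simp [h6]
      · have h4 : u ∈ (cl G A z).filter (fun w' => w' ≠ y ∧ ¬ (G.Adj y z ↔ G.Adj y w')) := by
          rw [mem_filter]
          exact ⟨cl_mono G hsub z hu, h2, h3⟩
        simp only [mem_union]
        tauto
    have h2 := Finset.card_le_card h1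
    have h3 := Finset.card_union_le (({y} ∪ (cl G A z).filter
      (fun w' => w' ≠ y ∧ ¬ (G.Adj y z ↔ G.Adj y w'))) ∪ IN G (2 * g) A y) Q
    have h4 := Finset.card_union_le ({y} ∪ (cl G A z).filter
      (fun w' => w' ≠ y ∧ ¬ (G.Adj y z ↔ G.Adj y w'))) (IN G (2 * g) A y)
    have h5 := Finset.card_union_le {y} ((cl G A z).filter
      (fun w' => w' ≠ y ∧ ¬ (G.Adj y z ↔ G.Adj y w')))
    rw [Finset.card_singleton] at h5
    omega
  -- (5)
  have hcount := Finset.sum_card_bipartiteAbove_eq_sum_card_bipartiteBelow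
    (s := T) (t := Q) (fun y' z' => y' ≠ z' ∧ (G.Adj y' z' ↔ G.Adj z y))
  have hup : ∑ y' ∈ T, (Q.bipartiteAbove (fun y' z' => y' ≠ z' ∧ (G.Adj y' z' ↔ G.Adj z y))
      y').card ≤ T.card * g := by
    rw [← smul_eq_mul]
    refine Finset.sum_le_card_nsmul _ _ _ fun y' hy' => ?_
    rw [hT, mem_filter, mem_cl] at hy'
    obtain ⟨⟨h1, -⟩, h2, h3, h4⟩ := hy'
    rw [mem_union, not_or] at h1
    have h5 : g < (cl G (insert y' A) z).card := by
      by_contra h6
      exact h4 ((mem_IN G _ A z y').2 ⟨h1.1, h2, by omega⟩)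
    refine le_trans (Finset.card_le_card ?_) (key G g A y' z h1.1 h1.2 hzA h2.symm h5)
    intro z' hz'
    rw [Finset.bipartiteAbove, mem_filter, hQ, mem_filter] at hz'
    obtain ⟨⟨h6, -⟩, h7, h8⟩ := hz'
    rw [mem_filter]
    refine ⟨cl_mono G hsub z h6, h7.symm, ?_⟩
    rw [G.adj_comm y' z, h8]
    tauto
  have hlow : Q.card * (T.card - (1 + g)) ≤ ∑ z' ∈ Q, (T.bipartiteBelow
      (fun y' z' => y' ≠ z' ∧ (G.Adj y' z' ↔ G.Adj z y)) z').card := by
    rw [← smul_eq_mul]
    refine Finset.card_nsmul_le_sum _ _ _ fun z' hz' => ?_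
    rw [hQ, mem_filter, mem_cl] at hz'
    obtain ⟨⟨h1, -⟩, h2, h3, h4⟩ := hz'
    rw [mem_union, not_or] at h1
    have h5 : g < (cl G (insert z' A) y).card := by
      by_contra h6
      exact h4 ((mem_IN G _ A y z').2 ⟨h1.1, h2, by omega⟩)
    have h6 := key G g A z' y h1.1 h1.2 hyA h2.symm h5
    have h7 : T ⊆ ({z'} ∪ (cl G A y).filter
        (fun w' => w' ≠ z' ∧ ¬ (G.Adj z' y ↔ G.Adj z' w'))) ∪
        T.bipartiteBelow (fun y' z' => y' ≠ z' ∧ (G.Adj y' z' ↔ G.Adj z y)) z' := by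
      intro u hu
      by_cases h8 : u = z'
      · simp [h8]
      by_cases h9 : G.Adj z' y ↔ G.Adj z' u
      · have h10 : u ∈ T.bipartiteBelow (fun y' z' => y' ≠ z' ∧ (G.Adj y' z' ↔ G.Adj z y)) z' := by
          rw [Finset.bipartiteBelow, mem_filter]
          refine ⟨hu, h8, ?_⟩
          rw [G.adj_comm u z', ← h9, G.adj_comm z' y, ← h3, G.adj_comm]
        simp [h10]
      · have h4 : u ∈ (cl G A y).filter (fun w' => w' ≠ z' ∧ ¬ (G.Adj z' y ↔ G.Adj z' w')) := by
          rw [mem_filter]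
          rw [hT, mem_filter] at hu
          exact ⟨cl_mono G hsub y hu.1, h8, h9⟩
        simp only [mem_union]
        tauto
    have h8 := Finset.card_le_card h7
    have h9 := Finset.card_union_le ({z'} ∪ (cl G A y).filter
        (fun w' => w' ≠ z' ∧ ¬ (G.Adj z' y ↔ G.Adj z' w')))
        (T.bipartiteBelow (fun y' z' => y' ≠ z' ∧ (G.Adj y' z' ↔ G.Adj z y)) z')
    have h10 := Finset.card_union_le {z'} ((cl G A y).filter
        (fun w' => w' ≠ z' ∧ ¬ (G.Adj z' y ↔ G.Adj z' w')))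
    rw [Finset.card_singleton] at h10
    omega
  have hfin : Q.card * (T.card - (1 + g)) ≤ T.card * g := by
    rw [← hcount] at hlow
    exact hlow.trans hup
  have h1 : T.card ≤ 2 * (T.card - (1 + g)) := by omega
  have h2 : Q.card * T.card ≤ (2 * g) * T.card := by nlinarith
  have h3 : Q.card ≤ 2 * g := Nat.le_of_mul_le_mul_right h2 (by omega)
  omega

end Pool.Agent.NRC
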