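import Pool.Agent.NRC.P_ALL
import Pool.Agent.NRC.P_AUB
import Pool.Agent.NRC.P_AVG
import Pool.Agent.NRC.P_BIG
import Pool.Agent.NRC.P_BTB
import Pool.Agent.NRC.P_CMP
import Pool.Agent.NRC.P_CON
import Pool.Agent.NRC.P_DCB
import Pool.Agent.NRC.P_DIS
import Pool.Agent.NRC.P_EHI
import Pool.Agent.NRC.P_ELO
import Pool.Agent.NRC.P_EMC
import Pool.Agent.NRC.P_EQV
import Pool.Agent.NRC.P_ESM
import Pool.Agent.NRC.P_GDW
import Pool.Agent.NRC.P_HLF
import Pool.Agent.NRC.P_NB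
import Pool.Agent.NRC.P_NCV
import Pool.Agent.NRC.P_NF
import Pool.Agent.NRC.P_NFI
import Pool.Agent.NRC.P_NPA
import Pool.Agent.NRC.P_NX
import Pool.Agent.NRC.P_ONE
import Pool.Agent.NRC.P_POL
import Pool.Agent.NRC.P_RMS
import Pool.Agent.NRC.P_ROO
import Pool.Agent.NRC.P_RSQ
import Pool.Agent.NRC.P_SEL
import Pool.Agent.NRC.P_SML
import Pool.Agent.NRC.P_STR
import Pool.Agent.NRC.P_SYM

/-!
# NRC: composition
-/

set_option autoImplicit false

namespace Pool.Agent.NRC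

theorem a_GDW : T_GDW := p_GDW p_SML

theorem a_CMP : T_CMP := p_CMP a_GDW p_NCV

theorem a_EMC : T_EMC := p_EMC p_AUB

theorem a_STR : T_STR := p_STR p_ESM p_EHI p_ELO p_SYM a_CMP p_SEL p_DIS p_CON p_ROO p_BTB

theorem a_ONE : T_ONE := p_ONE a_STR a_EMC p_NPA p_NX p_NB p_NF p_RMS

theorem a_HLF : T_HLF := p_HLF p_RSQ p_NPA a_ONE

theorem a_AVG : T_AVG := p_AVG p_DCB p_EQV

theorem a_BIG : T_BIG := p_BIG a_HLF a_AVG p_NPA

/-- every deck of a graph with `n ≥ 3` vertices has at most `n ^ (C (log log n)^2)`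
reconstructions -/
theorem a_ALL : T_ALL := p_ALL a_BIG p_NFI

/-- polynomially many if all differences are at least `C (log log n)^2` -/
theorem a_POL : T_POL := p_POL a_HLF a_AVG p_NPA

theorem all : T_ALL := a_ALL

theorem pol : T_POL := a_POL

end Pool.Agent.NRC
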