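import Pool.Agent.RNB.Final

/-!
# NRC: every deck has at most `n ^ (C (log log n)^2)` reconstructions (MP_552896_co): definitions

Project NRC (owner helper39). From RNB: `cl G B v` = the vertices outside `B` with the same
neighbours in `B` as `v`; `SS G A z` = the vertices `v ∉ A`, `v ≠ z` with
`2 |cl G (insert z A) v| ≤ |cl G A v|`; `Bi A x i` = `A` and the entries `x j`, `j < i`;
`Aut0 G B T` = the automorphisms of `G[T]` which fix `B`; `dset G u v` = the vertices which
distinguish `u` and `v`; `Embs G T G` = the embeddings of `G[T]` in `G`.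

All notions are relative to a set `A` (a random set of about `n / log^2 n` vertices).
-/

set_option autoImplicit false

open Finset Classical

namespace Pool.Agent.NRC

open Pool.Agent.Lib.Recon Pool.Agent.RNB

variable {V : Type} [Fintype V]

/-- the number of the pairs `(z, y)` such that `z ∉ A` halves the class of `y` -/
noncomputable def sm (G : SimpleGraph V) (A : Finset V) : ℕ :=
  ∑ z ∈ univ.filter (fun z => z ∉ A), (SS G A z).card

/-- the vertices which cut some class into two sides with more than `g` elements each -/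
noncomputable def EE (G : SimpleGraph V) (g : ℕ) (A : Finset V) : Finset V :=
  univ.filter (fun z => z ∉ A ∧ ∃ y y', y ∉ A ∧ y ≠ z ∧ y' ≠ z ∧ y' ∈ cl G A y ∧
    ¬ (G.Adj z y ↔ G.Adj z y') ∧ g < (cl G (insert z A) y).card ∧
    g < (cl G (insert z A) y').card)

/-- the arrows into `y`: the vertices `z` for which the side of `y` has at most `k` elements -/
noncomputable def IN (G : SimpleGraph V) (k : ℕ) (A : Finset V) (y : V) : Finset V :=
  univ.filter (fun z => z ∉ A ∧ z ≠ y ∧ (cl G (insert z A) y).card ≤ k)

/-- the vertices in large refined classes -/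
noncomputable def LA (G : SimpleGraph V) (g q : ℕ) (A : Finset V) : Finset V :=
  univ.filter (fun y => y ∉ A ∪ EE G g A ∧ q < (cl G (A ∪ EE G g A) y).card)

/-- the vertices of `LA` with indegree between `d / 2` and `h` -/
noncomputable def LL (G : SimpleGraph V) (g q h d : ℕ) (A : Finset V) : Finset V :=
  (LA G g q A).filter (fun y => (IN G (2 * g) A y).card ≤ h ∧ d ≤ 2 * (IN G (2 * g) A y).card)

/-- a step back along an arrow, inside `P` -/
def St (G : SimpleGraph V) (g : ℕ) (A P : Finset V) (y z : V) : Prop :=
  z ∈ P ∧ z ∈ IN G (2 * g) A y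

/-- the component of `y` -/
noncomputable def CO (G : SimpleGraph V) (g : ℕ) (A P : Finset V) (y : V) : Finset V :=
  univ.filter (fun z => Relation.ReflTransGen (St G g A P) y z)

/-! ### Codes -/

/-- the side of `y` with respect to `z`, without the vertex `v` -/
noncomputable def sd (G : SimpleGraph V) (A : Finset V) (v z y : V) : Finset V :=
  (cl G (insert z A) y).erase v

/-- a step back along an arrow of the graph without `v` -/
def Ar (G : SimpleGraph V) (g : ℕ) (A : Finset V) (v y z : V) : Prop :=
  z ∉ A ∧ y ∉ A ∧ z ≠ v ∧ y ≠ v ∧ z ≠ y ∧ (sd G A v z y).card ≤ g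

/-- the vertices from which `w` can be reached in the graph without `v` -/
noncomputable def BR (G : SimpleGraph V) (g : ℕ) (A : Finset V) (v w : V) : Finset V :=
  univ.filter (fun y => Relation.ReflTransGen (Ar G g A v) w y)

/-- the code `(w, u, b, S)` describes the neighbours of `v` -/
def Cod (G : SimpleGraph V) (g : ℕ) (A : Finset V) (v w u : V) (b : Bool) (S : Finset V) :
    Prop :=
  ∀ z, z ≠ v → (G.Adj z v ↔
    if z ∈ BR G g A v w then z ∈ S
    else if z = u then b = true
    else if z ∈ A then G.Adj z u
    else (G.Adj z u ↔ ¬ (sd G A v z u).card ≤ g))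

/-- the neighbours of `v` are described by a code -/
def Gd (G : SimpleGraph V) (g M : ℕ) (A : Finset V) (v : V) : Prop :=
  v ∉ A ∧ ∃ (w u : V) (b : Bool) (S : Finset V), w ≠ v ∧ u ≠ v ∧ (BR G g A v w).card ≤ M ∧
    S ⊆ BR G g A v w ∧ Cod G g A v w u b S

/-! ### Ordered sets -/

/-- sets built from `B` by adding free vertices, and vertices with an arrow from the set -/
inductive Bd (ar : V → V → Prop) (fr : V → Prop) (B : Finset V) : Finset V → Prop
  | base : Bd ar fr B B
  | free {T : Finset V} {y : V} : Bd ar fr B T → fr y → Bd ar fr B (insert y T)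
  | arrow {T : Finset V} {y z : V} : Bd ar fr B T → z ∈ T → ar z y → Bd ar fr B (insert y T)

/-- sets built from `B` by adding vertices with at most `K` candidates -/
inductive Bld (G : SimpleGraph V) (K : ℕ) (B : Finset V) : Finset V → Prop
  | base : Bld G K B B
  | step {T C : Finset V} {y : V} : Bld G K B T → C ⊆ T → (cl G C y).card ≤ K →
      Bld G K B (insert y T)

/-- `T` distinguishes the other vertices -/
def Dst (G : SimpleGraph V) (T : Finset V) : Prop :=
  ∀ u v, u ∉ T → v ∉ T → u ≠ v → ∃ a ∈ T, ¬ (G.Adj a u ↔ G.Adj a v)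

/-- the pairs which must be separated -/
def Pr (G : SimpleGraph V) (g q h d : ℕ) (A : Finset V) (u v : V) : Prop :=
  u ≠ v ∧ ((v ∉ A ∪ EE G g A ∧ (cl G (A ∪ EE G g A) v).card ≤ q ∧ u ∈ cl G (A ∪ EE G g A) v) ∨
    (v ∈ LL G g q h d A ∧ ∃ z ∈ IN G (2 * g) A v, u ∈ cl G (insert z A) v))

/-! ### Parameters as functions of `n` -/

/-- `log n` -/
def pL (n : ℕ) : ℕ := Nat.log 2 n + 1

/-- `log log n` -/
def pl (n : ℕ) : ℕ := Nat.log 2 (pL n) + 1

/-- the bound for the differences -/
def pd (n : ℕ) : ℕ := 20000 * pl n ^ 2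

/-- the number of vertices of the net -/
def pN (n : ℕ) : ℕ := n / pL n ^ 2

/-- the bound for small sides -/
def pg (n : ℕ) : ℕ := 4 * pL n ^ 6

/-- the bound for small classes -/
def pq (n : ℕ) : ℕ := 8 * pg n

/-- the bound for small components -/
def pM (n : ℕ) : ℕ := 100 * pL n

/-- the number of random vertices -/
def pk (n : ℕ) : ℕ := n / (300 * pl n)

end Pool.Agent.NRC
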