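import Pool.Agent.NRC.P_POL

/-!
# NRC: the number of reconstructions, final statements (MP_552896_co)
-/

set_option autoImplicit false

open Finset Classical

namespace Pool.Agent.NRC

open Pool.Agent.Lib.Recon Pool.Agent.RNum Pool.Agent.RNB

/-- **The number of reconstructions** with all four bounds, for graphs on the same vertex set -/
theorem number_min_ll (h_ALL : T_ALL) (h_POL : T_POL) : ∃ C : ℝ, 0 < C ∧
    ∀ (V ι : Type) [Fintype V] [Fintype ι] (G : SimpleGraph V), 3 ≤ Fintype.card V → ∀ m : ℝ,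
    (C * Real.logb 2 (Real.logb 2 (Fintype.card V)) ^ 2 ≤ m ∨
      (∃ D : ℕ, 16 * (Real.logb 2 D) ^ 2 ≤ m ∧
        ((∀ v, (nb G v).card ≤ D) ∨ ∀ v, (nb Gᶜ v).card ≤ D)) ∨
      (1 ≤ m ∧ ∃ u v, u ≠ v ∧ ((dset G u v).card : ℝ) ≤ m) ∨
      (C ≤ m ∧ ∀ u v, u ≠ v → C * Real.logb 2 (Real.logb 2 (Fintype.card V)) ^ 2 ≤
        ((dset G u v).card : ℝ))) →
    ∀ H : ι → SimpleGraph V, (∀ i v, CardIso G (H i) v v) →
    (∀ i j, i ≠ j → ¬ ∃ α : V ≃ V, ∀ x y, (H i).Adj x y ↔ (H j).Adj (α x) (α y)) →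
    (Fintype.card ι : ℝ) ≤ (Fintype.card V : ℝ) ^ (m + 3) := by
  obtain ⟨C₁, hC₁, hALL⟩ := h_ALL
  obtain ⟨C₂, hC₂, hPOL⟩ := h_POL
  refine ⟨max C₁ C₂, lt_max_of_lt_left hC₁, ?_⟩
  intro V ι _ _ G hn m hm H hyp hne
  have hnR : (1 : ℝ) ≤ Fintype.card V := by
    have : 1 ≤ Fintype.card V := by omega
    exact_mod_cast this
  have hx : 0 ≤ Real.logb 2 (Real.logb 2 (Fintype.card V)) ^ 2 := by positivity
  have hx1 := mul_le_mul_of_nonneg_right (le_max_left C₁ C₂) hx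
  have hx2 := mul_le_mul_of_nonneg_right (le_max_right C₁ C₂) hx
  rcases hm with hm | ⟨D, hm, hD⟩ | ⟨hm, u, v, huv, h⟩ | ⟨hm, hd⟩
  · exact (hALL V ι G H hn hyp hne).trans
      (Real.rpow_le_rpow_of_exponent_le hnR (by linarith))
  · exact (number G hn D hD H hyp hne).trans
      (Real.rpow_le_rpow_of_exponent_le hnR (by linarith))
  · have h1 := number_near G hn ⌊m⌋₊ ((Nat.one_le_floor_iff m).2 hm) u v huv (Nat.le_floor h)
      H hyp hne
    have h2 : (Fintype.card ι : ℝ) ≤ (Fintype.card V : ℝ) ^ ((⌊m⌋₊ + 3 : ℕ) : ℝ) := by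
      rw [Real.rpow_natCast]
      exact_mod_cast h1
    refine h2.trans (Real.rpow_le_rpow_of_exponent_le hnR ?_)
    push_cast
    linarith [Nat.floor_le (show (0 : ℝ) ≤ m by linarith)]
  · exact (hPOL V ι G H hn hyp hne fun u v huv => hx2.trans (hd u v huv)).trans
      (Real.rpow_le_rpow_of_exponent_le hnR (by linarith [le_max_right C₁ C₂]))

/-- **The number of reconstructions**, for truncated clique lattices -/
theorem number_min_clique_ll (h_ALL : T_ALL) (h_POL : T_POL) : ∃ C : ℝ, 0 < C ∧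
    ∀ (V : Type) [Fintype V] (G : SimpleGraph V), 3 ≤ Fintype.card V → ∀ m : ℝ,
    (C * Real.logb 2 (Real.logb 2 (Fintype.card V)) ^ 2 ≤ m ∨
      (∃ D : ℕ, 16 * (Real.logb 2 D) ^ 2 ≤ m ∧
        ((∀ v, (G.neighborSet v).ncard ≤ D) ∨ ∀ v, (Gᶜ.neighborSet v).ncard ≤ D)) ∨
      (1 ≤ m ∧ ∃ u v, u ≠ v ∧
        ({w : V | w ≠ u ∧ w ≠ v ∧ ¬ (G.Adj w u ↔ G.Adj w v)}.ncard : ℝ) ≤ m) ∨
      (C ≤ m ∧ ∀ u v, u ≠ v → C * Real.logb 2 (Real.logb 2 (Fintype.card V)) ^ 2 ≤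
        ({w : V | w ≠ u ∧ w ≠ v ∧ ¬ (G.Adj w u ↔ G.Adj w v)}.ncard : ℝ))) →
    ∀ (ι : Type) [Fintype ι] (W : ι → Type) [∀ i, Fintype (W i)] (H : ∀ i, SimpleGraph (W i))
    (f : ∀ i, V ≃ W i),
    (∀ i, ∀ v : V,
      Nonempty ({s : Finset V // s.Nonempty ∧ G.IsClique (s : Set V) ∧ v ∉ s} ≃o
        {t : Finset (W i) // t.Nonempty ∧ (H i).IsClique (t : Set (W i)) ∧ f i v ∉ t})) →
    (∀ i j, i ≠ j →
      ¬ Nonempty ({s : Finset (W i) // s.Nonempty ∧ (H i).IsClique (s : Set (W i))} ≃o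
        {t : Finset (W j) // t.Nonempty ∧ (H j).IsClique (t : Set (W j))})) →
    (Fintype.card ι : ℝ) ≤ (Fintype.card V : ℝ) ^ (m + 3) := by
  obtain ⟨C, hC, hmin⟩ := number_min_ll h_ALL h_POL
  refine ⟨C, hC, ?_⟩
  intro V _ G hn m hm ι _ W _ H f hdeck hne
  have hnb : ∀ (K : SimpleGraph V) (v : V), (nb K v).card = (K.neighborSet v).ncard := by
    intro K v
    rw [← Set.ncard_coe_finset (nb K v)]
    congr 1
    ext w
    rw [Finset.mem_coe, mem_nb]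
    rfl
  have hds : ∀ u v : V, (dset G u v).card =
      {w : V | w ≠ u ∧ w ≠ v ∧ ¬ (G.Adj w u ↔ G.Adj w v)}.ncard := by
    intro u v
    rw [← Set.ncard_coe_finset (dset G u v)]
    congr 1
    ext w
    rw [Finset.mem_coe, mem_dset]
    rfl
  refine hmin V ι G hn m ?_ (fun i => (H i).comap (f i)) ?_ ?_
  · rcases hm with hm | ⟨D, hm, hD⟩ | ⟨hm, u, v, huv, h⟩ | ⟨hm, hd⟩
    · exact Or.inl hm
    · refine Or.inr (Or.inl ⟨D, hm, ?_⟩)
      rcases hD with hD | hD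
      · left
        intro v
        rw [hnb]
        exact hD v
      · right
        intro v
        rw [hnb]
        exact hD v
    · refine Or.inr (Or.inr (Or.inl ⟨hm, u, v, huv, ?_⟩))
      rw [hds]
      exact h
    · refine Or.inr (Or.inr (Or.inr ⟨hm, fun u v huv => ?_⟩))
      rw [hds]
      exact hd u v huv
  · intro i v
    obtain ⟨e⟩ := hdeck i v
    obtain ⟨σ, h1, h2⟩ := cardIso_of_orderIso G (H i) (f i) v e
    refine ⟨σ.trans (f i).symm, by rw [Equiv.trans_apply, h1, Equiv.symm_apply_apply], ?_⟩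
    intro x y hx hy
    rw [h2 x y hx hy]
    simp
  · intro i j hij hα
    apply hne i j hij
    obtain ⟨α, hα⟩ := hα
    apply orderIso_of_iso
    refine ⟨((f i).symm.trans α).trans (f j), fun x y => ?_⟩
    have h1 := hα ((f i).symm x) ((f i).symm y)
    simp only [SimpleGraph.comap_adj, Equiv.apply_symm_apply] at h1
    exact h1

end Pool.Agent.NRC
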