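import Pool.Agent.NRC.Targets

/-!
# NRC: ALL (MP_552896_co), all `n ≥ 3`
-/

set_option autoImplicit false

open Finset Classical

namespace Pool.Agent.NRC

open Pool.Agent.Lib.Recon Pool.Agent.RNB

namespace ALL_

/-- at most `2 ^ (n * n)` graphs -/
theorem card_le {V ι : Type} [Fintype V] [Fintype ι] (H : ι → SimpleGraph V)
    (hne : ∀ i j, i ≠ j → ¬ ∃ α : V ≃ V, ∀ x y, (H i).Adj x y ↔ (H j).Adj (α x) (α y)) :
    Fintype.card ι ≤ 2 ^ (Fintype.card V * Fintype.card V) := by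
  have hinj : Function.Injective
      (fun i => univ.filter fun p : V × V => (H i).Adj p.1 p.2) := by
    intro i j hij
    by_contra h
    refine hne i j h ⟨Equiv.refl V, fun x y => ?_⟩
    have := Finset.ext_iff.1 hij (x, y)
    simpa using this
  have h := Fintype.card_le_of_injective _ hinj
  rwa [Fintype.card_finset, Fintype.card_prod] at h

/-- the first value of the double logarithm -/
theorem log_pos : 0 < Real.logb 2 (Real.logb 2 3) := by
  refine Real.logb_pos (by norm_num) ?_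
  rw [Real.lt_logb_iff_rpow_lt (by norm_num) (by norm_num)]
  norm_num

theorem log_mono {n : ℕ} (hn : 3 ≤ n) :
    Real.logb 2 (Real.logb 2 3) ≤ Real.logb 2 (Real.logb 2 (n : ℝ)) := by
  have h1 : Real.logb 2 3 ≤ Real.logb 2 (n : ℝ) :=
    Real.logb_le_logb_of_le (by norm_num) (by norm_num) (by exact_mod_cast hn)
  refine Real.logb_le_logb_of_le (by norm_num) ?_ h1
  exact Real.logb_pos (by norm_num) (by norm_num)

end ALL_

open ALL_

/-- ALL: all `n ≥ 3`. -/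
theorem p_ALL (h_BIG : T_BIG) (h_NFI : T_NFI) : T_ALL := by
  obtain ⟨n0, hB⟩ := h_BIG
  obtain ⟨C1, hC1, hN⟩ := h_NFI
  set x0 : ℝ := Real.logb 2 (Real.logb 2 3) with hx0
  have hx0p : 0 < x0 := log_pos
  refine ⟨max C1 ((n0 : ℝ) ^ 2 / x0 ^ 2), lt_max_of_lt_left hC1, ?_⟩
  intro V ι _ _ G H hV hdeck hne
  set n := Fintype.card V with hn
  have hn3 : (3 : ℝ) ≤ (n : ℝ) := by exact_mod_cast hV
  have hn1 : (1 : ℝ) ≤ (n : ℝ) := by linarith
  have hx : x0 ≤ Real.logb 2 (Real.logb 2 (n : ℝ)) := log_mono hV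
  set x : ℝ := Real.logb 2 (Real.logb 2 (n : ℝ)) with hxd
  have hx2 : x0 ^ 2 ≤ x ^ 2 := pow_le_pow_left₀ hx0p.le hx 2
  have hx2' : 0 ≤ x ^ 2 := sq_nonneg x
  by_cases hbig : n0 ≤ n
  · have h1 := hB V ι G H hbig hdeck hne
    have h2 : (Fintype.card ι : ℝ) ≤
        ((2 * n ^ (pd n + 2) + 4 * n ^ 4 * 2 ^ (pM n) : ℕ) : ℝ) := by exact_mod_cast h1
    refine h2.trans ((hN n hV).trans ?_)
    refine Real.rpow_le_rpow_of_exponent_le hn1 ?_
    exact mul_le_mul_of_nonneg_right (le_max_left _ _) hx2'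
  · rw [not_le] at hbig
    have h1 := card_le H hne
    have h2 : (Fintype.card ι : ℝ) ≤ (2 : ℝ) ^ (n0 * n0) := by
      have h3 : Fintype.card ι ≤ 2 ^ (n0 * n0) :=
        h1.trans (Nat.pow_le_pow_right (by norm_num) (Nat.mul_le_mul hbig.le hbig.le))
      exact_mod_cast h3
    refine h2.trans ?_
    have h3 : (n0 : ℝ) ^ 2 ≤ max C1 ((n0 : ℝ) ^ 2 / x0 ^ 2) * x ^ 2 := by
      have h4 : (n0 : ℝ) ^ 2 = (n0 : ℝ) ^ 2 / x0 ^ 2 * x0 ^ 2 := by
        field_simp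
      rw [h4]
      refine mul_le_mul ?_ hx2 (sq_nonneg _) ?_
      · rw [← h4]
        exact le_max_right _ _
      · exact le_max_of_le_left hC1.le
    have h5 : (2 : ℝ) ^ (n0 * n0) = (2 : ℝ) ^ ((n0 : ℝ) ^ 2) := by
      rw [← Real.rpow_natCast]
      congr 1
      push_cast
      ring
    rw [h5]
    calc (2 : ℝ) ^ ((n0 : ℝ) ^ 2) ≤ (n : ℝ) ^ ((n0 : ℝ) ^ 2) :=
          Real.rpow_le_rpow (by norm_num) (by linarith) (by positivity)
      _ ≤ (n : ℝ) ^ (max C1 ((n0 : ℝ) ^ 2 / x0 ^ 2) * x ^ 2) :=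
          Real.rpow_le_rpow_of_exponent_le hn1 h3

end Pool.Agent.NRC
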