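import Pool.Agent.NRC.Defs

/-!
# NRC: exact targets with complete proofs in the docstrings

One file per target: `Pool/Agent/NRC/P_X.lean`, theorem `Pool.Agent.NRC.p_X (other targets) : T_X`.
Notation in the docstrings: `n = Fintype.card V`, `E = EE G g A`, `LA = LA G g q A`,
`LL = LL G g q h d A`, `In y = IN G (2 * g) A y` (arrows `z → y` for `z ∈ In y`),
`side z y = cl G (insert z A) y` (the vertices `y' ∉ A`, `y' ≠ z` with the same neighbours in `A`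
as `y` and the same adjacency to `z`), `rc y = cl G (A ∪ E) y`. For `y ∉ B` always `y ∈ cl G B y`,
and `y' ∈ cl G B y` (with `y ∉ B`) gives `cl G B y' = cl G B y`.
-/

set_option autoImplicit false

open Finset Classical

namespace Pool.Agent.NRC

open Pool.Agent.Lib.Recon Pool.Agent.RNB

/-! ## A. the random net -/

/-- RSQ. PROOF. `f p = sm G (Bi ∅ p.2 p.1)`. For fixed `i` let `h x v` be `(SS G (Bi ∅ x i) v).card`
if `v ∉ Bi ∅ x i`, and `0` otherwise; it does not depend on `x i`, so `p_RES` (RNB/P_RES.lean) gives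
`n ∑ x, h x (x i) = ∑ v, ∑ x, h x v = ∑ x, f (i, x)`. By `NET_.step` (RNB/P_NET.lean, potential
`NET_.Phi`) and `Bi ∅ x (i+1) = insert (x i) (Bi ∅ x i)`: `Phi (Bi ∅ x (i+1)) + h x (x i) ≤
Phi (Bi ∅ x i)`. Telescoping (`phi_nonneg`, `phi_empty`): `∑ i, h x (x i) ≤ n logb 2 n`. So
`∑ p, f p ≤ n * n^N * (n logb 2 n) ≤ n^N * N * B / 2`, and by Markov `#{f > B} * B ≤ ∑ f`, so
`#{f > B} ≤ N n^N / 2`, and there are `N n^N` pairs `p`. -/
def T_RSQ : Prop := ∀ (V : Type) [Fintype V] (G : SimpleGraph V) (N : ℕ) (B : ℝ), 0 < B →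
  2 * ((Fintype.card V : ℝ) ^ 2 * Real.logb 2 (Fintype.card V)) ≤ N * B →
  (N : ℝ) * (Fintype.card V : ℝ) ^ N ≤ 2 * ((univ.filter (fun p : Fin N × (Fin N → V) =>
    (sm G (Bi ∅ p.2 p.1) : ℝ) ≤ B)).card : ℝ)

/-- ESM. PROOF. It suffices that `g ≤ (SS G A z).card` for `z ∈ E` (then sum over `E`). Take `y, y'`
from the definition. The sets `side z y` and `side z y'` are disjoint (adjacency to `z`) subsets of
`cl G A y = cl G A y'`, so one of them, say `side z y`, satisfies `2 |side z y| ≤ |cl G A y|`. For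
`v ∈ side z y`: `cl G (insert z A) v = side z y`, `cl G A v = cl G A y`, `v ∉ A`, `v ≠ z`; so
`side z y ⊆ SS G A z`, and `g < |side z y|`. -/
def T_ESM : Prop := ∀ (V : Type) [Fintype V] (G : SimpleGraph V) (g : ℕ) (A : Finset V),
  g * (EE G g A).card ≤ sm G A

/-- EHI. PROOF. Let `y ∈ LA`, `z ∈ In y`. Then `|cl G A y| ≥ |rc y| > q ≥ 4 g ≥ 2 |side z y|`
(`cl` is antitone in the set), so `y ∈ SS G A z`. So `h * #Y ≤ ∑ y ∈ Y, |In y| ≤
∑ y, #{z ∉ A | y ∈ SS G A z} = sm G A` (double counting), `Y` the set on the left. -/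
def T_EHI : Prop := ∀ (V : Type) [Fintype V] (G : SimpleGraph V) (g q h : ℕ) (A : Finset V),
  4 * g ≤ q →
  h * ((LA G g q A).filter (fun y => h < (IN G (2 * g) A y).card)).card ≤ sm G A

/-- ELO. PROOF. Let `Y` be the set on the left and `y ≠ y'` in `Y` with `y' ∈ rc y`. Let
`z ∈ dset G y y'`; `z ∉ A ∪ E` (the vertices `y, y'` have the same neighbours there). `y' ∈ cl G A y`
and `z ∉ E` gives `|side z y| ≤ g` or `|side z y'| ≤ g`, so `z ∈ In y ∪ In y'`. So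
`d ≤ |In y| + |In y'| < d`, a contradiction. So the sets `rc y`, `y ∈ Y`, are pairwise disjoint
(if `w` is in two of them then `y' ∈ rc y`), each has more than `q` elements. -/
def T_ELO : Prop := ∀ (V : Type) [Fintype V] (G : SimpleGraph V) (g q d : ℕ) (A : Finset V),
  (∀ u v, u ≠ v → d ≤ (dset G u v).card) →
  q * ((LA G g q A).filter (fun y => 2 * (IN G (2 * g) A y).card < d)).card ≤ Fintype.card V

/-! ## B. the arrows -/

/-- SYM. PROOF. `y ≠ z`, `y, z ∉ A ∪ E`. Suppose `y ∉ In z`: `|side y z| > 2 g`. Put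
`b = G.Adj z y`. (1) `T = {y' ∈ rc y | y' ≠ z, ¬ (G.Adj z y' ↔ b), y' ∉ In z}`. The `y' ∈ rc y`,
`y' ≠ z` with `G.Adj z y' ↔ b` are in `side z y`, at most `2 g`; at most `h` are in `In z`; so
`|T| ≥ |rc y| - 1 - 2 g - h ≥ 2 g + 2`. (2) `y' ∈ T`: `y' ∉ E`, `y' ∉ A`, `|side y' z| > 2 g ≥ g`. The
`z' ∈ cl G A z`, `z' ≠ y'` with `¬ (G.Adj y' z' ↔ G.Adj y' z)`, i.e. `G.Adj y' z' ↔ b`, are at most
`g`: if there is one, they form `side y' z'`, and more than `g` would give `y' ∈ E`.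
(3) `Q = {z' ∈ rc z | z' ≠ y, (G.Adj y z' ↔ b), z' ∉ In y}`. As in (2) with `y` in place of `y'`
(`|side y z| > 2 g`, `y ∉ E`, `G.Adj y z ↔ b`) at most `g` of the `z' ∈ cl G A z`, `z' ≠ y`, have
`¬ (G.Adj y z' ↔ b)`; so `|Q| ≥ |rc z| - 1 - g - h ≥ 2 g + 2`. (4) `z' ∈ Q`: `z' ∉ E`, `z' ∉ A`,
`z' ≠ y`, `|side z' y| > 2 g`, so at most `g` of the `y' ∈ cl G A y`, `y' ≠ z'`, have
`¬ (G.Adj z' y' ↔ b)`. So `G.Adj z' y' ↔ b` for at least `|T| - 1 - g` of the `y' ∈ T`, `y' ≠ z'`.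
(5) Count the pairs `(y', z') ∈ T × Q`, `y' ≠ z'`, `G.Adj y' z' ↔ b`: by (2) at most `g |T|`, by (4)
at least `|Q| (|T| - 1 - g)`, and `2 (|T| - 1 - g) ≥ |T|`, so `|Q| ≤ 2 g`, a contradiction. -/
def T_SYM : Prop := ∀ (V : Type) [Fintype V] (G : SimpleGraph V) (g q h : ℕ) (A : Finset V),
  4 * g + h + 2 ≤ q → ∀ y z, y ∈ LA G g q A → z ∈ LA G g q A →
  (IN G (2 * g) A y).card ≤ h → (IN G (2 * g) A z).card ≤ h →
  z ∈ IN G (2 * g) A y → y ∈ IN G (2 * g) A z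

/-- SML. PROOF. Otherwise `g < |side z y| ≤ 2 g`. `cl G A y` consists of `side z y`, possibly `z`, and
the vertices `y'` on the other side; these are at most `g` (if there is one they form `side z y'`, and
`z ∉ E`, `z ∉ A`, `y ∉ A`). So `q < |rc y| ≤ |cl G A y| ≤ 3 g + 1`. -/
def T_SML : Prop := ∀ (V : Type) [Fintype V] (G : SimpleGraph V) (g q : ℕ) (A : Finset V),
  3 * g + 1 ≤ q → ∀ y ∈ LA G g q A, ∀ z ∈ IN G (2 * g) A y, z ∉ EE G g A →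
  (cl G (insert z A) y).card ≤ g

/-- GDW (from SML): a small closed set gives a code. PROOF. `v ∉ A ∪ E`, `|rc v| > q ≥ 1`, so there
is `u ∈ rc v`, `u ≠ v`; `u ∉ A ∪ E`.
(1) `BR G g A v w = W.erase v`. For `a ∈ W`, `a ≠ v` and any `z`: `Ar G g A v a z` iff
`z ≠ v ∧ z ∈ In a`. If `Ar`: `|side z a| ≤ g + 1 ≤ 2 g`. If `z ∈ In a`, then `z ∈ W ⊆ LA`, so `z ∉ E`
and `|side z a| ≤ g` by SML; `a ∉ A` as `a ∈ LA`. So all vertices reached from `w` are in `W.erase v`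
(closedness), and all of `W.erase v` is reached by hypothesis. Its cardinality is at most `M`.
(2) `S = {z ∈ W.erase v | G.Adj z v}`, `b` = truth value of `G.Adj u v`. Let `z ≠ v`,
`z ∉ W`, `z ≠ u`. If `z ∈ A`: `G.Adj z v ↔ G.Adj z u` as `u ∈ rc v`. If `z ∉ A`: `z ∉ In v`, so
`|side z v| > 2 g`. Also `u ∈ cl G A v`. If `|sd G A v z u| ≤ g` then `|side z u| ≤ g + 1 ≤ 2 g`, so
`side z u ≠ side z v`, so `¬ (G.Adj z u ↔ G.Adj z v)`. If `|sd G A v z u| > g`: suppose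
`¬ (G.Adj z u ↔ G.Adj z v)`; then both sides have more than `g` elements, so `z ∈ E` and `u ∈ rc v`
gives `G.Adj z u ↔ G.Adj z v`, a contradiction. -/
def T_GDW : Prop := ∀ (V : Type) [Fintype V] (G : SimpleGraph V) (g q M : ℕ) (A W : Finset V),
  1 ≤ g → 3 * g + 1 ≤ q → W ⊆ LA G g q A → (∀ y ∈ W, IN G (2 * g) A y ⊆ W) → W.card ≤ M →
  ∀ v ∈ W, ∀ w ∈ W, w ≠ v →
  (∀ y ∈ W, y ≠ v →
    Relation.ReflTransGen (fun a b => b ∈ W ∧ b ≠ v ∧ b ∈ IN G (2 * g) A a) w y) →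
  Gd G g M A v

/-- NCV: a vertex which is not a cut vertex. PROOF. Consider the sets `T ⊆ W`, `y0 ∈ T`, `T ≠ W`, such
that all `y ∈ T` are reached from `y0` by steps `a → b` with `b ∈ T`, `r a b`. `{y0}` is one; take one
of maximal cardinality. There are `a ∈ T`, `b ∈ W \ T` with `r a b` (an element of `W \ T` is reached
from `y0 ∈ T` by steps inside `W`; look at the first step which leaves `T`). `insert b T` has the
property except that it may be `W`; so it is `W`. Take `v = b`, `w = y0`: `W.erase v = T`. -/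
def T_NCV : Prop := ∀ (V : Type) [Fintype V] (r : V → V → Prop) (W : Finset V) (y0 : V),
  y0 ∈ W → 2 ≤ W.card → (∀ y ∈ W, Relation.ReflTransGen (fun a b => b ∈ W ∧ r a b) y0 y) →
  ∃ v ∈ W, ∃ w ∈ W, w ≠ v ∧ ∀ y ∈ W, y ≠ v →
    Relation.ReflTransGen (fun a b => b ∈ W ∧ b ≠ v ∧ r a b) w y

/-- CMP (from GDW, NCV). PROOF. `W = CO G g A LL y`, `W ⊆ LL ⊆ LA` (`y ∈ LL`, every step ends in
`LL`), `y ∈ W`. As `1 ≤ d ≤ 2 |In y|` there is `z ∈ In y ⊆ W`, `z ≠ y`, so `2 ≤ W.card`. Every element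
of `W` is reached from `y` by steps inside `W`. NCV with `r a b := b ∈ In a`, then GDW. -/
def T_CMP : Prop := ∀ (V : Type) [Fintype V] (G : SimpleGraph V) (g q h d M : ℕ) (A : Finset V),
  1 ≤ g → 3 * g + 1 ≤ q → 1 ≤ d → ∀ y ∈ LL G g q h d A,
  (CO G g A (LL G g q h d A) y).card ≤ M →
  (∀ a ∈ CO G g A (LL G g q h d A) y, IN G (2 * g) A a ⊆ CO G g A (LL G g q h d A) y) →
  ∃ v, Gd G g M A v

/-! ## C. the distinguishing set -/

/-- SEL. PROOF. `exists_seq` (Lib/Recon/Average.lean) with `J = LL`, the sets `In y`, `d / 2 ≤ |In y|`,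
and `J'` = the set of the pairs `(u, v)` with `Pr G g q h d A u v`, the sets `dset G u v`,
`d / 2 ≤ d ≤ |dset|`. `|J| ≤ n`, `|J'| ≤ n q + n h (2 g)` (for each `v` at most `q` vertices
`u ∈ rc v`; for `v ∈ LL` at most `h` vertices `z ∈ In v` and at most `2 g` vertices
`u ∈ side z v`). `R` = image of the sequence `a : Fin k → V`, `X` = the missed `y ∈ J` and the
first components of the missed pairs. `0 ≤ 1 - d / (2 n)` as `d ≤ n`. -/
def T_SEL : Prop := ∀ (V : Type) [Fintype V] (G : SimpleGraph V) (g q h d k : ℕ) (A : Finset V),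
  1 ≤ Fintype.card V → d ≤ Fintype.card V → (∀ u v, u ≠ v → d ≤ (dset G u v).card) →
  ∃ R X : Finset V, R.card ≤ k ∧
    (X.card : ℝ) ≤ ((Fintype.card V : ℝ) * (1 + q + h * (2 * g))) *
      (1 - (d : ℝ) / (2 * Fintype.card V)) ^ k ∧
    (∀ y ∈ LL G g q h d A, y ∉ X → ∃ r ∈ R, r ∈ IN G (2 * g) A y) ∧
    ∀ u v, u ∉ X → Pr G g q h d A u v → ∃ r ∈ R, r ∈ dset G u v

/-- DIS. PROOF. Let `u, v ∉ T`, `u ≠ v`, with the same neighbours in `T`. `v ∉ A ∪ E`, `u ∉ A ∪ E`, so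
`u ∈ rc v`. If `|rc v| ≤ q` then `Pr u v`, `u ∉ X`, so some `r ∈ R ⊆ T` distinguishes `u` and `v`, a
contradiction. Otherwise `v ∈ LA`, `v ∉ T`, so `v ∈ LL`, `v ∉ X`, and there is `r ∈ R`, `r ∈ In v`,
`r ∈ T` so `r ≠ u`; `u` has the same neighbours as `v` in `insert r A`, so `u ∈ side r v`, `Pr u v`,
and again a contradiction. -/
def T_DIS : Prop := ∀ (V : Type) [Fintype V] (G : SimpleGraph V) (g q h d : ℕ)
  (A R X T : Finset V), A ∪ EE G g A ⊆ T → LA G g q A \ LL G g q h d A ⊆ T → X ⊆ T → R ⊆ T →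
  (∀ y ∈ LL G g q h d A, y ∉ X → ∃ r ∈ R, r ∈ IN G (2 * g) A y) →
  (∀ u v, u ∉ X → Pr G g q h d A u v → ∃ r ∈ R, r ∈ dset G u v) → Dst G T

/-- CON: connecting, abstract. PROOF. Take `T` with `Bd ar fr B T` and
`T.card + 3 * (R \ T).card ≤ B.card + 3 * R.card` such that `(R \ T).card` is minimal (`T = B` is
allowed). `B ⊆ T` always. Suppose `r ∈ R \ T`. It suffices to add at most `3` vertices, one of them
from `R \ T`. If `fr r`: add `r`. Otherwise `r ∈ P` (`r ∉ B`). Call `y ∈ P` near if `y ∈ T` or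
`ar t y` for some `t ∈ T`. (i) If `r` is near add `r`. (ii) Let `r` be not near, `y0` as in the last
hypothesis for `r`. (a) `y0` near: on the path from `r` to `y0` (all its vertices are in `P`, each step
`a, b` has `ar b a`) there is a step `a, b` with `a` not near, `b` near. `a ∉ T`, so `a ∉ B` and there
is `r' ∈ R` with `ar r' a`; `r' ∉ T` since `a` is not near. Add `b` (unless `b ∈ T`; `b` is near),
then `a` (`ar b a`), then `r'`: if `r' ∈ P` then `ar a r'` by symmetry; if `fr r'` it may be added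
(`r' ∈ B ⊆ T` is impossible). (b) `y0` not near: `y0 ∉ T`, so `y0 ∉ B`, and there is `s ∉ P` with
`ar s y0`; `s ∉ T`, so `fr s`. There is `r' ∈ R`, `ar r' y0`, `r' ∉ T`. Add `s`, `y0`, `r'` (as in (a)).
The result has at most `3` more vertices and `(R \ T).card` has decreased. -/
def T_CON : Prop := ∀ (V : Type) [Fintype V] (ar : V → V → Prop) (fr : V → Prop)
  (B R P : Finset V), (∀ y, y ∈ B ∨ fr y ∨ y ∈ P) →
  (∀ y ∈ P, y ∉ B → ∃ r ∈ R, ar r y) → (∀ y ∈ P, ∀ z ∈ P, ar z y → ar y z) →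
  (∀ y ∈ P, ∃ y0, Relation.ReflTransGen (fun a b => b ∈ P ∧ ar b a) y y0 ∧
    (y0 ∈ B ∨ ∃ s, s ∉ P ∧ ar s y0)) →
  ∃ T, Bd ar fr B T ∧ B ⊆ T ∧ R ⊆ T ∧ T.card ≤ B.card + 3 * R.card

/-- ROO: roots of the large components. PROOF. On `P` the relation `z ∈ CO G g A P y` is an
equivalence relation (steps are symmetric inside `P`; `CO y ⊆ P` for `y ∈ P`). Choose one element in
every class with more than `M` elements (for example the image of `P` under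
`y ↦ choice of (CO y)`, a function of the set `CO y`); the classes are disjoint. -/
def T_ROO : Prop := ∀ (V : Type) [Fintype V] (G : SimpleGraph V) (g M : ℕ) (A P : Finset V),
  (∀ y ∈ P, ∀ z ∈ P, z ∈ IN G (2 * g) A y → y ∈ IN G (2 * g) A z) →
  ∃ Q ⊆ P, M * Q.card ≤ Fintype.card V ∧
    ∀ y ∈ P, M < (CO G g A P y).card → ∃ r ∈ Q, r ∈ CO G g A P y

/-- BTB. PROOF. Induction. `free`: `C = A ∪ E ⊆ B ⊆ T`. `arrow`: `C = insert z A ⊆ T`
(`A ⊆ B ⊆ T`; `B ⊆ T` by induction), `|cl G (insert z A) y| ≤ 2 g ≤ q`. -/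
def T_BTB : Prop := ∀ (V : Type) [Fintype V] (G : SimpleGraph V) (g q : ℕ) (A B T : Finset V),
  2 * g ≤ q → A ∪ EE G g A ⊆ B →
  Bd (fun z y => z ∈ IN G (2 * g) A y)
    (fun y => y ∉ A ∪ EE G g A ∧ (cl G (A ∪ EE G g A) y).card ≤ q) B T → Bld G q B T

/-- AUB: few automorphisms. PROOF. Fix `T'` and `B ⊆ T'`. Claim: for `Bld G K B T`, `T ⊆ T'`, the
image of `Aut0 G B T'` under `σ ↦ (fun v => if v ∈ T then σ v else v)` has at most `K ^ (T \ B).card`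
elements. `T = B`: all `σ` fix `B`, one element. Step `T → insert y T`, `y ∉ T` (if `y ∈ T` nothing
changes), `y ∈ T'`, `C ⊆ T`: let `σ0` be given; the `σ ∈ Aut0 G B T'` which agree with `σ0` on `T`:
the values `σ y` are all in `D = {x ∈ T' | x ∉ σ0 C, x has the same adjacency to σ0 c as y to c
(c ∈ C)}` (`y ∉ C`; `c, y ∈ T'`), and `D` is the image under `σ0` (which maps `T'` to `T'`) of
`{x ∈ T' | x ∉ C, same neighbours as y in C} ⊆ cl G C y`, so `|D| ≤ K`. For `T' = T` the map is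
injective on `Aut0 G B T` (all `σ` fix the vertices outside `T`). `B ⊆ T` by induction. -/
def T_AUB : Prop := ∀ (V : Type) [Fintype V] (G : SimpleGraph V) (K : ℕ) (B T : Finset V),
  1 ≤ K → Bld G K B T → (Aut0 G B T).card ≤ K ^ T.card

/-- EMC (from AUB). PROOF. `p_EMB` (RNB/P_EMB.lean) with `A0 = B`, `A = T` (`B ⊆ T`). -/
def T_EMC : Prop := ∀ (V : Type) [Fintype V] (G : SimpleGraph V) (K : ℕ) (B T : Finset V),
  1 ≤ K → Bld G K B T →
  (Embs G T G).card ≤ (Fintype.card V).choose T.card * Fintype.card V ^ B.card * K ^ T.card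

/-- STR (from ESM, EHI, ELO, SYM, CMP, SEL, DIS, CON, ROO, BTB): the dichotomy. PROOF. `R, X` from SEL,
`P = LL`, `Q` from ROO (symmetry: SYM, as `LL ⊆ LA` with `|In| ≤ h`). Let
`B = A ∪ E ∪ (LA \ LL) ∪ X ∪ Q`. `LA \ LL` is contained in the union of the two sets of EHI, ELO; so
`|B| ≤ |A| + |E| + e1 + e2 + |X| + |Q|`. CON with `ar z y := z ∈ In y`,
`fr y := y ∉ A ∪ E ∧ |rc y| ≤ q`: first hypothesis: clear. Second: SEL (`y ∉ X`). Third: SYM. Fourth: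
let `y ∈ LL`, `W = CO y`. If `|W| > M`: a root `r ∈ Q ⊆ B` is in `W` (the relation `St` is the relation
in CON). If `|W| ≤ M`: by CMP and the hypothesis that there is no `Gd`, some `y0 ∈ W` has
`s ∈ In y0`, `s ∉ W`; then `s ∉ LL` (otherwise one more step). So CON gives `T`; DIS and BTB. -/
def T_STR : Prop := ∀ (V : Type) [Fintype V] (G : SimpleGraph V) (g q h d M k : ℕ)
  (A : Finset V), 1 ≤ Fintype.card V → 1 ≤ g → 4 * g + h + 2 ≤ q → 1 ≤ d →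
  d ≤ Fintype.card V → (∀ u v, u ≠ v → d ≤ (dset G u v).card) → (∀ v, ¬ Gd G g M A v) →
  ∃ (B T : Finset V) (e e1 e2 x c : ℕ), Dst G T ∧ Bld G q B T ∧ T.card ≤ B.card + 3 * k ∧
    B.card ≤ A.card + e + e1 + e2 + x + c ∧ g * e ≤ sm G A ∧ h * e1 ≤ sm G A ∧
    q * e2 ≤ Fintype.card V ∧ M * c ≤ Fintype.card V ∧
    (x : ℝ) ≤ ((Fintype.card V : ℝ) * (1 + q + h * (2 * g))) *
      (1 - (d : ℝ) / (2 * Fintype.card V)) ^ k

/-! ## D. numbers -/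

/-- NPA. PROOF. `n → ∞`: `L = pL n`, `log_2 n < L ≤ log_2 n + 1`. (1), (2): polylogarithmic against
`n`: `n / L^2 ≥ 1`, `N = pN n ≥ n / (2 L^2)`, `N * 4 n L^3 ≥ 2 n^2 L ≥ 2 n^2 logb 2 n`. (3): `pd n ≤ n`. -/
def T_NPA : Prop := ∃ n0 : ℕ, ∀ n : ℕ, n0 ≤ n → 1 ≤ pN n ∧
  2 * ((n : ℝ) ^ 2 * Real.logb 2 n) ≤ pN n * (4 * n * (pL n : ℝ) ^ 3) ∧ pd n ≤ n ∧
  4 * pg n + pg n + 2 ≤ pq n ∧ 1 ≤ pg n ∧ 1 ≤ pd n

/-- NX. PROOF. `L = pL n`, `l = pl n`, `L < 2^l`, `g = 4 L^6`, `q = 32 L^6`: the first factor is at most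
`n (1 + 32 L^6 + 32 L^12) ≤ 65 n L^12`. `k = n / (300 l) ≥ n / (600 l)` for `n` large, and
`(1 - d/(2n))^k ≤ exp (- d k / (2 n)) ≤ exp (- 20000 l^2 / (1200 l)) ≤ exp (- 16 l)` and
`65 L^14 ≤ 2^(7 + 14 l) ≤ 2^(21 l) ≤ exp (15 l)` (`l ≥ 1`, `21 log 2 ≤ 14.6`), so the product is at
most `n / L^2` for `n ≥ n0` (`0 ≤ 1 - d / (2 n)` by `pd n ≤ n`). -/
def T_NX : Prop := ∃ n0 : ℕ, ∀ n : ℕ, n0 ≤ n →
  ((n : ℝ) * (1 + (pq n : ℝ) + (pg n : ℝ) * (2 * (pg n : ℝ)))) *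
    (1 - (pd n : ℝ) / (2 * n)) ^ (pk n) * (pL n : ℝ) ^ 2 ≤ n

/-- NB. PROOF. `L = pL n`, `l = pl n`; all inequalities times `L`: `a ≤ n / L^2`, `e ≤ n / L^3`,
`e1 ≤ n / L^3`, `e2 ≤ n / (32 L^6)`, `x ≤ n / L^2`, `c ≤ n / (100 L)`; so `b L ≤ n (1/100 + 5/L)
≤ n / 50` for `L ≥ 500`. `t ≤ b + 3 pk n ≤ n / (50 L) + n / (100 l)`. -/
def T_NB : Prop := ∃ n0 : ℕ, ∀ n : ℕ, n0 ≤ n → ∀ a e e1 e2 x c b t : ℕ, a ≤ pN n →
  (pg n : ℝ) * e ≤ 4 * n * (pL n : ℝ) ^ 3 → (pg n : ℝ) * e1 ≤ 4 * n * (pL n : ℝ) ^ 3 →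
  pq n * e2 ≤ n → pM n * c ≤ n → (x : ℝ) * (pL n : ℝ) ^ 2 ≤ n → b ≤ a + e + e1 + e2 + x + c →
  t ≤ b + 3 * pk n → (b : ℝ) * pL n ≤ n / 50 ∧ (t : ℝ) * pl n ≤ n / 90 ∧ 32 * t ≤ n

/-- NF. PROOF. `L = pL n ≥ log_2 n`, `l = pl n`, `q = 32 L^6 ≤ 2^(5 + 6 l) ≤ 2^(11 l)`. By `p_BIN`
(RNB/P_BIN.lean) `n.choose t ≤ 2^(13 n / 64)`; `n^b ≤ 2^(b L) ≤ 2^(n/50)`, `q^t ≤ 2^(11 l t) ≤
2^(11 n / 90)`. So the left side is at most `2^(2 (1 + n (13/64 + 1/50 + 11/90)))`, exponent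
`2 + 0.696 n < n - n / 32 ≤ n - t` for `n ≥ 10`. -/
def T_NF : Prop := ∃ n0 : ℕ, ∀ n : ℕ, n0 ≤ n → ∀ b t : ℕ, (b : ℝ) * pL n ≤ n / 50 →
  (t : ℝ) * pl n ≤ n / 90 → 32 * t ≤ n →
  (2 * (n.choose t * n ^ b * pq n ^ t)) ^ 2 < 2 ^ (n - t)

/-! ## E. the theorem for one graph -/

/-- RMS (see `p_REC` in RNB/P_REC.lean, which contains this argument). -/
def T_RMS : Prop := ∀ (V : Type) [Fintype V] (G H : SimpleGraph V) (T : Finset V),
  (∀ v, CardIso G H v v) → Dst G T →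
  (2 * (Embs G T G).card) ^ 2 < 2 ^ (Fintype.card V - T.card) →
  ∃ α : V ≃ V, ∀ x y, G.Adj x y ↔ H.Adj (α x) (α y)

/-- ONE (from STR, EMC, NPA, NX, NB, NF, RMS). PROOF. `n` large, `g = h = pg n`, `q = pq n`,
`d = pd n`, `M = pM n`, `k = pk n`. If no `v` has `Gd` then STR gives `B, T`, EMC the bound for
`Embs` with `K = q`, NX, NB, NF the inequality, RMS the isomorphism. -/
def T_ONE : Prop := ∃ n0 : ℕ, ∀ (V : Type) [Fintype V] (G H : SimpleGraph V),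
  n0 ≤ Fintype.card V → (∀ v, CardIso G H v v) →
  (¬ ∃ α : V ≃ V, ∀ x y, G.Adj x y ↔ H.Adj (α x) (α y)) →
  (∀ u v, u ≠ v → pd (Fintype.card V) ≤ (dset G u v).card) →
  ∀ A : Finset V, A.card ≤ pN (Fintype.card V) →
  (sm G A : ℝ) ≤ 4 * (Fintype.card V : ℝ) * (pL (Fintype.card V) : ℝ) ^ 3 →
  ∃ v, Gd G (pg (Fintype.card V)) (pM (Fintype.card V)) A v

/-- HLF (from RSQ, NPA, ONE). PROOF. RSQ with `N = pN n`, `B = 4 n L^3`; for the `p` counted there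
ONE applies to `A = Bi ∅ p.2 p.1` (`|A| ≤ N`). -/
def T_HLF : Prop := ∃ n0 : ℕ, ∀ (V : Type) [Fintype V] (G H : SimpleGraph V),
  n0 ≤ Fintype.card V → (∀ v, CardIso G H v v) →
  (¬ ∃ α : V ≃ V, ∀ x y, G.Adj x y ↔ H.Adj (α x) (α y)) →
  (∀ u v, u ≠ v → pd (Fintype.card V) ≤ (dset G u v).card) →
  Fintype.card (Fin (pN (Fintype.card V)) × (Fin (pN (Fintype.card V)) → V)) ≤
    2 * (univ.filter (fun p : Fin (pN (Fintype.card V)) × (Fin (pN (Fintype.card V)) → V) =>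
      ∃ v, Gd G (pg (Fintype.card V)) (pM (Fintype.card V)) (Bi ∅ p.2 p.1) v)).card

/-! ## F. decoding and averaging -/

/-- DCB. PROOF. Let `K` be counted, with code `(w, u, b, S)`. For `z, y ≠ v`, `v ∉ A`: the set
`sd K A v z y` depends only on the adjacency of `K` outside `v` (`cl K (insert z A) y` without `v`:
only vertices `≠ v` are involved), so `sd K A v z y = sd F A v z y`; hence
`BR K g A v w = BR F g A v w` for `w ≠ v` (all steps are between vertices `≠ v`). So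
the neighbours of `v` in `K` are determined by `F`, `(w, u, b, S)` (in `Cod` only `K.Adj z u` with
`z, u ≠ v` occurs), and so is `K`. The number of `(w, u, b, S)` with `|BR F g A v w| ≤ M`,
`S ⊆ BR F g A v w`, is at most `n * n * 2 * 2^M`. -/
def T_DCB : Prop := ∀ (V : Type) [Fintype V] (F : SimpleGraph V) (g M : ℕ) (A : Finset V)
  (v : V), (univ.filter (fun K : SimpleGraph V =>
    (∀ x y, x ≠ v → y ≠ v → (K.Adj x y ↔ F.Adj x y)) ∧ Gd K g M A v)).card ≤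
    2 * Fintype.card V ^ 2 * 2 ^ M

/-- EQV: all notions are invariant. PROOF. `cl K (A.image σ) (σ y) = (cl H A y).image σ`, so
`sd K (A.image σ) (σ v) (σ z) (σ y) = (sd H A v z y).image σ`, `Ar` corresponds to `Ar`,
`BR K g (A.image σ) (σ v) (σ w) = (BR H g A v w).image σ`; the code is
`(σ w, σ u, b, S.image σ)`. -/
def T_EQV : Prop := ∀ (V : Type) [Fintype V] (H K : SimpleGraph V) (σ : V ≃ V) (g M : ℕ)
  (A : Finset V) (v : V), (∀ x y, H.Adj x y ↔ K.Adj (σ x) (σ y)) → Gd H g M A v →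
  Gd K g M (A.image σ) (σ v)

/-- AVG (from DCB, EQV). PROOF. `Ω = Fin N × (Fin N → V)`. For every `i` there is `v_i` with
`|Ω| ≤ 2 n #{p | Gd (H i) g M (Bi ∅ p.2 p.1) v_i}` (pigeonhole over `v`). By `hyp` there is
`σ_i : V ≃ V`, `σ_i v_i = v_i`, with `(H i).Adj x y ↔ G.Adj (σ_i x) (σ_i y)` for `x, y ≠ v_i`
(`CardIso.symm`). Let `K_i` be the graph with `K_i.Adj (σ_i x) (σ_i y) ↔ (H i).Adj x y`
(`(H i).comap σ_i.symm`). `K_i` agrees with `G` outside `v_i`; the `K_i` are pairwise different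
(`K_i ≅ H i`, `hne`). By EQV `Gd (H i) g M (Bi ∅ x j) v_i` implies
`Gd K_i g M (Bi ∅ (σ_i ∘ x) j) v_i` (`(Bi ∅ x j).image σ_i = Bi ∅ (σ_i ∘ x) j`), and
`(j, x) ↦ (j, σ_i ∘ x)` is a bijection of `Ω`; so `|Ω| ≤ 2 n #{p | Gd K_i g M (Bi ∅ p.2 p.1) v_i}`.
Sum over the `i` with `v_i = v`: `#{i | v_i = v} |Ω| ≤ 2 n ∑_p #{i | v_i = v, Gd K_i ..} ≤
2 n |Ω| * 2 n^2 2^M` by DCB (`F = G`). Sum over `v` and cancel `|Ω| > 0`. -/
def T_AVG : Prop := ∀ (V ι : Type) [Fintype V] [Fintype ι] (G : SimpleGraph V)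
  (H : ι → SimpleGraph V) (N g M : ℕ), 1 ≤ N → 1 ≤ Fintype.card V →
  (∀ i v, CardIso G (H i) v v) →
  (∀ i j, i ≠ j → ¬ ∃ α : V ≃ V, ∀ x y, (H i).Adj x y ↔ (H j).Adj (α x) (α y)) →
  (∀ i, Fintype.card (Fin N × (Fin N → V)) ≤ 2 * (univ.filter
    (fun p : Fin N × (Fin N → V) => ∃ v, Gd (H i) g M (Bi ∅ p.2 p.1) v)).card) →
  Fintype.card ι ≤ 4 * Fintype.card V ^ 4 * 2 ^ M

/-- BIG (from HLF, AVG). PROOF. `n ≥ n0`, `n ≥ 4`, `pN n ≥ 1` (NPA). If `|ι| ≤ 1` it is trivial. Let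
`ι1` be the subtype of the `i` such that some `u ≠ v` have `|dset (H i) u v| ≤ pd n`: by `exists_cd`
and `card_le_codes` (RNum/Base.lean, `k = pd n`, see `number_log` in RNB/Final.lean)
`|ι1| ≤ 2 n^(pd n + 2)`. For the other `i` there is `j ≠ i`, `H i`, `H j` are not isomorphic and have
the same deck, so HLF applies to `H i` (with `H j`; `RNum.CardIso_trans`), and AVG gives
`|ι2| ≤ 4 n^4 2^(pM n)`. -/
def T_BIG : Prop := ∃ n0 : ℕ, ∀ (V ι : Type) [Fintype V] [Fintype ι] (G : SimpleGraph V)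
  (H : ι → SimpleGraph V), n0 ≤ Fintype.card V → (∀ i v, CardIso G (H i) v v) →
  (∀ i j, i ≠ j → ¬ ∃ α : V ≃ V, ∀ x y, (H i).Adj x y ↔ (H j).Adj (α x) (α y)) →
  Fintype.card ι ≤ 2 * Fintype.card V ^ (pd (Fintype.card V) + 2) +
    4 * Fintype.card V ^ 4 * 2 ^ (pM (Fintype.card V))

/-- NFI. PROOF. `x = logb 2 (logb 2 n) ≥ 0.66` for `n ≥ 3`. `pL n ≤ log_2 n + 1 ≤ 2 log_2 n`, so
`pl n ≤ x + 2 ≤ 5 x`; `pd n ≤ 500000 x^2`; `2^(pM n) ≤ 2^(200 log_2 n) = n^200`; `2, 4 ≤ n^2`. So the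
left side is at most `n^(500000 x^2 + 300)`, and `300 ≤ 1000 x^2` (`x^2 ≥ 0.43`). -/
def T_NFI : Prop := ∃ C : ℝ, 0 < C ∧ ∀ n : ℕ, 3 ≤ n →
  ((2 * n ^ (pd n + 2) + 4 * n ^ 4 * 2 ^ (pM n) : ℕ) : ℝ) ≤
    (n : ℝ) ^ (C * Real.logb 2 (Real.logb 2 n) ^ 2)

/-- ALL (from BIG, NFI): all `n ≥ 3`. PROOF. For `n < n0`: `ι` injects into `SimpleGraph V`
(`hne`: equal graphs are isomorphic), which has at most `2^(n^2) ≤ 2^(n0^2)` elements, and
`n^(C' x^2) ≥ 3^(0.43 C')`. Take the maximum of the two constants. -/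
def T_ALL : Prop := ∃ C : ℝ, 0 < C ∧ ∀ (V ι : Type) [Fintype V] [Fintype ι]
  (G : SimpleGraph V) (H : ι → SimpleGraph V), 3 ≤ Fintype.card V →
  (∀ i v, CardIso G (H i) v v) →
  (∀ i j, i ≠ j → ¬ ∃ α : V ≃ V, ∀ x y, (H i).Adj x y ↔ (H j).Adj (α x) (α y)) →
  (Fintype.card ι : ℝ) ≤
    (Fintype.card V : ℝ) ^ (C * Real.logb 2 (Real.logb 2 (Fintype.card V)) ^ 2)

end Pool.Agent.NRC
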